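import Pool.Agent.L5helper21.RG.Lin

/-!
# Group actions on a bundle and averaging
-/

set_option autoImplicit false
set_option maxHeartbeats 400000

open MvPolynomial H960VB H938TB Pool.Agent.W615 Pool.Agent.W467.FO

namespace Pool.Agent.L5helper21.RG

variable {n : ℕ} {E : Bundle2 n} {Γ : Type*} [Group Γ]

/-- an action of a group on a bundle over a linear action -/
structure Act (E : Bundle2 n) (T : Γ →* Module.End ℂ (Fin (n + 1) → ℂ)) where
  O : ∀ g, GOp E (T g)
  mul : ∀ (g h : Γ) (d : ℤ) (s : Vec E.a n), Sec E d s → (O (g * h)).D s = (O h).D ((O g).D s)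

variable {T : Γ →* Module.End ℂ (Fin (n + 1) → ℂ)} (A : Act E T)

/-- the operators -/
def Act.D (g : Γ) (s : Vec E.a n) : Vec E.a n := (A.O g).D s

/-- the operators on the sections of a twist -/
noncomputable def Act.lin (g : Γ) (d : ℤ) : Module.End ℂ (S0 E d) := (A.O g).lin d

theorem Act.sec {g : Γ} {d : ℤ} {s : Vec E.a n} (hs : Sec E d s) : Sec E d (A.D g s) :=
  (A.O g).sec d s hs

theorem Act.coe_lin (g : Γ) (d : ℤ) (s : S0 E d) : ((A.lin g d s : S0 E d) : Vec E.a n) =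
    A.D g s := rfl

theorem Act.D_mul (g h : Γ) {d : ℤ} {s : Vec E.a n} (hs : Sec E d s) :
    A.D (g * h) s = A.D h (A.D g s) := A.mul g h d s hs

theorem Act.inj {g : Γ} {d : ℤ} {s t : Vec E.a n} (hs : Sec E d s) (ht : Sec E d t)
    (h : A.D g s = A.D g t) : s = t := by
  have h1 : (A.O g).lin d ⟨s, hs⟩ = (A.O g).lin d ⟨t, ht⟩ := Subtype.ext h
  exact congrArg Subtype.val (lin_inj (A.O g) d h1)

theorem Act.D_one {d : ℤ} {s : Vec E.a n} (hs : Sec E d s) : A.D 1 s = s := by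
  have h1 := A.D_mul 1 1 hs
  rw [mul_one] at h1
  exact (A.inj hs (A.sec hs) h1).symm

theorem Act.lin_one (d : ℤ) : A.lin 1 d = 1 := by
  apply LinearMap.ext
  intro s
  apply Subtype.ext
  exact A.D_one s.2

theorem Act.lin_mul (g h : Γ) (d : ℤ) : A.lin (g * h) d = A.lin h d * A.lin g d := by
  apply LinearMap.ext
  intro s
  apply Subtype.ext
  exact A.D_mul g h s.2

theorem Act.lin_pow (g : Γ) (d : ℤ) (k : ℕ) : A.lin (g ^ k) d = A.lin g d ^ k := by
  induction k with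
  | zero => rw [pow_zero, pow_zero, A.lin_one]
  | succ k ih => rw [pow_succ, A.lin_mul, ih, ← pow_succ']

theorem Act.lin_card (g : Γ) (d : ℤ) : A.lin g d ^ Nat.card Γ = 1 := by
  rw [← A.lin_pow, pow_card_eq_one', A.lin_one]

theorem T_inv (T : Γ →* Module.End ℂ (Fin (n + 1) → ℂ)) (g : Γ) (x : Fin (n + 1) → ℂ) :
    T g⁻¹ (T g x) = x := by
  have h : T g⁻¹ * T g = 1 := by rw [← map_mul, inv_mul_cancel, map_one]
  exact LinearMap.congr_fun h x

theorem T_inj (T : Γ →* Module.End ℂ (Fin (n + 1) → ℂ)) (g : Γ) : Function.Injective (T g) :=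
  Function.LeftInverse.injective (T_inv T g)

theorem chi_ne (χ : Γ →* ℂ) (g : Γ) : χ g ≠ 0 := by
  intro h
  have h1 : χ g * χ g⁻¹ = 1 := by rw [← map_mul, mul_inv_cancel, map_one]
  rw [h, zero_mul] at h1
  exact zero_ne_one h1

theorem chi_inv (χ : Γ →* ℂ) (g : Γ) : χ g⁻¹ = (χ g)⁻¹ := by
  have h1 : χ g⁻¹ * χ g = 1 := by rw [← map_mul, inv_mul_cancel, map_one]
  exact eq_inv_of_mul_eq_one_left h1

/-- semi-invariant sections -/
def Act.Semi (χ : Γ → ℂ) (d : ℤ) (s : Vec E.a n) : Prop :=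
  Sec E d s ∧ ∀ g, A.D g s = χ g • s

section avg
variable [Fintype Γ]

/-- the average with respect to a character -/
noncomputable def Act.avg (χ : Γ →* ℂ) (d : ℤ) : Module.End ℂ (S0 E d) :=
  ∑ g, (χ g)⁻¹ • A.lin g d

theorem Act.lin_avg (χ : Γ →* ℂ) (d : ℤ) (h : Γ) (s : S0 E d) :
    A.lin h d (A.avg χ d s) = χ h • A.avg χ d s := by
  unfold Act.avg
  rw [LinearMap.sum_apply, map_sum, Finset.smul_sum]
  refine Fintype.sum_equiv (Equiv.mulRight h) _ _ fun g => ?_
  rw [LinearMap.smul_apply, map_smul, LinearMap.smul_apply, smul_smul, Equiv.coe_mulRight, A.lin_mul,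
    Module.End.mul_apply]
  congr 1
  rw [map_mul]
  have h1 := chi_ne χ h
  have h2 := chi_ne χ g
  field_simp

theorem Act.avg_semi (χ : Γ →* ℂ) (d : ℤ) (s : S0 E d) :
    A.Semi χ d (A.avg χ d s : S0 E d) :=
  ⟨(A.avg χ d s).2, fun g => by
    rw [← A.coe_lin, A.lin_avg, Submodule.coe_smul]⟩

/-- evaluation of vectors as a linear map -/
noncomputable def evl (a : ℕ) (v : Fin (n + 1) → ℂ) : Vec a n →ₗ[ℂ] (Fin a → ℂ) where
  toFun := fun G => evv G v
  map_add' := fun G H => evv_add G H v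
  map_smul' := fun c G => evv_smul c G v

theorem Act.evv_avg (χ : Γ →* ℂ) (d : ℤ) (s : S0 E d) (v : Fin (n + 1) → ℂ) :
    evv (A.avg χ d s : S0 E d) v = ∑ g, (χ g)⁻¹ • evv (A.D g s) v := by
  have h1 : ((A.avg χ d s : S0 E d) : Vec E.a n) = ∑ g, (χ g)⁻¹ • A.D g s := by
    unfold Act.avg
    rw [LinearMap.sum_apply, AddSubmonoidClass.coe_finsetSum]
    rfl
  have h2 := map_sum (evl E.a v) (fun g => (χ g)⁻¹ • A.D g (s : Vec E.a n)) Finset.univ
  rw [h1]
  refine h2.trans (Finset.sum_congr rfl fun g _ => ?_)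
  exact evv_smul _ _ _

/-- a polynomial separating a point from finitely many others -/
theorem exists_sep (F : Finset (Fin (n + 1) → ℂ)) (v : Fin (n + 1) → ℂ) :
    ∃ P : MvPolynomial (Fin (n + 1)) ℂ, eval v P = 1 ∧ ∀ w ∈ F, w ≠ v → eval w P = 0 := by
  classical
  have h : ∀ w : Fin (n + 1) → ℂ, ∃ q : MvPolynomial (Fin (n + 1)) ℂ, w ≠ v →
      eval v q = 1 ∧ eval w q = 0 := by
    intro w
    by_cases hw : w = v
    · exact ⟨0, fun h => absurd hw h⟩
    · obtain ⟨i, hi⟩ := Function.ne_iff.1 hw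
      refine ⟨C (v i - w i)⁻¹ * (X i - C (w i)), fun _ => ⟨?_, ?_⟩⟩
      · rw [map_mul, eval_C, map_sub, eval_X, eval_C, inv_mul_cancel₀]
        exact sub_ne_zero.2 (Ne.symm hi)
      · rw [map_mul, eval_C, map_sub, eval_X, eval_C, sub_self, mul_zero]
  choose q hq using h
  refine ⟨∏ w ∈ F.filter (· ≠ v), q w, ?_, fun w hw hwv => ?_⟩
  · rw [map_prod]
    exact Finset.prod_eq_one fun w hw => (hq w (Finset.mem_filter.1 hw).2).1
  · rw [map_prod]
    exact Finset.prod_eq_zero (Finset.mem_filter.2 ⟨hw, hwv⟩) (hq w hwv).2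

/-- the average over the stabiliser of a point is a sum of values of semi-invariant sections -/
theorem Act.exists_avg (χ : Γ →* ℂ) {d : ℤ} {s : Vec E.a n} (hs : Sec E d s)
    (v : Fin (n + 1) → ℂ) [DecidablePred fun g : Γ => T g v = v] :
    ∃ (N : ℕ) (e : ℕ → ℤ) (R : ℕ → Vec E.a n), (∀ k, A.Semi χ (e k) (R k)) ∧
      ∑ k ∈ Finset.range N, evv (R k) v =
        ∑ g ∈ Finset.univ.filter (fun g => T g v = v), (χ g)⁻¹ • evv (A.D g s) v := by
  classical
  obtain ⟨P, hP1, hP2⟩ := exists_sep (Finset.univ.image fun g : Γ => T g v) v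
  have hhom : ∀ k : ℕ, HomZ (homogeneousComponent k P) (k : ℤ) := fun k =>
    Or.inr ⟨k, rfl, homogeneousComponent_isHomogeneous k P⟩
  have hsec : ∀ k : ℕ, Sec E ((k : ℤ) + d) (fun i => homogeneousComponent k P * s i) :=
    fun k => sec_mul (hhom k) hs
  refine ⟨P.totalDegree + 1, fun k => (k : ℤ) + d, fun k => ((A.avg χ ((k : ℤ) + d)
    ⟨_, hsec k⟩ : S0 E ((k : ℤ) + d)) : Vec E.a n), fun k => A.avg_semi χ _ _, ?_⟩
  have h1 : ∀ k : ℕ, evv ((A.avg χ ((k : ℤ) + d) ⟨_, hsec k⟩ : S0 E ((k : ℤ) + d)) : Vec E.a n) v =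
      ∑ g, (χ g)⁻¹ • (eval (T g v) (homogeneousComponent k P) • evv (A.D g s) v) := by
    intro k
    rw [A.evv_avg]
    refine Finset.sum_congr rfl fun g _ => ?_
    congr 1
    funext i
    have h2 := (A.O g).mul d k (homogeneousComponent k P) s hs (hhom k)
    have h3 : A.D g (fun i => homogeneousComponent k P * s i) i =
      lsub (T g) (homogeneousComponent k P) * A.D g s i := congrFun h2 i
    show eval v (A.D g (fun i => homogeneousComponent k P * s i) i) =
      eval (T g v) (homogeneousComponent k P) * eval v (A.D g s i)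
    rw [h3, map_mul, eval_lsub]
  simp_rw [h1]
  rw [Finset.sum_comm, Finset.sum_filter]
  refine Finset.sum_congr rfl fun g _ => ?_
  rw [← Finset.smul_sum, ← Finset.sum_smul, ← map_sum, sum_homogeneousComponent]
  split_ifs with h
  · rw [h, hP1, one_smul]
  · rw [hP2 (T g v) (Finset.mem_image_of_mem _ (Finset.mem_univ g)) h, zero_smul, smul_zero]

end avg

end Pool.Agent.L5helper21.RG
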