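import Pool.Agent.L5helper21.RG.Proj

/-!
# Finite groups whose point stabilisers are generated by elements with a large fixed space
-/

set_option autoImplicit false
set_option maxHeartbeats 400000

open MvPolynomial H960VB H938TB Pool.Agent.W615 Pool.Agent.W467.FO
open Pool.Agent.L5helper21.DS

namespace Pool.Agent.L5helper21.RG

variable {n : ℕ} {E : Bundle2 n} {Γ : Type*} [Group Γ]
variable {T : Γ →* Module.End ℂ (Fin (n + 1) → ℂ)}

theorem wd_sum_left (W : Wedge (triv E)) {H : Vec E.a n} (hH : Ker E H) (N : ℕ)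
    (R : ℕ → Vec E.a n) (hR : ∀ k, Ker E (R k)) :
    Ker E (∑ k ∈ Finset.range N, R k) ∧
      W.wd (∑ k ∈ Finset.range N, R k) H = ∑ k ∈ Finset.range N, W.wd (R k) H := by
  induction N with
  | zero =>
    rw [Finset.sum_range_zero, Finset.sum_range_zero]
    exact ⟨ker_zero, wd_zero_left W ker_zero hH fun _ => rfl⟩
  | succ N ih =>
    rw [Finset.sum_range_succ, Finset.sum_range_succ, ← ih.2]
    exact ⟨ker_add ih.1 (hR N), wd_add_left W ih.1 (hR N) hH⟩

theorem evv_sum (N : ℕ) {a : ℕ} (R : ℕ → Vec a n) (v : Fin (n + 1) → ℂ) :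
    evv (∑ k ∈ Finset.range N, R k) v = ∑ k ∈ Finset.range N, evv (R k) v :=
  map_sum (evl a v) R (Finset.range N)

/-- the semi-invariant sections generate the fibre at a point, if the stabiliser of the point acts
by the character -/
theorem Act.pair_of_stab [Fintype Γ] (A : Act E T) (W : Wedge (triv E)) (χ : Γ →* ℂ)
    {v : Fin (n + 1) → ℂ} (hv : v ≠ 0)
    (hst : ∀ g, T g v = v → ∀ (d : ℤ) (G : Vec E.a n), Sec E d G →
      evv (A.D g G) v = χ g • evv G v) :
    ∃ (d e : ℤ) (R R' : Vec E.a n), A.Semi χ d R ∧ A.Semi χ e R' ∧ eval v (W.wd R R') ≠ 0 := by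
  classical
  have key : ∀ {d : ℤ} {G H : Vec E.a n}, Sec E d G → Ker E H → eval v (W.wd G H) ≠ 0 →
      ∃ (e : ℤ) (R : Vec E.a n), A.Semi χ e R ∧ eval v (W.wd R H) ≠ 0 := by
    intro d G H hG hH hne
    obtain ⟨N, e, R, hR, hsum⟩ := A.exists_avg χ hG v
    set c : ℂ := ((Finset.univ.filter (fun g => T g v = v)).card : ℂ) with hc
    have hc0 : c ≠ 0 := by
      rw [hc, Nat.cast_ne_zero, Finset.card_ne_zero]
      refine ⟨1, ?_⟩
      rw [Finset.mem_filter]
      refine ⟨Finset.mem_univ _, ?_⟩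
      rw [map_one]
      rfl
    have hval : ∑ k ∈ Finset.range N, evv (R k) v = c • evv G v := by
      rw [hsum, Finset.sum_congr rfl (g := fun _ => evv G v)]
      · rw [Finset.sum_const, ← Nat.cast_smul_eq_nsmul ℂ]
      · intro g hg
        rw [Finset.mem_filter] at hg
        rw [hst g hg.2 d G hG, smul_smul, inv_mul_cancel₀ (chi_ne χ g), one_smul]
    obtain ⟨hk, hw⟩ := wd_sum_left W hH N R fun k => (hR k).1.ker
    have h1 := (W.ind v hv _ _ hG.ker hH).1 hne
    have h2 : LinearIndependent ℂ ![evv (∑ k ∈ Finset.range N, R k) v, evv H v] := by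
      rw [evv_sum, hval]
      rw [LinearIndependent.pair_iff] at h1 ⊢
      intro a b hab
      rw [smul_smul] at hab
      obtain ⟨h3, h4⟩ := h1 _ _ hab
      exact ⟨(mul_eq_zero.1 h3).resolve_right hc0, h4⟩
    have h3 := (W.ind v hv _ _ hk hH).2 h2
    rw [hw, map_sum] at h3
    obtain ⟨k, -, hk'⟩ := Finset.exists_ne_zero_of_sum_ne_zero h3
    exact ⟨e k, R k, hR k, hk'⟩
  obtain ⟨a, b, G, G', hG, hG', hne⟩ := exists_sec_ne W v hv
  obtain ⟨d, R, hR, hne1⟩ := key hG hG'.ker hne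
  have hne2 : eval v (W.wd G' R) ≠ 0 := by
    rw [W.anti _ _ hG'.ker hR.1.ker, map_neg]
    exact neg_ne_zero.2 hne1
  obtain ⟨e, R', hR', hne3⟩ := key hG' hR.1.ker hne2
  exact ⟨e, d, R', R, hR', hR, hne3⟩

/-- a finite family of semi-invariant sections which generates the bundle -/
theorem Act.family (A : Act E T) (W : Wedge (triv E)) {χ : Γ → ℂ}
    (hP : ∀ v : Fin (n + 1) → ℂ, v ≠ 0 → ∃ (d e : ℤ) (R R' : Vec E.a n),
      A.Semi χ d R ∧ A.Semi χ e R' ∧ eval v (W.wd R R') ≠ 0) :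
    ∃ (N : ℕ) (δ : Fin N → ℤ) (g : Fin N → Vec E.a n), (∀ j, A.Semi χ (δ j) (g j)) ∧
      ∀ x : Fin (n + 1) → ℂ, x ≠ 0 → ∃ j k, eval x (W.wd (g j) (g k)) ≠ 0 := by
  classical
  set S : Set (MvPolynomial (Fin (n + 1)) ℂ) := {p | ∃ (d e : ℤ) (R R' : Vec E.a n),
    A.Semi χ d R ∧ A.Semi χ e R' ∧ p = W.wd R R'} with hS
  obtain ⟨s, hs1, hs2⟩ := (Submodule.fg_span_iff_fg_span_finset_subset
    (R := MvPolynomial (Fin (n + 1)) ℂ) S).1 (IsNoetherian.noetherian _)
  have h : ∀ p : s, ∃ (d : Bool → ℤ) (R : Bool → Vec E.a n), (∀ b, A.Semi χ (d b) (R b)) ∧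
      (p : MvPolynomial (Fin (n + 1)) ℂ) = W.wd (R false) (R true) := by
    intro p
    obtain ⟨d, e, R, R', hR, hR', hp⟩ := hs1 p.2
    refine ⟨fun b => if b then e else d, fun b => if b then R' else R, fun b => ?_, hp⟩
    cases b
    · exact hR
    · exact hR'
  choose d R hR hp using h
  let ι := s × Bool
  let ε : ι ≃ Fin (Fintype.card ι) := Fintype.equivFin ι
  refine ⟨Fintype.card ι, fun j => d (ε.symm j).1 (ε.symm j).2,
    fun j => R (ε.symm j).1 (ε.symm j).2, fun j => hR _ _, fun x hx => ?_⟩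
  by_contra hc
  push Not at hc
  obtain ⟨a, b, G, G', hG, hG', hne⟩ := hP x hx
  apply hne
  have h1 : W.wd G G' ∈ Submodule.span (MvPolynomial (Fin (n + 1)) ℂ) S :=
    Submodule.subset_span ⟨a, b, G, G', hG, hG', rfl⟩
  rw [hs2] at h1
  have h2 : Submodule.span (MvPolynomial (Fin (n + 1)) ℂ) (s : Set (MvPolynomial (Fin (n + 1)) ℂ)) ≤
      RingHom.ker (eval x) := by
    rw [Submodule.span_le]
    intro p hp'
    show eval x p = 0
    have h3 := hc (ε (⟨p, hp'⟩, false)) (ε (⟨p, hp'⟩, true))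
    simp only [Equiv.symm_apply_apply] at h3
    rw [← hp ⟨p, hp'⟩] at h3
    exact h3
  exact h2 h1

/-- the bundle given by semi-invariant sections -/
theorem descend (hn1 : 1 ≤ n) (W : Wedge (triv E)) (A : Act E T)
    (χ : Γ →* ℂ) {S : Set Γ}
    (hP : ∀ v : Fin (n + 1) → ℂ, v ≠ 0 → ∃ (d e : ℤ) (R R' : Vec E.a n),
      A.Semi χ d R ∧ A.Semi χ e R' ∧ eval v (W.wd R R') ≠ 0)
    (hχ' : ∀ g ∈ S, ∀ (a b : ℤ) (s t : Vec E.a n), Sec E a s → Sec E b t →
        W.wd (A.D g s) (A.D g t) = C (χ g * χ g) * lsub (T g) (W.wd s t)) :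
    ∃ (F : Bundle2 n) (Ψ : Vec E.a n → Vec F.a n),
      (∀ k i, ∀ s ∈ S, lsub (T s) (F.B k i) = F.B k i) ∧
      (∀ d G, E.IsSection d G → F.IsSection d (Ψ G)) ∧
      (∀ d G G', E.IsSection d G → E.IsSection d G' → Ψ (G + G') = Ψ G + Ψ G') ∧
      (∀ d (p : MvPolynomial (Fin (n + 1)) ℂ) G, E.IsSection d G → Ψ (p • G) = p • Ψ G) ∧
      (∀ d H, F.IsSection d H → ∃! G, E.IsSection d G ∧ Ψ G = H) := by
  obtain ⟨N, δ, g, hg, hgen⟩ := A.family W (χ := χ) hP
  have hg1 : ∀ j, Sec E (δ j) (g j) := fun j => (hg j).1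
  have hinv : ∀ s ∈ S, ∀ j k, lsub (T s) (W.wd (g j) (g k)) = W.wd (g j) (g k) :=
    fun s hs j k => A.wd_inv W hχ' (hg j) (hg k) hs
  set Q := skewOf W hg1 hgen with hQ
  have hrow : ∀ H : Vec N n, (∀ x : Fin (n + 1) → ℂ, x ≠ 0 →
      evv H x ∈ Q.bundle.fib x) ↔ ∀ i j k, H i * W.wd (g j) (g k) -
        H j * W.wd (g i) (g k) + H k * W.wd (g i) (g j) = 0 := by
    intro H
    have hmem : ∀ x : Fin (n + 1) → ℂ, evv H x ∈ Q.bundle.fib x ↔
        ∀ i j k, eval x (H i * W.wd (g j) (g k) -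
        H j * W.wd (g i) (g k) + H k * W.wd (g i) (g j)) = 0 := fun x => mem_skew' Q x H
    constructor
    · intro h i j k
      have h1 : (H i * W.wd (g j) (g k) - H j * W.wd (g i) (g k) +
          H k * W.wd (g i) (g j)) * X 0 = 0 := by
        apply MvPolynomial.funext
        intro x
        rw [map_mul, map_zero]
        by_cases hx : x = 0
        · rw [hx, eval_X]
          simp
        · rw [(hmem x).1 (h x hx) i j k, zero_mul]
      exact (mul_eq_zero.1 h1).resolve_right (X_ne_zero 0)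
    · intro h x _
      rw [hmem x]
      intro i j k
      rw [h i j k, map_zero]
  let Ψ : Vec E.a n → Vec N n := fun G i => W.wd G (g i)
  refine ⟨Q.bundle, Ψ, ?_, ?_, ?_, ?_, ?_⟩
  · intro r l γ hγ
    show lsub (T γ) (row (fun j k => W.wd (g j) (g k)) ((eqv N).symm r) l) =
      row (fun j k => W.wd (g j) (g k)) ((eqv N).symm r) l
    unfold row
    simp only [map_add, map_sub, apply_ite (lsub (T γ)), map_zero, hinv γ hγ]
  · intro d G hG
    have hG' := sec_iff.2 hG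
    refine ⟨fun i => ?_, ?_⟩
    · have h1 := wd_homZ W hG' (hg1 i)
      show HomZ (W.wd G (g i)) (W.κ.1 + δ i + d)
      convert h1 using 1
      ring
    · refine (hrow (Ψ G)).2 fun i j k => ?_
      exact W.four G (g i) (g j) (g k) hG'.ker (hg1 i).ker (hg1 j).ker (hg1 k).ker
  · intro d G G' hG hG'
    funext i
    exact wd_add_left W (sec_iff.2 hG).ker (sec_iff.2 hG').ker (hg1 i).ker
  · intro d p G hG
    funext i
    exact W.smul p G (g i) (sec_iff.2 hG).ker (hg1 i).ker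
  · intro d H hH
    obtain ⟨G, hG1, hG2⟩ := surj W hn1 hg1 hgen (d := d) (H := H) (fun i => hH.1 i)
      ((hrow H).1 hH.2)
    refine ⟨G, ⟨sec_iff.1 hG1, funext hG2⟩, ?_⟩
    rintro G' ⟨hG', hG''⟩
    refine inj_of_gen W hg1 hgen (sec_iff.2 hG') hG1 fun i => ?_
    rw [hG2 i]
    exact congrFun hG'' i

/-- elements with a fixed space of dimension at least three -/
def Big (T : Γ →* Module.End ℂ (Fin (n + 1) → ℂ)) (g : Γ) : Prop :=
  3 ≤ Module.finrank ℂ (LinearMap.ker (T g - (1 : ℂ) • LinearMap.id))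

/-- the operator of the element acts by the same scalar at two points -/
def Act.Same (A : Act E T) (v p : Fin (n + 1) → ℂ) (g : Γ) (c : ℂ) : Prop :=
  c ≠ 0 ∧ ∀ (d : ℤ) (s : Vec E.a n), Sec E d s →
    evv (A.D g s) v = c • evv s v ∧ evv (A.D g s) p = c • evv s p

theorem Act.same_closure (A : Act E T) {v p : Fin (n + 1) → ℂ} {S : Set Γ}
    (hS : ∀ g ∈ S, ∃ c, A.Same v p g c) : ∀ g ∈ Subgroup.closure S, ∃ c, A.Same v p g c := by
  intro g hg
  induction hg using Subgroup.closure_induction with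
  | mem g hg => exact hS g hg
  | one =>
    refine ⟨1, one_ne_zero, fun d s hs => ?_⟩
    rw [A.D_one hs, one_smul, one_smul]
    exact ⟨rfl, rfl⟩
  | mul g h _ _ ihg ihh =>
    obtain ⟨c, hc0, hc⟩ := ihg
    obtain ⟨c', hc'0, hc'⟩ := ihh
    refine ⟨c' * c, mul_ne_zero hc'0 hc0, fun d s hs => ?_⟩
    rw [A.D_mul g h hs]
    obtain ⟨h1, h2⟩ := hc' d _ (A.sec (g := g) hs)
    obtain ⟨h3, h4⟩ := hc d s hs
    rw [h1, h2, h3, h4, smul_smul, smul_smul]
    exact ⟨rfl, rfl⟩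
  | inv g _ ih =>
    obtain ⟨c, hc0, hc⟩ := ih
    refine ⟨c⁻¹, inv_ne_zero hc0, fun d s hs => ?_⟩
    obtain ⟨h1, h2⟩ := hc d _ (A.sec (g := g⁻¹) hs)
    rw [← A.D_mul g⁻¹ g hs, inv_mul_cancel, A.D_one hs] at h1 h2
    rw [h1, h2, smul_smul, smul_smul, inv_mul_cancel₀ hc0, one_smul, one_smul]
    exact ⟨rfl, rfl⟩

/-- finite groups which fix a vector and whose stabilisers are generated by elements with a large
fixed space, equivariant bundles -/
theorem stab_act [Fintype Γ] (hn : 3 ≤ n) (hE : ¬ E.Splits) (A : Act E T)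
    {p : Fin (n + 1) → ℂ} (hp : p ≠ 0) (hfix : ∀ g, T g p = p)
    (hst : ∀ v, v ≠ 0 → ∀ g, T g v = v → g ∈ Subgroup.closure {h | T h v = v ∧ Big T h}) :
    ∃ (F : Bundle2 n) (Ψ : Vec E.a n → Vec F.a n),
      (∀ k i s, lsub (T s) (F.B k i) = F.B k i) ∧
      (∀ d G, E.IsSection d G → F.IsSection d (Ψ G)) ∧
      (∀ d G G', E.IsSection d G → E.IsSection d G' → Ψ (G + G') = Ψ G + Ψ G') ∧
      (∀ d (p : MvPolynomial (Fin (n + 1)) ℂ) G, E.IsSection d G → Ψ (p • G) = p • Ψ G) ∧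
      (∀ d H, F.IsSection d H → ∃! G, E.IsSection d G ∧ Ψ G = H) := by
  classical
  obtain ⟨W⟩ := exists_wedge (by omega : 1 ≤ n) (triv E)
  obtain ⟨e, t, ht, ht0⟩ := exists_val W hp
  -- the elements with a large fixed space
  have hbig : ∀ g, Big T g → ∃ u : ℂ, u ≠ 0 ∧
      (∀ (d : ℤ) (s : Vec E.a n), Sec E d s → ∀ x, T g x = x → evv (A.D g s) x = u • evv s x) ∧
      ∀ (a b : ℤ) (s t : Vec E.a n), Sec E a s → Sec E b t →
        W.wd (A.D g s) (A.D g t) = C (u * u) * lsub (T g) (W.wd s t) := by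
    intro g hg
    obtain ⟨κ, hκ0, hκ⟩ := (A.O g).det W (by omega) (T_inj T g)
    obtain ⟨u, hu, hu'⟩ := scal hE W (A.O g) hg hκ0 hκ (N := Nat.card Γ) Nat.card_pos.ne'
      (fun d => A.lin_card g d)
    refine ⟨u, ?_, hu', ?_⟩
    · rintro rfl
      apply hκ0
      rw [← hu, mul_zero]
    · rw [hu]
      exact hκ
  have hsame : ∀ v, v ≠ 0 → ∀ g, T g v = v → ∃ c, A.Same v p g c := by
    intro v hv g hg
    refine A.same_closure ?_ g (hst v hv g hg)
    rintro h ⟨hv', hb⟩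
    obtain ⟨u, hu0, hu, -⟩ := hbig h hb
    exact ⟨u, hu0, fun d s hs => ⟨hu d s hs v hv', hu d s hs p (hfix h)⟩⟩
  -- the character
  have huniq : ∀ a b : ℂ, a • evv t p = b • evv t p → a = b := by
    intro a b h
    have h1 : (a - b) • evv t p = 0 := by rw [sub_smul, h, sub_self]
    exact sub_eq_zero.1 ((smul_eq_zero.1 h1).resolve_right ht0)
  have hχ0 : ∀ g, ∃ c : ℂ, c ≠ 0 ∧ ∀ (d : ℤ) (s : Vec E.a n), Sec E d s →
      evv (A.D g s) p = c • evv s p := by
    intro g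
    obtain ⟨c, hc0, hc⟩ := hsame p hp g (hfix g)
    exact ⟨c, hc0, fun d s hs => (hc d s hs).1⟩
  choose c hc0 hc using hχ0
  let χ : Γ →* ℂ :=
    { toFun := c
      map_one' := by
        apply huniq
        rw [← hc 1 e t ht, A.D_one ht, one_smul]
      map_mul' := by
        intro g h
        apply huniq
        rw [← hc (g * h) e t ht, A.D_mul g h ht, hc h e _ (A.sec (g := g) ht), hc g e t ht,
          smul_smul, mul_comm] }
  have hχ : ∀ g, χ g = c g := fun _ => rfl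
  have hall : ∀ v, v ≠ 0 → ∀ g, T g v = v → ∀ (d : ℤ) (s : Vec E.a n), Sec E d s →
      evv (A.D g s) v = χ g • evv s v := by
    intro v hv g hg d s hs
    obtain ⟨u, hu0, hu⟩ := hsame v hv g hg
    have h1 : u = χ g := by
      apply huniq
      rw [hχ, ← (hu e t ht).2, hc g e t ht]
    rw [← h1]
    exact (hu d s hs).1
  obtain ⟨F, Ψ, hF, hrest⟩ := descend (by omega) W A χ (S := {g | Big T g})
    (fun v hv => A.pair_of_stab W χ hv fun g hg d G hG => hall v hv g hg d G hG) (by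
    intro g hg
    obtain ⟨u, hu0, hu, hu'⟩ := hbig g hg
    have h1 : u = χ g := by
      apply huniq
      rw [hχ, ← hu e t ht p (hfix g), hc g e t ht]
    rw [← h1]
    exact hu')
  refine ⟨F, Ψ, fun k i g => ?_, hrest⟩
  have hg : g ∈ Subgroup.closure {h | T h p = p ∧ Big T h} := hst p hp g (hfix g)
  have hcomp : ∀ g h : Γ, lsub (T (g * h)) (F.B k i) = lsub (T h) (lsub (T g) (F.B k i)) := by
    intro g h
    apply MvPolynomial.funext
    intro x
    rw [eval_lsub, eval_lsub, eval_lsub, map_mul, Module.End.mul_apply]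
  have hone : lsub (T 1) (F.B k i) = F.B k i := by
    rw [map_one]
    apply MvPolynomial.funext
    intro x
    rw [eval_lsub]
    rfl
  induction hg using Subgroup.closure_induction with
  | mem g hg => exact hF k i g hg.2
  | one => exact hone
  | mul g h _ _ ihg ihh => rw [hcomp, ihg, ihh]
  | inv g _ ih =>
    have h5 := hcomp g g⁻¹
    rw [ih, mul_inv_cancel, hone] at h5
    exact h5.symm

/-- normalisation of the lift of a map with a large fixed space -/
theorem exists_nrm' (hE : ¬ E.Splits) (hS : Simp E) (W : Wedge (triv E)) (hn : 1 ≤ n)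
    {T : Module.End ℂ (Fin (n + 1) → ℂ)} (hTi : Function.Injective T) {m : ℕ} (hm0 : m ≠ 0)
    (hm : T ^ m = 1)
    (h3 : 3 ≤ Module.finrank ℂ (LinearMap.ker (T - (1 : ℂ) • LinearMap.id))) (O : GOp E T) :
    ∃ O' : GOp E T, ∀ (d : ℤ) (s : Vec E.a n), Sec E d s → ∀ x, T x = x →
      evv (O'.D s) x = evv s x := by
  obtain ⟨c, hc0, hc⟩ := pow_const hS W O hm
  obtain ⟨r, hr⟩ : ∃ r : ℂ, r ^ m = c := IsAlgClosed.exists_pow_nat_eq c (Nat.pos_of_ne_zero hm0)
  have hr0 : r ≠ 0 := by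
    rintro rfl
    apply hc0
    rw [← hr, zero_pow hm0]
  let O₁ := scale O (inv_ne_zero hr0)
  obtain ⟨κ, hκ0, hκ⟩ := O₁.det W hn hTi
  have hpow : ∀ d, (O₁.lin d) ^ m = 1 := by
    intro d
    rw [scale_lin, smul_pow, hc d, smul_smul, ← hr, ← mul_pow, inv_mul_cancel₀ hr0, one_pow,
      one_smul]
  obtain ⟨u, hu, hu'⟩ := scal hE W O₁ h3 hκ0 hκ hm0 hpow
  have hu0 : u ≠ 0 := by
    rintro rfl
    apply hκ0
    rw [← hu, zero_mul]
  refine ⟨scale O₁ (inv_ne_zero hu0), fun d s hs x hx => ?_⟩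
  show evv (u⁻¹ • O₁.D s) x = evv s x
  rw [evv_smul, hu' d s hs x hx, smul_smul, inv_mul_cancel₀ hu0, one_smul]

/-- every element of a finite group is reached by products of generators -/
theorem of_closure [Finite Γ] {P : Γ → Prop} (h1 : P 1) (hmul : ∀ g h, P g → P h → P (g * h))
    {S : Set Γ} (hS : ∀ g ∈ S, P g) : ∀ g ∈ Subgroup.closure S, P g := by
  intro g hg
  have h2 : g ∈ Submonoid.closure S := by
    rw [← Subgroup.closure_toSubmonoid_of_isOfFinOrder (fun x _ => isOfFinOrder_of_finite x)]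
    exact hg
  clear hg
  induction h2 using Submonoid.closure_induction with
  | mem x hx => exact hS x hx
  | one => exact h1
  | mul x y _ _ ihx ihy => exact hmul x y ihx ihy

/-- finite groups which fix a vector and whose stabilisers are generated by elements with a large
fixed space, simple bundles -/
theorem stab_simple [Fintype Γ] (hn : 3 ≤ n) (hE : ¬ E.Splits) (hsimp : Simp E)
    {S : Set Γ} (hS : Subgroup.closure S = ⊤) (hL : ∀ s ∈ S, Nonempty (GOp E (T s)))
    {p : Fin (n + 1) → ℂ} (hp : p ≠ 0) (hfix : ∀ g, T g p = p)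
    (hst : ∀ v, v ≠ 0 → ∀ g, T g v = v → g ∈ Subgroup.closure {h | T h v = v ∧ Big T h}) :
    ∃ (F : Bundle2 n) (Ψ : Vec E.a n → Vec F.a n),
      (∀ k i s, lsub (T s) (F.B k i) = F.B k i) ∧
      (∀ d G, E.IsSection d G → F.IsSection d (Ψ G)) ∧
      (∀ d G G', E.IsSection d G → E.IsSection d G' → Ψ (G + G') = Ψ G + Ψ G') ∧
      (∀ d (p : MvPolynomial (Fin (n + 1)) ℂ) G, E.IsSection d G → Ψ (p • G) = p • Ψ G) ∧
      (∀ d H, F.IsSection d H → ∃! G, E.IsSection d G ∧ Ψ G = H) := by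
  classical
  obtain ⟨W⟩ := exists_wedge (by omega : 1 ≤ n) (triv E)
  obtain ⟨e, t, ht, ht0⟩ := exists_val W hp
  have hone : T 1 = LinearMap.id := by rw [map_one]; rfl
  have hcomp : ∀ g h, T (g * h) = T g ∘ₗ T h := fun g h => by rw [map_mul]; rfl
  -- all elements lift
  have hlift : ∀ g, Nonempty (GOp E (T g)) := by
    intro g
    refine of_closure (P := fun g => Nonempty (GOp E (T g))) ?_ ?_ hL g (by rw [hS]; trivial)
    · rw [hone]
      exact ⟨idOp E⟩
    · rintro g h ⟨O⟩ ⟨O'⟩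
      rw [hcomp]
      exact ⟨comp O O'⟩
  -- the lifts which are the identity at the fixed point
  have hnorm : ∀ g, ∃ O : GOp E (T g), ∀ (d : ℤ) (s : Vec E.a n), Sec E d s →
      evv (O.D s) p = evv s p := by
    intro g
    refine of_closure (P := fun g => ∃ O : GOp E (T g), ∀ (d : ℤ) (s : Vec E.a n), Sec E d s →
      evv (O.D s) p = evv s p) ?_ ?_ ?_ g (hst p hp g (hfix g))
    · rw [hone]
      exact ⟨idOp E, fun _ _ _ => rfl⟩
    · rintro g h ⟨O, hO⟩ ⟨O', hO'⟩
      rw [hcomp]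
      refine ⟨comp O O', fun d s hs => ?_⟩
      show evv (O'.D (O.D s)) p = evv s p
      rw [hO' d _ (O.sec d s hs), hO d s hs]
    · rintro g ⟨-, hg⟩
      obtain ⟨O⟩ := hlift g
      obtain ⟨O', hO'⟩ := exists_nrm' hE hsimp W (by omega) (T_inj T g)
        (orderOf_pos g).ne' (by rw [← map_pow, pow_orderOf_eq_one, map_one]) hg O
      exact ⟨O', fun d s hs => hO' d s hs p (hfix g)⟩
  -- uniqueness
  have huniq : ∀ g (O O' : GOp E (T g)), (∀ (d : ℤ) (s : Vec E.a n), Sec E d s →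
      evv (O.D s) p = evv s p) → (∀ (d : ℤ) (s : Vec E.a n), Sec E d s →
      evv (O'.D s) p = evv s p) → ∀ (d : ℤ) (s : Vec E.a n), Sec E d s → O.D s = O'.D s := by
    intro g O O' hO hO' d s hs
    obtain ⟨Q, hQ⟩ := hnorm g⁻¹
    have hid : T g ∘ₗ T g⁻¹ = LinearMap.id := by
      rw [← hcomp, mul_inv_cancel, hone]
    have h1 : ∀ R : GOp E (T g), (∀ (d : ℤ) (s : Vec E.a n), Sec E d s →
        evv (R.D s) p = evv s p) → Q.D (R.D s) = s := by
      intro R hR
      obtain ⟨c, hc⟩ := hsimp _ hid (comp R Q)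
      have h2 : c = 1 := by
        have h3 := congrArg (fun G => evv G p) (hc e t ht)
        change evv (Q.D (R.D t)) p = evv (c • t) p at h3
        rw [hQ e _ (R.sec e t ht), hR e t ht, evv_smul] at h3
        have h4 : (c - 1) • evv t p = 0 := by
          rw [sub_smul, ← h3, one_smul, sub_self]
        exact sub_eq_zero.1 ((smul_eq_zero.1 h4).resolve_right ht0)
      have h5 := hc d s hs
      rw [h2, one_smul] at h5
      exact h5
    have h2 : Q.lin d ⟨O.D s, O.sec d s hs⟩ = Q.lin d ⟨O'.D s, O'.sec d s hs⟩ := by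
      apply Subtype.ext
      show Q.D (O.D s) = Q.D (O'.D s)
      rw [h1 O hO, h1 O' hO']
    exact congrArg Subtype.val (lin_inj Q d h2)
  choose O hO using hnorm
  let A : Act E T := ⟨O, fun g h d s hs => by
    have h1 : ∃ P : GOp E (T (g * h)), ∀ s, P.D s = (O h).D ((O g).D s) := by
      rw [hcomp]
      exact ⟨comp (O g) (O h), fun _ => rfl⟩
    obtain ⟨P, hP⟩ := h1
    rw [← hP]
    refine huniq _ _ _ (hO _) (fun d s hs => ?_) d s hs
    rw [hP, hO h d _ ((O g).sec d s hs), hO g d s hs]⟩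
  exact stab_act hn hE A hp hfix hst

end Pool.Agent.L5helper21.RG
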