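import Pool.Agent.L5helper21.RG.Mono
import Pool.Agent.L5helper21.RG.Stab

/-!
# The alternating groups
-/

set_option autoImplicit false
set_option maxHeartbeats 400000

open MvPolynomial H960VB H938TB Pool.Agent.W615 Pool.Agent.W467.FO
open Pool.Agent.L5helper21.DS

namespace Pool.Agent.L5helper21.RG

variable {n : ℕ}

/-- the permutation representation of the alternating group -/
noncomputable def altRep (n : ℕ) :
    alternatingGroup (Fin (n + 1)) →* Module.End ℂ (Fin (n + 1) → ℂ) where
  toFun := fun σ => LinearMap.funLeft ℂ ℂ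
    (((σ⁻¹ : alternatingGroup (Fin (n + 1))) : Equiv.Perm (Fin (n + 1))))
  map_one' := by
    apply LinearMap.ext
    intro x
    rfl
  map_mul' := by
    intro σ τ
    apply LinearMap.ext
    intro x
    funext s
    rw [LinearMap.funLeft_apply, mul_inv_rev, Module.End.mul_apply, LinearMap.funLeft_apply,
      LinearMap.funLeft_apply]
    rfl

theorem altRep_apply (σ : alternatingGroup (Fin (n + 1))) (x : Fin (n + 1) → ℂ)
    (s : Fin (n + 1)) : altRep n σ x s = x ((σ : Equiv.Perm (Fin (n + 1)))⁻¹ s) := rfl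

theorem big_of_pair (hn : 4 ≤ n) {σ : alternatingGroup (Fin (n + 1))} {a b c d : Fin (n + 1)}
    (h : ∀ x : Fin (n + 1) → ℂ, x a = x b → x c = x d → altRep n σ x = x) :
    Big (altRep n) σ := by
  unfold Big
  set φ : (Fin (n + 1) → ℂ) →ₗ[ℂ] (ℂ × ℂ) :=
    ((LinearMap.proj a : (Fin (n + 1) → ℂ) →ₗ[ℂ] ℂ) - LinearMap.proj b).prod
      ((LinearMap.proj c : (Fin (n + 1) → ℂ) →ₗ[ℂ] ℂ) - LinearMap.proj d) with hφ
  have h1 := LinearMap.finrank_range_add_finrank_ker φ
  have h2 : Module.finrank ℂ (LinearMap.range φ) ≤ 2 := by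
    have h3 := Submodule.finrank_le (LinearMap.range φ)
    rw [Module.finrank_prod, Module.finrank_self] at h3
    exact h3
  rw [Module.finrank_fintype_fun_eq_card, Fintype.card_fin] at h1
  have h3 : LinearMap.ker φ ≤ LinearMap.ker (altRep n σ - (1 : ℂ) • LinearMap.id) := by
    intro x hx
    rw [LinearMap.mem_ker] at hx
    have h4 : x a - x b = 0 := congrArg Prod.fst hx
    have h5 : x c - x d = 0 := congrArg Prod.snd hx
    rw [LinearMap.mem_ker, LinearMap.sub_apply, LinearMap.smul_apply, LinearMap.id_apply, one_smul,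
      sub_eq_zero]
    exact h x (sub_eq_zero.1 h4) (sub_eq_zero.1 h5)
  have h4 := Submodule.finrank_mono h3
  omega

theorem swap_pres {v : Fin (n + 1) → ℂ} {a b : Fin (n + 1)} (h : v a = v b) (y : Fin (n + 1)) :
    v (Equiv.swap a b y) = v y := by
  rw [Equiv.swap_apply_def]
  split_ifs with h1 h2
  · rw [h1, h]
  · rw [h2, h]
  · rfl

/-- the stabilisers of the points are generated by elements with a large fixed space -/
theorem alt_stab (hn : 4 ≤ n) (v : Fin (n + 1) → ℂ) (g : alternatingGroup (Fin (n + 1)))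
    (hg : altRep n g v = v) :
    g ∈ Subgroup.closure {h | altRep n h v = v ∧ Big (altRep n) h} := by
  set H := Subgroup.closure {h | altRep n h v = v ∧ Big (altRep n) h} with hH
  have hpair : ∀ a b c d : Fin (n + 1), a ≠ b → c ≠ d → v a = v b → v c = v d →
      Equiv.swap a b * Equiv.swap c d ∈ H.map (alternatingGroup (Fin (n + 1))).subtype := by
    intro a b c d hab hcd h1 h2
    have hm : Equiv.swap a b * Equiv.swap c d ∈ alternatingGroup (Fin (n + 1)) := by
      rw [Equiv.Perm.mem_alternatingGroup, Equiv.Perm.sign_mul, Equiv.Perm.sign_swap hab,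
        Equiv.Perm.sign_swap hcd]
      rfl
    refine ⟨⟨_, hm⟩, ?_, rfl⟩
    have key : ∀ x : Fin (n + 1) → ℂ, x a = x b → x c = x d →
        altRep n ⟨_, hm⟩ x = x := by
      intro x hx1 hx2
      funext s
      rw [altRep_apply]
      show x ((Equiv.swap a b * Equiv.swap c d)⁻¹ s) = x s
      rw [mul_inv_rev, Equiv.swap_inv, Equiv.swap_inv, Equiv.Perm.mul_apply, swap_pres hx2,
        swap_pres hx1]
    exact Subgroup.subset_closure ⟨key v h1 h2, big_of_pair hn key⟩
  have key : ∀ (k : ℕ) (σ : Equiv.Perm (Fin (n + 1))), σ.support.card ≤ k →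
      (∀ i, v (σ i) = v i) →
      (Equiv.Perm.sign σ = 1 → σ ∈ H.map (alternatingGroup (Fin (n + 1))).subtype) ∧
      (Equiv.Perm.sign σ = -1 → ∀ a b, a ≠ b → v a = v b →
        Equiv.swap a b * σ ∈ H.map (alternatingGroup (Fin (n + 1))).subtype) := by
    intro k
    induction k with
    | zero =>
      intro σ hσ _
      have h1 : σ = 1 := by
        rw [← Equiv.Perm.card_support_eq_zero]
        omega
      subst h1
      refine ⟨fun _ => Subgroup.one_mem _, fun h => ?_⟩
      rw [Equiv.Perm.sign_one] at h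
      exact absurd h (by decide)
    | succ k ih =>
      intro σ hσ hv
      by_cases h1 : σ = 1
      · subst h1
        refine ⟨fun _ => Subgroup.one_mem _, fun h => ?_⟩
        rw [Equiv.Perm.sign_one] at h
        exact absurd h (by decide)
      obtain ⟨i, hi⟩ : ∃ i, σ i ≠ i := by
        by_contra hc
        push Not at hc
        exact h1 (Equiv.ext hc)
      have hcard := Equiv.Perm.card_support_swap_mul hi
      have hvi : v i = v (σ i) := (hv i).symm
      obtain ⟨ih1, ih2⟩ := ih (Equiv.swap i (σ i) * σ) (by omega) (by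
        intro j
        rw [Equiv.Perm.mul_apply, swap_pres hvi, hv j])
      have hsign : Equiv.Perm.sign (Equiv.swap i (σ i) * σ) = - Equiv.Perm.sign σ := by
        rw [Equiv.Perm.sign_mul, Equiv.Perm.sign_swap (Ne.symm hi), neg_one_mul]
      have hss : Equiv.swap i (σ i) * (Equiv.swap i (σ i) * σ) = σ := by
        rw [← mul_assoc, Equiv.swap_mul_self, one_mul]
      constructor
      · intro h
        have h2 := ih2 (by rw [hsign, h]) i (σ i) (Ne.symm hi) hvi
        rwa [hss] at h2
      · intro h a b hab hvab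
        have h2 := ih1 (by rw [hsign, h, neg_neg])
        have h3 := Subgroup.mul_mem _ (hpair a b i (σ i) hab (Ne.symm hi) hvab hvi) h2
        rwa [mul_assoc, hss] at h3
  have hv : ∀ i, v ((g : Equiv.Perm (Fin (n + 1))) i) = v i := by
    intro i
    have h1 := congrFun hg ((g : Equiv.Perm (Fin (n + 1))) i)
    rw [altRep_apply, ← Equiv.Perm.mul_apply, inv_mul_cancel, Equiv.Perm.one_apply] at h1
    exact h1.symm
  obtain ⟨h, hh, hgh⟩ := (key _ (g : Equiv.Perm (Fin (n + 1))) le_rfl hv).1
    (Equiv.Perm.mem_alternatingGroup.1 g.2)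
  have h1 : h = g := Subtype.ext hgh
  rw [← h1]
  exact hh

/-- the product of the differences of the variables -/
noncomputable def vdm (n : ℕ) : MvPolynomial (Fin (n + 1)) ℂ :=
  ∏ i : Fin (n + 1), ∏ j ∈ Finset.Ioi i, (X j - X i)

theorem eval_vdm (x : Fin (n + 1) → ℂ) : eval x (vdm n) = (Matrix.vandermonde x).det := by
  rw [Matrix.det_vandermonde]
  unfold vdm
  simp only [map_prod, map_sub, eval_X]

theorem rename_vdm (σ : Equiv.Perm (Fin (n + 1))) :
    rename σ (vdm n) = C (((Equiv.Perm.sign σ : ℤˣ) : ℤ) : ℂ) * vdm n := by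
  apply MvPolynomial.funext
  intro x
  rw [eval_rename, eval_vdm, map_mul, eval_C, eval_vdm, ← Matrix.det_permute]
  rfl

theorem vdm_ne : vdm n ≠ 0 := by
  unfold vdm
  refine Finset.prod_ne_zero_iff.2 fun i _ => Finset.prod_ne_zero_iff.2 fun j hj => ?_
  rw [sub_ne_zero]
  intro h
  exact (Finset.mem_Ioi.1 hj).ne' (X_injective h)

theorem L_proj (i j : Fin (n + 1)) :
    L ((LinearMap.proj j : (Fin (n + 1) → ℂ) →ₗ[ℂ] ℂ) - LinearMap.proj i) = X j - X i := by
  apply MvPolynomial.funext
  intro x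
  rw [eval_L, map_sub, eval_X, eval_X]
  rfl

theorem proj_ne {i j : Fin (n + 1)} (hij : i < j) :
    (LinearMap.proj j : (Fin (n + 1) → ℂ) →ₗ[ℂ] ℂ) - LinearMap.proj i ≠ 0 := by
  intro h
  have h1 := LinearMap.congr_fun h (Pi.single j 1)
  rw [LinearMap.sub_apply, LinearMap.proj_apply, LinearMap.proj_apply, Pi.single_eq_same,
    Pi.single_eq_of_ne hij.ne, sub_zero, LinearMap.zero_apply] at h1
  exact one_ne_zero h1

/-- an alternating polynomial is divisible by the product of the differences -/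
theorem vdm_dvd (hn : 1 ≤ n) {p : MvPolynomial (Fin (n + 1)) ℂ}
    (h : ∀ i j, i ≠ j → rename (Equiv.swap i j) p = -p) : vdm n ∣ p := by
  unfold vdm
  rw [Finset.prod_sigma']
  refine Finset.prod_dvd_of_isRelPrime ?_ ?_
  · rintro ⟨i, j⟩ hij ⟨k, l⟩ hkl hne
    have hij' : i < j := by
      have := (Finset.mem_sigma.1 (Finset.mem_coe.1 hij)).2
      exact Finset.mem_Ioi.1 this
    have hkl' : k < l := by
      have := (Finset.mem_sigma.1 (Finset.mem_coe.1 hkl)).2
      exact Finset.mem_Ioi.1 this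
    show IsRelPrime (X j - X i : MvPolynomial (Fin (n + 1)) ℂ) (X l - X k)
    rw [← L_proj, ← L_proj]
    refine (prime_L (proj_ne hij')).irreducible.isRelPrime_iff_not_dvd.2 ?_
    rintro ⟨q, hq⟩
    -- a point on one hyperplane only
    have hx : ∀ x : Fin (n + 1) → ℂ, x i = x j → x k = x l := by
      intro x hx
      have h1 := congrArg (eval x) hq
      rw [map_mul, eval_L, eval_L, LinearMap.sub_apply, LinearMap.sub_apply, LinearMap.proj_apply,
        LinearMap.proj_apply, LinearMap.proj_apply, LinearMap.proj_apply, hx, sub_self,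
        zero_mul, sub_eq_zero] at h1
      exact h1.symm
    have h1 := hx (fun s => if s = i ∨ s = j then 1 else 0) (by simp)
    have h2 := hx (fun s => if s = k then 1 else 0)
    by_cases hk : k = i ∨ k = j
    · have hl : l = i ∨ l = j := by
        by_contra hl
        simp only [hk, hl, if_true, if_false] at h1
        exact one_ne_zero h1
      apply hne
      rcases hk with rfl | rfl
      · rcases hl with rfl | rfl
        · exact absurd hkl' (lt_irrefl _)
        · rfl
      · rcases hl with rfl | rfl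
        · exact absurd (hkl'.trans hij') (lt_irrefl _)
        · exact absurd hkl' (lt_irrefl _)
    · rw [not_or] at hk
      have h3 := h2 (by simp [Ne.symm hk.1, Ne.symm hk.2])
      simp [hkl'.ne'] at h3
  · rintro ⟨i, j⟩ hij
    have hij' : i < j := by
      have := (Finset.mem_sigma.1 hij).2
      exact Finset.mem_Ioi.1 this
    show (X j - X i : MvPolynomial (Fin (n + 1)) ℂ) ∣ p
    rw [← L_proj]
    refine L_dvd hn (proj_ne hij') fun x _ hx => ?_
    have h1 : x j = x i := sub_eq_zero.1 hx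
    have h2 := congrArg (eval x) (h i j hij'.ne)
    rw [eval_rename, map_neg] at h2
    have h3 : x ∘ (Equiv.swap i j) = x := by
      funext s
      exact swap_pres h1.symm s
    rw [h3] at h2
    linear_combination (1 / 2 : ℂ) * h2

theorem exists_sym {P : MvPolynomial (Fin (n + 1)) ℂ} (hP : P.IsSymmetric) :
    ∃ Q : MvPolynomial (Fin (n + 1)) ℂ,
      P = aeval (fun i : Fin (n + 1) => esymm (Fin (n + 1)) ℂ (i + 1)) Q := by
  obtain ⟨Q, hQ⟩ := esymmAlgHom_surjective (σ := Fin (n + 1)) ℂ (n := n + 1)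
    (by rw [Fintype.card_fin]) ⟨P, hP⟩
  refine ⟨Q, ?_⟩
  have h5 := congrArg Subtype.val hQ
  rw [esymmAlgHom_apply] at h5
  exact h5.symm

theorem sym_of_swap {P : MvPolynomial (Fin (n + 1)) ℂ}
    (h : ∀ i j, i ≠ j → rename (Equiv.swap i j) P = P) : P.IsSymmetric := by
  intro σ
  have hσ : σ ∈ Submonoid.closure
      (Set.range fun i : Fin n => Equiv.swap i.castSucc i.succ) := by
    rw [Equiv.Perm.mclosure_swap_castSucc_succ]
    trivial
  induction hσ using Submonoid.closure_induction with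
  | mem s hs =>
    obtain ⟨i, rfl⟩ := hs
    exact h _ _ (Fin.castSucc_lt_succ).ne
  | one => exact rename_id_apply P
  | mul σ τ _ _ ihσ ihτ =>
    have h3 : rename (σ * τ) P = rename σ (rename τ P) := by
      rw [rename_rename]
      rfl
    rw [h3, ihτ, ihσ]

/-- the invariants of the alternating group -/
theorem exists_alt (hn : 1 ≤ n) {f : MvPolynomial (Fin (n + 1)) ℂ}
    (hf : ∀ σ : Equiv.Perm (Fin (n + 1)), Equiv.Perm.sign σ = 1 → rename σ f = f) :
    ∃ P Q : MvPolynomial (Fin (n + 1)) ℂ,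
      f = aeval (fun i : Fin (n + 1) => esymm (Fin (n + 1)) ℂ (i + 1)) P +
        aeval (fun i : Fin (n + 1) => esymm (Fin (n + 1)) ℂ (i + 1)) Q * vdm n := by
  have hmul : ∀ (σ τ : Equiv.Perm (Fin (n + 1))) (p : MvPolynomial (Fin (n + 1)) ℂ),
      rename (σ * τ) p = rename σ (rename τ p) := by
    intro σ τ p
    rw [rename_rename]
    rfl
  set τ : Equiv.Perm (Fin (n + 1)) := Equiv.swap 0 (Fin.last n) with hτ
  have h0 : (0 : Fin (n + 1)) ≠ Fin.last n := by
    intro h
    have := congrArg Fin.val h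
    simp at this
    omega
  have hττ : rename τ (rename τ f) = f := by
    rw [← hmul, hτ, Equiv.swap_mul_self]
    exact rename_id_apply f
  have hs : ∀ i j, i ≠ j → rename (Equiv.swap i j) f = rename τ f := by
    intro i j hij
    have h1 := hf (τ * Equiv.swap i j) (by
      rw [Equiv.Perm.sign_mul, Equiv.Perm.sign_swap hij, hτ, Equiv.Perm.sign_swap h0]
      rfl)
    rw [hmul] at h1
    have h2 := congrArg (rename τ) h1
    rw [← hmul, hτ, Equiv.swap_mul_self] at h2
    rw [← hτ] at h2
    have h3 : rename (1 : Equiv.Perm (Fin (n + 1))) (rename (Equiv.swap i j) f) =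
      rename (Equiv.swap i j) f := rename_id_apply _
    rw [h3] at h2
    exact h2
  have hs' : ∀ i j, i ≠ j → rename (Equiv.swap i j) (rename τ f) = f := by
    intro i j hij
    rw [← hs i j hij, ← hmul, Equiv.swap_mul_self]
    exact rename_id_apply f
  obtain ⟨P, hP⟩ := exists_sym (P := C (1 / 2) * (f + rename τ f)) (sym_of_swap (by
    intro i j hij
    rw [map_mul, rename_C, map_add, hs i j hij, hs' i j hij, add_comm (rename τ f)]))
  have hN : ∀ i j, i ≠ j → rename (Equiv.swap i j) (C (1 / 2) * (f - rename τ f)) =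
      -(C (1 / 2) * (f - rename τ f)) := by
    intro i j hij
    rw [map_mul, rename_C, map_sub, hs i j hij, hs' i j hij]
    ring
  obtain ⟨q, hq⟩ := vdm_dvd hn hN
  obtain ⟨Q, hQ⟩ := exists_sym (P := q) (sym_of_swap (by
    intro i j hij
    have h1 := hN i j hij
    rw [hq, map_mul, rename_vdm, Equiv.Perm.sign_swap hij] at h1
    have h2 : vdm n * (rename (Equiv.swap i j) q - q) = 0 := by
      have h3 : (C ((((-1 : ℤˣ) : ℤˣ) : ℤ) : ℂ) : MvPolynomial (Fin (n + 1)) ℂ) = -1 := by
        rw [Units.val_neg, Units.val_one, Int.cast_neg, Int.cast_one, C_neg, C_1]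
      rw [h3] at h1
      linear_combination -h1
    exact sub_eq_zero.1 ((mul_eq_zero.1 h2).resolve_left vdm_ne)))
  refine ⟨P, Q, ?_⟩
  rw [← hP, ← hQ, mul_comm q, ← hq, ← mul_add]
  have h3 : f + rename τ f + (f - rename τ f) = C 2 * f := by
    rw [show (2 : ℂ) = 1 + 1 by norm_num, C_add, C_1]
    ring
  rw [h3, ← mul_assoc, ← C_mul]
  norm_num

/-- simple bundles which are invariant under the alternating group -/
theorem alt_simple (hn : 4 ≤ n) {E : Bundle2 n} (hE : ¬ E.Splits) (hsimp : Simp E)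
    (hL : ∀ σ : Equiv.Perm (Fin (n + 1)), σ.IsThreeCycle →
      Nonempty (GOp E (σ.permMatrix ℂ).mulVecLin)) :
    ∃ (F : Bundle2 n) (Ψ : Vec E.a n → Vec F.a n),
      (∀ k i, ∃ P Q : MvPolynomial (Fin (n + 1)) ℂ,
        F.B k i = aeval (fun i : Fin (n + 1) => esymm (Fin (n + 1)) ℂ (i + 1)) P +
          aeval (fun i : Fin (n + 1) => esymm (Fin (n + 1)) ℂ (i + 1)) Q * vdm n) ∧
      (∀ d G, E.IsSection d G → F.IsSection d (Ψ G)) ∧
      (∀ d G G', E.IsSection d G → E.IsSection d G' → Ψ (G + G') = Ψ G + Ψ G') ∧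
      (∀ d (p : MvPolynomial (Fin (n + 1)) ℂ) G, E.IsSection d G → Ψ (p • G) = p • Ψ G) ∧
      (∀ d H, F.IsSection d H → ∃! G, E.IsSection d G ∧ Ψ G = H) := by
  have hperm : ∀ σ : alternatingGroup (Fin (n + 1)), altRep n σ =
      (((σ : Equiv.Perm (Fin (n + 1)))⁻¹).permMatrix ℂ).mulVecLin := by
    intro σ
    apply LinearMap.ext
    intro x
    rw [Matrix.mulVecLin_apply, Matrix.permMatrix_mulVec]
    rfl
  obtain ⟨F, Ψ, hF, hrest⟩ := stab_simple (T := altRep n) (by omega : 3 ≤ n) hE hsimp
    (S := {g : alternatingGroup (Fin (n + 1)) |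
      Equiv.Perm.IsThreeCycle (g : Equiv.Perm (Fin (n + 1)))})
    alternatingGroup.closure_isThreeCycles_eq_top (by
      intro σ hσ
      rw [hperm]
      exact hL _ (Equiv.Perm.IsThreeCycle.inv hσ))
    (p := fun _ => 1) (fun h => by simpa using congrFun h 0) (fun g => rfl)
    (fun v _ g hg => alt_stab hn v g hg)
  refine ⟨F, Ψ, fun k i => exists_alt (by omega) fun σ hσ => ?_, hrest⟩
  have h1 := hF k i ⟨σ⁻¹, by
    rw [Equiv.Perm.mem_alternatingGroup, Equiv.Perm.sign_inv, hσ]⟩
  rw [hperm, lsub_perm] at h1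
  have h2 : (((⟨σ⁻¹, by rw [Equiv.Perm.mem_alternatingGroup, Equiv.Perm.sign_inv, hσ]⟩ :
    alternatingGroup (Fin (n + 1))) : Equiv.Perm (Fin (n + 1)))⁻¹) = σ := inv_inv σ
  rw [h2] at h1
  exact h1

end Pool.Agent.L5helper21.RG
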