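import Pool.Agent.L5helper21.RG.Act

/-!
# The character of a bundle with an action of a reflection group
-/

set_option autoImplicit false
set_option maxHeartbeats 400000

open MvPolynomial H960VB H938TB Pool.Agent.W615 Pool.Agent.W467.FO

namespace Pool.Agent.L5helper21.RG

variable {n : ℕ} {E : Bundle2 n} {Γ : Type*} [Group Γ]
variable {T : Γ →* Module.End ℂ (Fin (n + 1) → ℂ)} (A : Act E T)

/-- the reflections of the group -/
def IsRefl (T : Γ →* Module.End ℂ (Fin (n + 1) → ℂ)) (g : Γ) : Prop :=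
  Module.finrank ℂ (LinearMap.ker (T g - (1 : ℂ) • LinearMap.id)) = n

/-- a point with trivial stabiliser where a polynomial does not vanish -/
theorem exists_point [Fintype Γ] {T : Γ →* Module.End ℂ (Fin (n + 1) → ℂ)}
    (hT : ∀ g, T g = 1 → g = 1) {q : MvPolynomial (Fin (n + 1)) ℂ} (hq : q ≠ 0) :
    ∃ v : Fin (n + 1) → ℂ, (∀ g, T g v = v → g = 1) ∧ eval v q ≠ 0 := by
  classical
  have h : ∀ g : Γ, ∃ f : (Fin (n + 1) → ℂ) →ₗ[ℂ] ℂ, f ≠ 0 ∧
      (g ≠ 1 → ∀ x, T g x = x → f x = 0) := by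
    intro g
    by_cases hg : g = 1
    · refine ⟨LinearMap.proj 0, fun h => ?_, fun h => absurd hg h⟩
      have h1 := LinearMap.congr_fun h (fun _ => (1 : ℂ))
      exact one_ne_zero h1
    · obtain ⟨s, hs⟩ : ∃ s : Fin (n + 1),
          (LinearMap.proj s : (Fin (n + 1) → ℂ) →ₗ[ℂ] ℂ) ∘ₗ (T g - 1) ≠ 0 := by
        by_contra hc
        push Not at hc
        apply hg
        apply hT
        rw [← sub_eq_zero]
        apply LinearMap.ext
        intro x
        funext s
        exact LinearMap.congr_fun (hc s) x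
      refine ⟨_, hs, fun _ x hx => ?_⟩
      rw [LinearMap.comp_apply, LinearMap.sub_apply, hx, Module.End.one_apply, sub_self, map_zero]
  choose f hf hf' using h
  have h0 : (∏ g, L (f g)) * q ≠ 0 :=
    mul_ne_zero (Finset.prod_ne_zero_iff.2 fun g _ => L_ne (hf g)) hq
  obtain ⟨v, hv⟩ : ∃ v, eval v ((∏ g, L (f g)) * q) ≠ 0 := by
    by_contra hc
    push Not at hc
    exact h0 (MvPolynomial.funext fun v => by rw [hc v, map_zero])
  rw [map_mul, map_prod] at hv
  refine ⟨v, fun s hs => ?_, fun h => hv (by rw [h, mul_zero])⟩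
  by_contra hs1
  apply hv
  rw [Finset.prod_eq_zero (Finset.mem_univ s), zero_mul]
  rw [eval_L]
  exact hf' s hs1 v hs

/-- there is a nonzero invariant section -/
theorem Act.exists_inv [Fintype Γ] (hT : ∀ g, T g = 1 → g = 1) (W : Wedge (triv E)) :
    ∃ (d : ℤ) (s : Vec E.a n), A.Semi (1 : Γ →* ℂ) d s ∧ s ≠ 0 := by
  classical
  obtain ⟨a, b, G, G', hG, hG', hne⟩ := exists_sec_ne W (fun _ => 1)
    (fun h => by simpa using congrFun h 0)
  have hG0 : ∃ i, G i ≠ 0 := by
    by_contra hc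
    push Not at hc
    apply hne
    rw [wd_zero_left W hG.ker hG'.ker hc, map_zero]
  obtain ⟨i, hi⟩ := hG0
  obtain ⟨v, hv, hvi⟩ := exists_point hT hi
  obtain ⟨N, e, R, hR, hsum⟩ := A.exists_avg (1 : Γ →* ℂ) hG v
  have h1 : Finset.univ.filter (fun g : Γ => T g v = v) = {1} := by
    ext g
    simp only [Finset.mem_filter, Finset.mem_univ, true_and, Finset.mem_singleton]
    constructor
    · exact fun h => hv g h
    · rintro rfl
      rw [map_one]
      rfl
  rw [h1, Finset.sum_singleton, A.D_one hG, MonoidHom.one_apply, inv_one, one_smul] at hsum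
  by_contra hc
  push Not at hc
  apply hvi
  have h2 : ∑ k ∈ Finset.range N, evv (R k) v = 0 := Finset.sum_eq_zero fun k _ => by
    rw [hc (e k) (R k) (hR k), evv_zero]
  rw [h2] at hsum
  exact (congrFun hsum i).symm

theorem const_of_homZ {p : MvPolynomial (Fin (n + 1)) ℂ} (h : HomZ p 0) : ∃ c : ℂ, p = C c := by
  rcases h with rfl | ⟨k, hk, hp⟩
  · exact ⟨0, by rw [C_0]⟩
  · have hk0 : k = 0 := by exact_mod_cast hk
    rw [hk0] at hp
    refine ⟨coeff 0 p, ?_⟩
    rw [← totalDegree_eq_zero_iff_eq_C]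
    exact Nat.le_zero.1 hp.totalDegree_le

/-- the primitive part of a semi-invariant section is semi-invariant -/
theorem Act.prim_semi (W : Wedge (triv E)) {χ : Γ → ℂ} {d : ℤ} {G : Vec E.a n}
    (hG : A.Semi χ d G) (h0 : G ≠ 0) :
    ∃ (d' : ℤ) (s : Vec E.a n) (χ' : Γ →* ℂ), Prm s ∧ A.Semi χ' d' s := by
  obtain ⟨δ, f, s, hf, hfδ, hs, hp, hGs⟩ := exists_prm hG.1 (Function.ne_iff.1 h0)
  have hs' := sec_of_isSection (isSection hs)
  have hfZ : HomZ f δ.1 := homZ_of hfδ
  have hGs' : G = fun i => f * s i := funext hGs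
  have key : ∀ g, ∃ c : ℂ, A.D g s = c • s := by
    intro g
    have hfg : lsub (T g) f ≠ 0 := by
      intro h
      exact hf (lsub_inj_of_surj (surj_of_inj (T_inj T g)) (by rw [h, map_zero]))
    have h1 : W.wd s (A.D g s) = 0 := by
      apply (mul_eq_zero.1 ?_).resolve_left hfg
      rw [← wd_mul_right W (A.sec hs').ker hs'.ker]
      have h2 : (fun i => lsub (T g) f * A.D g s i) = fun i => (C (χ g) * f) * s i := by
        have h3 : A.D g G = fun i => lsub (T g) f * A.D g s i := by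
          rw [hGs']
          exact (A.O g).mul _ _ f s hs' hfZ
        rw [← h3, hG.2 g, hGs']
        funext i
        show (χ g • fun i => f * s i) i = _
        rw [Pi.smul_apply, smul_eq_C_mul]
        ring
      rw [h2, wd_mul_right W hs'.ker hs'.ker, wd_self W hs'.ker, mul_zero]
    obtain ⟨h, hh⟩ := hp.dvd_wd W hs'.ker (A.sec hs').ker h1
    obtain ⟨i, hi⟩ := hp.ne
    have h4 := (A.sec (g := g) hs').homZ i
    rw [hh i, mul_comm] at h4
    have h5 := DS.homZ_of_mul (hs'.homZ i) hi h4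
    rw [sub_self] at h5
    obtain ⟨c, rfl⟩ := const_of_homZ h5
    refine ⟨c, funext fun i => ?_⟩
    rw [hh i, Pi.smul_apply, smul_eq_C_mul]
  choose c hc using key
  obtain ⟨i, hi⟩ := hp.ne
  have hinj : ∀ a b : ℂ, a • s = b • s → a = b := by
    intro a b h
    have h1 := congrFun h i
    rw [Pi.smul_apply, Pi.smul_apply, smul_eq_C_mul, smul_eq_C_mul] at h1
    exact C_injective _ _ (mul_right_cancel₀ hi h1)
  have hsmul : ∀ (g : Γ) (a : ℂ), A.D g (a • s) = a • A.D g s := by
    intro g a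
    have h1 := congrArg Subtype.val (map_smul (A.lin g _) a (⟨s, hs'⟩ : S0 E _))
    exact h1
  refine ⟨_, s, ⟨⟨c, ?_⟩, ?_⟩, hp, hs', hc⟩
  · apply hinj
    rw [← hc 1, A.D_one hs', one_smul]
  · intro g h
    apply hinj
    show c (g * h) • s = (c g * c h) • s
    rw [← hc, A.D_mul g h hs', hc g, hsmul, hc h, smul_smul]

/-- the character of the bundle -/
theorem Act.exists_chi [Fintype Γ] (hn : 3 ≤ n) (hE : ¬ E.Splits) (W : Wedge (triv E))
    (hT : ∀ g, T g = 1 → g = 1) :
    ∃ χ : Γ →* ℂ, ∀ g, IsRefl T g → (∀ (d : ℤ) (s : Vec E.a n), Sec E d s → ∀ x, T g x = x →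
      evv (A.D g s) x = χ g • evv s x) ∧
      ∀ (a b : ℤ) (s t : Vec E.a n), Sec E a s → Sec E b t →
        W.wd (A.D g s) (A.D g t) = C (χ g * χ g) * lsub (T g) (W.wd s t) := by
  obtain ⟨d, G, hG, hG0⟩ := A.exists_inv hT W
  obtain ⟨d', s, χ, hp, hs⟩ := A.prim_semi W hG hG0
  refine ⟨χ, fun g hg => ?_⟩
  obtain ⟨κ, hκ0, hκ⟩ := (A.O g).det W (by omega) (T_inj T g)
  obtain ⟨u, hu, hu'⟩ := scal hE W (A.O g) (by rw [show Module.finrank ℂ _ = n from hg]; exact hn)
    hκ0 hκ (N := Nat.card Γ) Nat.card_pos.ne' (fun d => A.lin_card g d)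
  obtain ⟨f, hf, hf'⟩ := exists_functional hg
  have key : u = χ g := by
    obtain ⟨x, hx, hxs⟩ : ∃ x, f x = 0 ∧ evv s x ≠ 0 := by
      by_contra hc
      push Not at hc
      apply (prime_L hf).not_isUnit
      apply hp
      intro i
      apply L_dvd (by omega) hf
      intro x _ hx
      exact congrFun (hc x hx) i
    have h1 := hu' d' s hs.1 x ((hf' x).2 hx)
    have h2 : evv (A.D g s) x = χ g • evv s x := by
      rw [hs.2 g, evv_smul]
    have h3 : (u - χ g) • evv s x = 0 := by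
      rw [sub_smul, ← h2, ← h1]
      exact sub_self _
    exact sub_eq_zero.1 ((smul_eq_zero.1 h3).resolve_right hxs)
  refine ⟨fun d t ht x hx => ?_, fun a b t t' ht ht' => ?_⟩
  · rw [← key]
    exact hu' d t ht x hx
  · rw [← key, hu]
    exact hκ a b t t' ht ht'

end Pool.Agent.L5helper21.RG
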