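import Pool.Agent.L5helper21.RG.Chi

/-!
# The semi-invariant sections generate the bundle
-/

set_option autoImplicit false
set_option maxHeartbeats 400000

open MvPolynomial H960VB H938TB Pool.Agent.W615 Pool.Agent.W467.FO

namespace Pool.Agent.L5helper21.RG

variable {n : ℕ} {E : Bundle2 n} {Γ : Type*} [Group Γ]
variable {T : Γ →* Module.End ℂ (Fin (n + 1) → ℂ)} (A : Act E T)

/-- division of a section by a linear form -/
theorem sec_div {f : (Fin (n + 1) → ℂ) →ₗ[ℂ] ℂ} (hf : f ≠ 0) {d : ℤ} {G : Vec E.a n}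
    (hG : Sec E d G) (h : ∀ j, L f ∣ G j) :
    ∃ H : Vec E.a n, Sec E (d - 1) H ∧ G = fun j => L f * H j := by
  choose H hH using h
  refine ⟨H, ?_, funext hH⟩
  rw [sec_iff]
  have h1 : Ker E H := by
    intro k
    apply mul_left_cancel₀ (L_ne hf)
    rw [mul_zero, Finset.mul_sum, ← hG.ker k]
    refine Finset.sum_congr rfl fun j _ => ?_
    rw [hH j]
    ring
  refine ⟨fun j => ?_, fun x hx => T3aux.ker_mem h1 x⟩
  have h2 := hG.homZ j
  rw [hH j] at h2
  have h3 := DS.homZ_of_mul (homZ_L f) (L_ne hf) h2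
  convert h3 using 1
  ring

/-- the module generated by the semi-invariant sections -/
noncomputable def Act.P (χ : Γ → ℂ) : Submodule (MvPolynomial (Fin (n + 1)) ℂ) (Vec E.a n) :=
  Submodule.span _ {R | ∃ e, A.Semi χ e R}

theorem Act.P_smul (χ : Γ → ℂ) {G : Vec E.a n} (h : G ∈ A.P χ) (c : ℂ) : c • G ∈ A.P χ := by
  have h1 := (A.P χ).smul_mem (C c) h
  have h2 : (C c : MvPolynomial (Fin (n + 1)) ℂ) • G = c • G := by
    funext i
    rw [Pi.smul_apply, Pi.smul_apply, smul_eq_C_mul, smul_eq_mul]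
  rwa [h2] at h1

/-- Chevalley's argument: every section is a combination of semi-invariant ones -/
theorem Act.mem_P [Fintype Γ] (hn : 1 ≤ n) (χ : Γ →* ℂ) {S : Set Γ} (hS : Subgroup.closure S = ⊤)
    (hT : ∀ s ∈ S, ∃ f : (Fin (n + 1) → ℂ) →ₗ[ℂ] ℂ, f ≠ 0 ∧ ∀ x, f x = 0 → T s x = x)
    (hχ : ∀ s ∈ S, ∀ (d : ℤ) (G : Vec E.a n), Sec E d G → ∀ x, T s x = x →
      evv (A.D s G) x = χ s • evv G x) :
    ∀ (d : ℤ) (G : Vec E.a n), Sec E d G → G ∈ A.P χ := by
  classical
  obtain ⟨B, hB⟩ := DS.exists_low E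
  have key : ∀ (N : ℕ) (d : ℤ) (G : Vec E.a n), Sec E d G → d + B < N → G ∈ A.P χ := by
    intro N
    induction N with
    | zero =>
      intro d G hG hN
      by_cases h0 : G = 0
      · rw [h0]
        exact Submodule.zero_mem _
      · have := hB d G hG h0
        push_cast at hN
        omega
    | succ N ih =>
      intro d G hG hN
      -- the operators are scalars modulo `P`
      have h1 : ∀ g ∈ Subgroup.closure S, ∀ G : Vec E.a n, Sec E d G →
          A.D g G - χ g • G ∈ A.P χ := by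
        intro g hg
        induction hg using Subgroup.closure_induction with
        | mem s hs =>
          intro G hG
          obtain ⟨f, hf, hf'⟩ := hT s hs
          have hsec : Sec E d (A.D s G - χ s • G) :=
            (A.lin s d ⟨G, hG⟩ - χ s • (⟨G, hG⟩ : S0 E d)).2
          have hdvd : ∀ j, L f ∣ (A.D s G - χ s • G) j := by
            intro j
            apply L_dvd hn hf
            intro x _ hx
            have h2 := congrFun (hχ s hs d G hG x (hf' x hx)) j
            have h3 : eval x ((A.D s G - χ s • G) j) = evv (A.D s G) x j - (χ s • evv G x) j := by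
              rw [Pi.sub_apply, map_sub, Pi.smul_apply, Pi.smul_apply, smul_eval]
              rfl
            rw [h3, h2, sub_self]
          obtain ⟨H, hH, hGH⟩ := sec_div hf hsec hdvd
          rw [hGH]
          exact (A.P χ).smul_mem (L f) (ih (d - 1) H hH (by push_cast at hN ⊢; omega))
        | one =>
          intro G hG
          rw [A.D_one hG, map_one, one_smul, sub_self]
          exact Submodule.zero_mem _
        | mul g h _ _ ihg ihh =>
          intro G hG
          have h2 := ihh _ (A.sec (g := g) hG)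
          have h3 := A.P_smul χ (ihg G hG) (χ h)
          have h4 := Submodule.add_mem _ h2 h3
          have h5 : A.D (g * h) G - χ (g * h) • G =
              (A.D h (A.D g G) - χ h • A.D g G) + χ h • (A.D g G - χ g • G) := by
            rw [A.D_mul g h hG, map_mul, smul_sub, smul_smul, mul_comm (χ h)]
            abel
          rw [h5]
          exact h4
        | inv g _ ihg =>
          intro G hG
          have h2 := A.P_smul χ (ihg _ (A.sec (g := g⁻¹) hG)) (-(χ g)⁻¹)
          rw [← A.D_mul g⁻¹ g hG, inv_mul_cancel, A.D_one hG, smul_sub, smul_smul, neg_mul,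
            inv_mul_cancel₀ (chi_ne χ g), neg_smul, neg_smul, one_smul, ← chi_inv] at h2
          have h3 : A.D g⁻¹ G - χ g⁻¹ • G = -(χ g⁻¹ • G) - -(A.D g⁻¹ G) := by abel
          rw [h3]
          exact h2
      have h2 : ∀ g, (χ g)⁻¹ • A.D g G - G ∈ A.P χ := by
        intro g
        have h3 := A.P_smul χ (h1 g (by rw [hS]; trivial) G hG) (χ g)⁻¹
        rwa [smul_sub, smul_smul, inv_mul_cancel₀ (chi_ne χ g), one_smul] at h3
      have h3 : ((A.avg χ d ⟨G, hG⟩ : S0 E d) : Vec E.a n) = ∑ g, (χ g)⁻¹ • A.D g G := by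
        unfold Act.avg
        rw [LinearMap.sum_apply, AddSubmonoidClass.coe_finsetSum]
        rfl
      have h4 : ((A.avg χ d ⟨G, hG⟩ : S0 E d) : Vec E.a n) ∈ A.P χ :=
        Submodule.subset_span ⟨d, A.avg_semi χ d _⟩
      have h5 : ∑ g : Γ, ((χ g)⁻¹ • A.D g G - G) ∈ A.P χ := Submodule.sum_mem _ fun g _ => h2 g
      rw [Finset.sum_sub_distrib, ← h3, Finset.sum_const] at h5
      have h6 := Submodule.sub_mem _ h4 h5
      rw [sub_sub_cancel, Finset.card_univ, ← Nat.cast_smul_eq_nsmul ℂ] at h6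
      have h7 := A.P_smul χ h6 ((Fintype.card Γ : ℂ))⁻¹
      rwa [smul_smul, inv_mul_cancel₀ (Nat.cast_ne_zero.2 Fintype.card_ne_zero), one_smul] at h7
  intro d G hG
  exact key (d + B + 1).toNat d G hG (by omega)

theorem Act.P_ker {χ : Γ → ℂ} {G : Vec E.a n} (h : G ∈ A.P χ) : Ker E G := by
  induction h using Submodule.span_induction with
  | mem G hG =>
    obtain ⟨e, he⟩ := hG
    exact he.1.ker
  | zero => exact ker_zero
  | add G H _ _ hG hH => exact ker_add hG hH
  | smul p G _ hG => exact ker_mul hG p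

/-- at each point two semi-invariant sections are independent -/
theorem Act.exists_pair (W : Wedge (triv E)) {χ : Γ → ℂ}
    (hP : ∀ (d : ℤ) (G : Vec E.a n), Sec E d G → G ∈ A.P χ) {v : Fin (n + 1) → ℂ} (hv : v ≠ 0) :
    ∃ (d e : ℤ) (R R' : Vec E.a n), A.Semi χ d R ∧ A.Semi χ e R' ∧ eval v (W.wd R R') ≠ 0 := by
  obtain ⟨a, b, G, G', hG, hG', hne⟩ := exists_sec_ne W v hv
  by_contra hc
  push Not at hc
  apply hne
  have h1 : ∀ {e : ℤ} {R' : Vec E.a n}, A.Semi χ e R' → ∀ {G : Vec E.a n}, G ∈ A.P χ →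
      eval v (W.wd G R') = 0 := by
    intro e R' hR' G hG
    induction hG using Submodule.span_induction with
    | mem G hG =>
      obtain ⟨e', he'⟩ := hG
      exact hc _ _ _ _ he' hR'
    | zero =>
      rw [show W.wd (0 : Vec E.a n) R' = 0 from wd_zero_left W ker_zero hR'.1.ker fun _ => rfl,
        map_zero]
    | add G H hG' hH' hG hH =>
      have h2 := wd_add_left W (A.P_ker hG') (A.P_ker hH') hR'.1.ker
      have h3 : W.wd (G + H) R' = W.wd G R' + W.wd H R' := h2
      rw [h3, map_add, hG, hH, add_zero]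
    | smul p G hG' hG =>
      have h2 : W.wd (p • G) R' = p * W.wd G R' := W.smul p G R' (A.P_ker hG') hR'.1.ker
      rw [h2, map_mul, hG, mul_zero]
  have h2 : ∀ {G' : Vec E.a n}, G' ∈ A.P χ → ∀ {G : Vec E.a n}, G ∈ A.P χ →
      eval v (W.wd G' G) = 0 := by
    intro G' hG' G hG
    induction hG' using Submodule.span_induction with
    | mem R hR =>
      obtain ⟨e', he'⟩ := hR
      rw [W.anti _ _ he'.1.ker (A.P_ker hG), map_neg, h1 he' hG, neg_zero]
    | zero =>
      rw [show W.wd (0 : Vec E.a n) G = 0 from wd_zero_left W ker_zero (A.P_ker hG) fun _ => rfl,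
        map_zero]
    | add K H hK' hH' hK hH =>
      have h2 := wd_add_left W (A.P_ker hK') (A.P_ker hH') (A.P_ker hG)
      have h3 : W.wd (K + H) G = W.wd K G + W.wd H G := h2
      rw [h3, map_add, hK, hH, add_zero]
    | smul p K hK' hK =>
      have h2 : W.wd (p • K) G = p * W.wd K G := W.smul p K G (A.P_ker hK') (A.P_ker hG)
      rw [h2, map_mul, hK, mul_zero]
  exact h2 (hP a G hG) (hP b G' hG')

/-- the wedge product of two semi-invariant sections is invariant -/
theorem Act.wd_inv (W : Wedge (triv E)) {χ : Γ →* ℂ} {S : Set Γ}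
    (hχ : ∀ g ∈ S, ∀ (a b : ℤ) (s t : Vec E.a n), Sec E a s → Sec E b t →
        W.wd (A.D g s) (A.D g t) = C (χ g * χ g) * lsub (T g) (W.wd s t))
    {d e : ℤ} {R R' : Vec E.a n} (hR : A.Semi χ d R) (hR' : A.Semi χ e R') {s : Γ} (hs : s ∈ S) :
    lsub (T s) (W.wd R R') = W.wd R R' := by
  have h1 := hχ s hs d e R R' hR.1 hR'.1
  have h2 : A.D s R = fun i => C (χ s) * R i := by
    rw [hR.2 s]
    funext i
    rw [Pi.smul_apply, smul_eq_C_mul]
  have h3 : A.D s R' = fun i => C (χ s) * R' i := by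
    rw [hR'.2 s]
    funext i
    rw [Pi.smul_apply, smul_eq_C_mul]
  rw [h2, h3, W.smul _ _ _ hR.1.ker (ker_mul hR'.1.ker _),
    wd_mul_right W hR'.1.ker hR.1.ker, ← mul_assoc, ← C_mul] at h1
  have h4 : (C (χ s * χ s) : MvPolynomial (Fin (n + 1)) ℂ) ≠ 0 := by
    rw [Ne, C_eq_zero]
    exact mul_ne_zero (chi_ne χ s) (chi_ne χ s)
  exact (mul_left_cancel₀ h4 h1).symm

/-- a finite family of semi-invariant sections which generates the bundle -/
theorem Act.exists_family (W : Wedge (triv E)) {χ : Γ → ℂ}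
    (hP : ∀ (d : ℤ) (G : Vec E.a n), Sec E d G → G ∈ A.P χ) :
    ∃ (N : ℕ) (δ : Fin N → ℤ) (g : Fin N → Vec E.a n), (∀ j, A.Semi χ (δ j) (g j)) ∧
      ∀ x : Fin (n + 1) → ℂ, x ≠ 0 → ∃ j k, eval x (W.wd (g j) (g k)) ≠ 0 := by
  classical
  set S : Set (MvPolynomial (Fin (n + 1)) ℂ) := {p | ∃ (d e : ℤ) (R R' : Vec E.a n),
    A.Semi χ d R ∧ A.Semi χ e R' ∧ p = W.wd R R'} with hS
  obtain ⟨s, hs1, hs2⟩ := (Submodule.fg_span_iff_fg_span_finset_subset
    (R := MvPolynomial (Fin (n + 1)) ℂ) S).1 (IsNoetherian.noetherian _)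
  have h : ∀ p : s, ∃ (d : Bool → ℤ) (R : Bool → Vec E.a n), (∀ b, A.Semi χ (d b) (R b)) ∧
      (p : MvPolynomial (Fin (n + 1)) ℂ) = W.wd (R false) (R true) := by
    intro p
    obtain ⟨d, e, R, R', hR, hR', hp⟩ := hs1 p.2
    refine ⟨fun b => if b then e else d, fun b => if b then R' else R, fun b => ?_, hp⟩
    cases b
    · exact hR
    · exact hR'
  choose d R hR hp using h
  let ι := s × Bool
  let ε : ι ≃ Fin (Fintype.card ι) := Fintype.equivFin ι
  refine ⟨Fintype.card ι, fun j => d (ε.symm j).1 (ε.symm j).2,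
    fun j => R (ε.symm j).1 (ε.symm j).2, fun j => hR _ _, fun x hx => ?_⟩
  by_contra hc
  push Not at hc
  obtain ⟨a, b, G, G', hG, hG', hne⟩ := A.exists_pair W hP hx
  apply hne
  have h1 : W.wd G G' ∈ Submodule.span (MvPolynomial (Fin (n + 1)) ℂ) S :=
    Submodule.subset_span ⟨a, b, G, G', hG, hG', rfl⟩
  rw [hs2] at h1
  have h2 : Submodule.span (MvPolynomial (Fin (n + 1)) ℂ) (s : Set (MvPolynomial (Fin (n + 1)) ℂ)) ≤
      RingHom.ker (eval x) := by
    rw [Submodule.span_le]
    intro p hp'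
    show eval x p = 0
    have h3 := hc (ε (⟨p, hp'⟩, false)) (ε (⟨p, hp'⟩, true))
    simp only [Equiv.symm_apply_apply] at h3
    rw [← hp ⟨p, hp'⟩] at h3
    exact h3
  exact h2 h1

end Pool.Agent.L5helper21.RG
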