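import Pool.Agent.L5helper21.RG.Odd2

/-!
# The Heisenberg group of prime order extended by the involution
-/

set_option autoImplicit false
set_option maxHeartbeats 400000

open MvPolynomial H960VB H938TB Pool.Agent.W615 Pool.Agent.W467.FO
open Pool.Agent.L5helper21.DS

namespace Pool.Agent.L5helper21.RG

/-- the group of the maps `x ↦ (i ↦ ζ^(c + b i) x (e i + a))`, `e = ±1` -/
@[ext] structure HG (N : ℕ) where
  e : ℤˣ
  a : ZMod N
  b : ZMod N
  c : ZMod N

namespace HG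

variable {N : ℕ}

/-- the sign -/
def sg (g : HG N) : ZMod N := ((g.e : ℤ) : ZMod N)

theorem sg_sq (g : HG N) : g.sg * g.sg = 1 := by
  unfold sg
  rcases Int.units_eq_one_or g.e with h | h <;> rw [h] <;> simp

instance : Mul (HG N) :=
  ⟨fun g h => ⟨h.e * g.e, h.sg * g.a + h.a, g.b + h.b * g.sg, g.c + h.c + h.b * g.a⟩⟩

instance : One (HG N) := ⟨⟨1, 0, 0, 0⟩⟩

instance : Inv (HG N) := ⟨fun g => ⟨g.e, -(g.sg * g.a), -(g.sg * g.b), -g.c + g.sg * g.a * g.b⟩⟩

theorem mul_def (g h : HG N) :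
    g * h = ⟨h.e * g.e, h.sg * g.a + h.a, g.b + h.b * g.sg, g.c + h.c + h.b * g.a⟩ := rfl

theorem one_def : (1 : HG N) = ⟨1, 0, 0, 0⟩ := rfl

theorem inv_def (g : HG N) :
    g⁻¹ = ⟨g.e, -(g.sg * g.a), -(g.sg * g.b), -g.c + g.sg * g.a * g.b⟩ := rfl

theorem sg_mul (g h : HG N) : (g * h).sg = h.sg * g.sg := by
  unfold sg
  rw [mul_def, Units.val_mul, Int.cast_mul]

instance : Group (HG N) := Group.ofLeftAxioms
  (by
    intro g h k
    have h1 := sg_mul g h
    have h2 := sg_mul h k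
    rw [mul_def (g * h) k, mul_def g (h * k), h1, h2]
    apply HG.ext
    · show k.e * (h.e * g.e) = k.e * h.e * g.e
      rw [mul_assoc]
    · show k.sg * (h.sg * g.a + h.a) + k.a = k.sg * h.sg * g.a + (k.sg * h.a + k.a)
      ring
    · show g.b + h.b * g.sg + k.b * (h.sg * g.sg) = g.b + (h.b + k.b * h.sg) * g.sg
      ring
    · show g.c + h.c + h.b * g.a + k.c + k.b * (h.sg * g.a + h.a) =
        g.c + (h.c + k.c + k.b * h.a) + (h.b + k.b * h.sg) * g.a
      ring)
  (by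
    intro g
    apply HG.ext
    · show g.e * 1 = g.e
      rw [mul_one]
    · show g.sg * 0 + g.a = g.a
      ring
    · show 0 + g.b * ((1 : ℤˣ) : ℤ) = g.b
      simp
    · show 0 + g.c + g.b * 0 = g.c
      ring)
  (by
    intro g
    have h1 := sg_sq g
    apply HG.ext
    · show g.e * g.e = 1
      exact Int.units_mul_self g.e
    · show g.sg * (-(g.sg * g.a)) + g.a = 0
      linear_combination (-g.a) * h1
    · show -(g.sg * g.b) + g.b * g.sg = 0
      ring
    · show -g.c + g.sg * g.a * g.b + g.c + g.b * (-(g.sg * g.a)) = 0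
      ring)

/-- the group as a product of sets -/
def equiv : HG N ≃ ℤˣ × ZMod N × ZMod N × ZMod N where
  toFun := fun g => (g.e, g.a, g.b, g.c)
  invFun := fun t => ⟨t.1, t.2.1, t.2.2.1, t.2.2.2⟩
  left_inv := fun _ => rfl
  right_inv := fun _ => rfl

instance [NeZero N] : Finite (HG N) := Finite.of_equiv _ equiv.symm

theorem card : Nat.card (HG N) = 2 * N ^ 3 := by
  rw [Nat.card_congr equiv, Nat.card_prod, Nat.card_prod, Nat.card_prod, Nat.card_zmod,
    Nat.card_eq_fintype_card, Fintype.card_units_int]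
  ring

/-- the involution -/
def P0 : HG N := ⟨-1, 0, 0, 0⟩

/-- the reflections -/
def SS (N : ℕ) : Set (HG N) := {g | g.e = -1 ∧ 2 * g.c + g.a * g.b = 0}

theorem P0_mem : (P0 : HG N) ∈ SS N := ⟨rfl, by show 2 * 0 + 0 * 0 = (0 : ZMod N); ring⟩

theorem sg_neg {g : HG N} (h : g.e = -1) : g.sg = -1 := by
  unfold sg
  rw [h]
  simp

theorem sg_pos {g : HG N} (h : g.e = 1) : g.sg = 1 := by
  unfold sg
  rw [h]
  simp

theorem P0_sq : (P0 : HG N) * P0 = 1 := by
  have h : (P0 : HG N).sg = -1 := sg_neg rfl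
  rw [mul_def, one_def, h]
  apply HG.ext
  · rfl
  · show (-1 : ZMod N) * 0 + 0 = 0
    ring
  · show (0 : ZMod N) + 0 * -1 = 0
    ring
  · show (0 : ZMod N) + 0 + 0 * 0 = 0
    ring

theorem order_P0 : orderOf (P0 : HG N) = 2 := by
  refine orderOf_eq_prime (by rw [pow_two, P0_sq]) ?_
  intro h
  have h1 : (-1 : ℤˣ) = 1 := congrArg HG.e h
  exact absurd h1 (by decide)

theorem index_P0 [NeZero N] : (Subgroup.zpowers (P0 : HG N)).index = N ^ 3 := by
  have h1 := Subgroup.index_mul_card (Subgroup.zpowers (P0 : HG N))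
  rw [Nat.card_zpowers, order_P0, card] at h1
  omega

theorem mul_pos_pos (a b c a' b' c' : ZMod N) : (⟨1, a, b, c⟩ : HG N) * ⟨1, a', b', c'⟩ =
    ⟨1, a + a', b + b', c + c' + b' * a⟩ := by
  rw [mul_def]
  apply HG.ext
  · rfl
  · show (⟨1, a', b', c'⟩ : HG N).sg * a + a' = a + a'
    rw [sg_pos rfl, one_mul]
  · show b + b' * (⟨1, a, b, c⟩ : HG N).sg = b + b'
    rw [sg_pos rfl, mul_one]
  · rfl

theorem mul_neg_neg (a b c a' b' c' : ZMod N) : (⟨-1, a, b, c⟩ : HG N) * ⟨-1, a', b', c'⟩ =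
    ⟨1, -a + a', b - b', c + c' + b' * a⟩ := by
  rw [mul_def]
  apply HG.ext
  · show (-1 : ℤˣ) * -1 = 1
    decide
  · show (⟨-1, a', b', c'⟩ : HG N).sg * a + a' = -a + a'
    rw [sg_neg rfl]
    ring
  · show b + b' * (⟨-1, a, b, c⟩ : HG N).sg = b - b'
    rw [sg_neg rfl]
    ring
  · rfl

theorem mul_pos_P0 (a b c : ZMod N) : (⟨1, a, b, c⟩ : HG N) * P0 = ⟨-1, -a, b, c⟩ := by
  rw [mul_def]
  apply HG.ext
  · show (-1 : ℤˣ) * 1 = -1
    rfl
  · show (P0 : HG N).sg * a + 0 = -a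
    rw [sg_neg rfl]
    ring
  · show b + 0 * (⟨1, a, b, c⟩ : HG N).sg = b
    ring
  · show c + 0 + 0 * a = c
    ring

/-- the group is generated by the reflections -/
theorem closure_SS [Fact N.Prime] (h2 : (2 : ZMod N) ≠ 0) :
    Subgroup.closure (SS N) = ⊤ := by
  rw [eq_top_iff]
  have key1 : ∀ A B C : ZMod N, B ≠ 0 → (⟨1, A, B, C⟩ : HG N) ∈ Subgroup.closure (SS N) := by
    intro A B C hB
    have h1 : (⟨1, A, B, C⟩ : HG N) = ⟨-1, A - 2 * C / B, 0, 0⟩ *
        ⟨-1, A - 2 * C / B + A, -B, (A - 2 * C / B + A) * B / 2⟩ := by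
      rw [mul_neg_neg]
      apply HG.ext
      · rfl
      · show A = -(A - 2 * C / B) + (A - 2 * C / B + A)
        ring
      · show B = 0 - -B
        ring
      · show C = 0 + (A - 2 * C / B + A) * B / 2 + -B * (A - 2 * C / B)
        field_simp
        ring
    rw [h1]
    refine Subgroup.mul_mem _ (Subgroup.subset_closure ⟨rfl, ?_⟩)
      (Subgroup.subset_closure ⟨rfl, ?_⟩)
    · show 2 * 0 + (A - 2 * C / B) * 0 = (0 : ZMod N)
      ring
    · show 2 * ((A - 2 * C / B + A) * B / 2) + (A - 2 * C / B + A) * -B = (0 : ZMod N)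
      field_simp
      ring
  have key2 : ∀ A B C : ZMod N, (⟨1, A, B, C⟩ : HG N) ∈ Subgroup.closure (SS N) := by
    intro A B C
    by_cases hB : B = 0
    · subst hB
      have h1 : (⟨1, A, 0, C⟩ : HG N) = ⟨1, 0, 1, 0⟩ * ⟨1, A, -1, C⟩ := by
        rw [mul_pos_pos]
        apply HG.ext
        · rfl
        · show A = 0 + A
          ring
        · show (0 : ZMod N) = 1 + -1
          ring
        · show C = 0 + C + -1 * 0
          ring
      rw [h1]
      exact Subgroup.mul_mem _ (key1 _ _ _ one_ne_zero) (key1 _ _ _ (neg_ne_zero.2 one_ne_zero))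
    · exact key1 A B C hB
  rintro ⟨e, a, b, c⟩ -
  rcases Int.units_eq_one_or e with h | h
  · subst h
    exact key2 a b c
  · subst h
    have h1 : (⟨-1, a, b, c⟩ : HG N) = ⟨1, -a, b, c⟩ * P0 := by
      rw [mul_pos_P0, neg_neg]
    rw [h1]
    exact Subgroup.mul_mem _ (key2 _ _ _) (Subgroup.subset_closure P0_mem)

/-- the group is generated by the shift, the clock and the involution -/
theorem closure_gen [NeZero N] :
    Subgroup.closure {(⟨1, 1, 0, 0⟩ : HG N), ⟨1, 0, 1, 0⟩, P0} = ⊤ := by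
  rw [eq_top_iff]
  set K := Subgroup.closure {(⟨1, 1, 0, 0⟩ : HG N), ⟨1, 0, 1, 0⟩, P0} with hK
  have hA1 : (⟨1, 1, 0, 0⟩ : HG N) ∈ K := Subgroup.subset_closure (by simp)
  have hB1 : (⟨1, 0, 1, 0⟩ : HG N) ∈ K := Subgroup.subset_closure (by simp)
  have hP0 : (P0 : HG N) ∈ K := Subgroup.subset_closure (by simp)
  have hAk : ∀ k : ℕ, (⟨1, k, 0, 0⟩ : HG N) ∈ K := by
    intro k
    induction k with
    | zero =>
      rw [Nat.cast_zero]
      exact Subgroup.one_mem _
    | succ k ih =>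
      have h1 : (⟨1, ((k + 1 : ℕ) : ZMod N), 0, 0⟩ : HG N) = ⟨1, k, 0, 0⟩ * ⟨1, 1, 0, 0⟩ := by
        rw [mul_pos_pos, Nat.cast_succ]
        apply HG.ext
        · rfl
        · rfl
        · show (0 : ZMod N) = 0 + 0
          ring
        · show (0 : ZMod N) = 0 + 0 + 0 * (k : ZMod N)
          ring
      rw [h1]
      exact Subgroup.mul_mem _ ih hA1
  have hBk : ∀ k : ℕ, (⟨1, 0, k, 0⟩ : HG N) ∈ K := by
    intro k
    induction k with
    | zero =>
      rw [Nat.cast_zero]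
      exact Subgroup.one_mem _
    | succ k ih =>
      have h1 : (⟨1, 0, ((k + 1 : ℕ) : ZMod N), 0⟩ : HG N) = ⟨1, 0, k, 0⟩ * ⟨1, 0, 1, 0⟩ := by
        rw [mul_pos_pos, Nat.cast_succ]
        apply HG.ext
        · rfl
        · show (0 : ZMod N) = 0 + 0
          ring
        · rfl
        · show (0 : ZMod N) = 0 + 0 + 1 * 0
          ring
      rw [h1]
      exact Subgroup.mul_mem _ ih hB1
  have hA : ∀ a : ZMod N, (⟨1, a, 0, 0⟩ : HG N) ∈ K := by
    intro a
    have h1 := hAk a.val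
    rwa [ZMod.natCast_zmod_val] at h1
  have hB : ∀ b : ZMod N, (⟨1, 0, b, 0⟩ : HG N) ∈ K := by
    intro b
    have h1 := hBk b.val
    rwa [ZMod.natCast_zmod_val] at h1
  have hAB : ∀ a b : ZMod N, (⟨1, a, b, 0⟩ : HG N) ∈ K := by
    intro a b
    have h1 := Subgroup.mul_mem _ (hB b) (hA a)
    rw [mul_pos_pos] at h1
    convert h1 using 2 <;> ring
  have hBA : ∀ a b : ZMod N, (⟨1, a, b, b * a⟩ : HG N) ∈ K := by
    intro a b
    have h1 := Subgroup.mul_mem _ (hA a) (hB b)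
    rw [mul_pos_pos] at h1
    convert h1 using 2 <;> ring
  have hC : ∀ c : ZMod N, (⟨1, 0, 0, c⟩ : HG N) ∈ K := by
    intro c
    have h1 := Subgroup.mul_mem _ (Subgroup.inv_mem _ (hAB 1 c)) (hBA 1 c)
    have h2 : (⟨1, 1, c, 0⟩ : HG N)⁻¹ = ⟨1, -1, -c, c⟩ := by
      rw [inv_def, sg_pos rfl]
      apply HG.ext
      · rfl
      · show -((1 : ZMod N) * 1) = -1
        ring
      · show -((1 : ZMod N) * c) = -c
        ring
      · show -(0 : ZMod N) + 1 * 1 * c = c
        ring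
    rw [h2, mul_pos_pos] at h1
    convert h1 using 2 <;> ring
  have hall : ∀ a b c : ZMod N, (⟨1, a, b, c⟩ : HG N) ∈ K := by
    intro a b c
    have h1 := Subgroup.mul_mem _ (hC c) (hAB a b)
    rw [mul_pos_pos] at h1
    convert h1 using 2 <;> ring
  rintro ⟨e, a, b, c⟩ -
  rcases Int.units_eq_one_or e with h | h
  · subst h
    exact hall a b c
  · subst h
    have h1 : (⟨-1, a, b, c⟩ : HG N) = ⟨1, -a, b, c⟩ * P0 := by
      rw [mul_pos_P0, neg_neg]
    rw [h1]
    exact Subgroup.mul_mem _ (hall _ _ _) hP0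

end HG

variable {n : ℕ}

/-- the Schrödinger representation -/
def hrep (ψ : AddChar (ZMod (n + 1)) ℂ) : HG (n + 1) →* Module.End ℂ (Fin (n + 1) → ℂ) where
  toFun := fun g =>
    { toFun := fun (x : ZMod (n + 1) → ℂ) (i : ZMod (n + 1)) =>
        ψ (g.c + g.b * i) * x (g.sg * i + g.a)
      map_add' := by
        intro x y
        funext i
        exact mul_add _ _ _
      map_smul' := by
        intro r x
        funext i
        exact mul_left_comm _ _ _ }
  map_one' := by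
    apply LinearMap.ext
    intro (x : ZMod (n + 1) → ℂ)
    refine funext fun (i : ZMod (n + 1)) => ?_
    show ψ (0 + 0 * i) * x ((((1 : ℤˣ) : ℤ) : ZMod (n + 1)) * i + 0) = x i
    have h1 : (0 + 0 * i : ZMod (n + 1)) = 0 := by ring
    have h2 : (((((1 : ℤˣ) : ℤ) : ZMod (n + 1)) * i + 0) : ZMod (n + 1)) = i := by simp
    rw [h1, AddChar.map_zero_eq_one, one_mul, h2]
  map_mul' := by
    intro g h
    apply LinearMap.ext
    intro (x : ZMod (n + 1) → ℂ)
    refine funext fun (i : ZMod (n + 1)) => ?_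
    show ψ ((g * h).c + (g * h).b * i) * x ((g * h).sg * i + (g * h).a) =
      ψ (g.c + g.b * i) * (ψ (h.c + h.b * (g.sg * i + g.a)) *
        x (h.sg * (g.sg * i + g.a) + h.a))
    rw [← mul_assoc, ← AddChar.map_add_eq_mul, HG.sg_mul]
    have h1 : (g * h).c + (g * h).b * i = g.c + g.b * i + (h.c + h.b * (g.sg * i + g.a)) := by
      show g.c + h.c + h.b * g.a + (g.b + h.b * g.sg) * i = _
      ring
    have h2 : h.sg * g.sg * i + (g * h).a = h.sg * (g.sg * i + g.a) + h.a := by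
      show h.sg * g.sg * i + (h.sg * g.a + h.a) = _
      ring
    rw [h1, h2]

theorem hrep_apply (ψ : AddChar (ZMod (n + 1)) ℂ) (g : HG (n + 1)) (x : ZMod (n + 1) → ℂ)
    (i : ZMod (n + 1)) : (hrep ψ g x : ZMod (n + 1) → ℂ) i =
      ψ (g.c + g.b * i) * x (g.sg * i + g.a) := rfl

end Pool.Agent.L5helper21.RG
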