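import Pool.Agent.L5helper21.RG.Heis

/-!
# Stabilisers in the Heisenberg group extended by the involution
-/

set_option autoImplicit false
set_option maxHeartbeats 400000

open MvPolynomial H960VB H938TB Pool.Agent.W615 Pool.Agent.W467.FO
open Pool.Agent.L5helper21.DS

namespace Pool.Agent.L5helper21.RG

variable {n : ℕ} {ψ : AddChar (ZMod (n + 1)) ℂ}

theorem hrep_neg {g : HG (n + 1)} (hg : g.e = -1) (x : ZMod (n + 1) → ℂ) (i : ZMod (n + 1)) :
    (hrep ψ g x : ZMod (n + 1) → ℂ) i = ψ (g.c + g.b * i) * x (-i + g.a) := by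
  rw [hrep_apply, HG.sg_neg hg, neg_one_mul]

theorem hrep_pos {g : HG (n + 1)} (hg : g.e = 1) (x : ZMod (n + 1) → ℂ) (i : ZMod (n + 1)) :
    (hrep ψ g x : ZMod (n + 1) → ℂ) i = ψ (g.c + g.b * i) * x (i + g.a) := by
  rw [hrep_apply, HG.sg_pos hg, one_mul]

theorem mem_SS_of_fix (hψ : ∀ k, ψ k = 1 → k = 0) {g : HG (n + 1)} (hg : g.e = -1)
    {v : ZMod (n + 1) → ℂ} (hv : v ≠ 0) (h : hrep ψ g v = v) : g ∈ HG.SS (n + 1) := by
  refine ⟨hg, hψ _ ?_⟩
  obtain ⟨i, hi⟩ := Function.ne_iff.1 hv
  have h1 : ∀ j : ZMod (n + 1), v j = ψ (g.c + g.b * j) * v (-j + g.a) := fun j => by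
    rw [← hrep_neg hg]
    exact (congrFun h j).symm
  have h2 := h1 i
  rw [h1 (-i + g.a)] at h2
  have h3 : -(-i + g.a) + g.a = i := by ring
  rw [h3, ← mul_assoc, ← AddChar.map_add_eq_mul] at h2
  have h4 : g.c + g.b * i + (g.c + g.b * (-i + g.a)) = 2 * g.c + g.a * g.b := by ring
  rw [h4] at h2
  exact mul_right_cancel₀ hi (by rw [one_mul]; exact h2.symm)

theorem two_ne (hn : 4 ≤ n) : (2 : ZMod (n + 1)) ≠ 0 := by
  intro h
  have h1 : ((2 : ℕ) : ZMod (n + 1)) = 0 := by exact_mod_cast h
  rw [ZMod.natCast_eq_zero_iff] at h1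
  have := Nat.le_of_dvd (by norm_num) h1
  omega

theorem SS_sq {g : HG (n + 1)} (hg : g ∈ HG.SS (n + 1)) : g * g = 1 := by
  obtain ⟨e, a, b, c⟩ := g
  obtain ⟨he, hc⟩ := hg
  change e = -1 at he
  change 2 * c + a * b = 0 at hc
  subst he
  rw [HG.mul_neg_neg, HG.one_def]
  apply HG.ext
  · rfl
  · show -a + a = 0
    ring
  · show b - b = 0
    ring
  · show c + c + b * a = 0
    rw [← hc]
    ring

/-- the fixed space of a reflection has dimension at least three -/
theorem big_SS [Fact (n + 1).Prime] (hn : 4 ≤ n) {g : HG (n + 1)} (hg : g ∈ HG.SS (n + 1)) :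
    Big (hrep ψ) g := by
  have h2 := two_ne hn
  have hsq : ∀ x, hrep ψ g (hrep ψ g x) = x := by
    intro x
    rw [← Module.End.mul_apply, ← map_mul, SS_sq hg, map_one]
    rfl
  set p := LinearMap.ker (hrep ψ g - (1 : ℂ) • LinearMap.id) with hp
  have hmem : ∀ x, x ∈ p ↔ hrep ψ g x = x := by
    intro x
    rw [hp, LinearMap.mem_ker, LinearMap.sub_apply, LinearMap.smul_apply, LinearMap.id_apply,
      one_smul, sub_eq_zero]
  have hproj : LinearMap.IsProj p ((1 / 2 : ℂ) • (1 + hrep ψ g)) := by
    constructor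
    · intro x
      rw [hmem, LinearMap.smul_apply, LinearMap.add_apply, Module.End.one_apply, map_smul,
        map_add, hsq]
      congr 1
      abel
    · intro x hx
      rw [hmem] at hx
      rw [LinearMap.smul_apply, LinearMap.add_apply, Module.End.one_apply, hx, ← two_smul ℂ x,
        smul_smul]
      norm_num
  have htr := hproj.trace
  have htr1 : LinearMap.trace ℂ (Fin (n + 1) → ℂ) (hrep ψ g) = 1 := by
    rw [LinearMap.trace_eq_matrix_trace ℂ (Pi.basisFun ℂ (Fin (n + 1)))]
    unfold Matrix.trace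
    have h3 : ∀ i : ZMod (n + 1), Matrix.diag (LinearMap.toMatrix (Pi.basisFun ℂ (Fin (n + 1)))
        (Pi.basisFun ℂ (Fin (n + 1))) (hrep ψ g)) i =
        if i = g.a / 2 then 1 else 0 := by
      intro i
      rw [Matrix.diag_apply, LinearMap.toMatrix_apply, Pi.basisFun_apply, Pi.basisFun_repr]
      rw [hrep_neg hg.1]
      by_cases hi : i = g.a / 2
      · rw [if_pos hi]
        have h4 : -i + g.a = i := by
          rw [hi]
          field_simp
          ring
        have h5 : g.c + g.b * i = 0 := by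
          have h6 : 2 * (g.c + g.b * i) = 0 := by
            rw [hi]
            have := hg.2
            field_simp
            linear_combination this
          exact (mul_eq_zero.1 h6).resolve_left h2
        rw [h5, AddChar.map_zero_eq_one, one_mul, h4]
        exact Pi.single_eq_same _ _
      · rw [if_neg hi]
        have h4 : -i + g.a ≠ i := by
          intro h5
          apply hi
          field_simp
          linear_combination -h5
        have h6 : (Pi.single (M := fun _ => ℂ) i (1 : ℂ) : ZMod (n + 1) → ℂ) (-i + g.a) = 0 :=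
          Pi.single_eq_of_ne h4 _
        exact mul_eq_zero_of_right _ h6
    have h4 : ∑ i : ZMod (n + 1), Matrix.diag (LinearMap.toMatrix (Pi.basisFun ℂ (Fin (n + 1)))
        (Pi.basisFun ℂ (Fin (n + 1))) (hrep ψ g)) i = 1 := by
      rw [Finset.sum_congr rfl fun i _ => h3 i, Finset.sum_ite_eq' Finset.univ (g.a / 2),
        if_pos (Finset.mem_univ _)]
    exact h4
  rw [map_smul, map_add, htr1, LinearMap.trace_one, Module.finrank_fintype_fun_eq_card,
    Fintype.card_fin, smul_eq_mul] at htr
  have h5 : ((2 * Module.finrank ℂ p : ℕ) : ℂ) = ((n + 1 + 1 : ℕ) : ℂ) := by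
    push_cast at htr ⊢
    linear_combination (-2 : ℂ) * htr
  have h6 : 2 * Module.finrank ℂ p = n + 1 + 1 := by exact_mod_cast h5
  show 3 ≤ Module.finrank ℂ p
  omega

/-- the stabilisers are generated by reflections -/
theorem heis_stab [Fact (n + 1).Prime] (hn : 4 ≤ n) (hψ : ∀ k, ψ k = 1 → k = 0)
    {v : ZMod (n + 1) → ℂ} (hv : v ≠ 0) (g : HG (n + 1)) (hg : hrep ψ g v = v) :
    g ∈ Subgroup.closure {h | h ∈ HG.SS (n + 1) ∧ hrep ψ h v = v} := by
  have h2 := two_ne hn
  by_cases hg1 : g = 1
  · rw [hg1]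
    exact Subgroup.one_mem _
  rcases Int.units_eq_one_or g.e with he | he
  · -- rotations
    suffices h : ∃ h ∈ HG.SS (n + 1), hrep ψ h v = v by
      obtain ⟨h, hS, hh⟩ := h
      have h3 : hrep ψ (g * h) v = v := by
        rw [map_mul, Module.End.mul_apply, hh, hg]
      have h4 : (g * h).e = -1 := by
        show h.e * g.e = -1
        rw [he, hS.1]
        rfl
      have h5 := mem_SS_of_fix hψ h4 hv h3
      have h6 : g = (g * h) * h⁻¹ := (mul_inv_cancel_right g h).symm
      rw [h6]
      exact Subgroup.mul_mem _ (Subgroup.subset_closure ⟨h5, h3⟩)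
        (Subgroup.inv_mem _ (Subgroup.subset_closure ⟨hS, hh⟩))
    have h1 : ∀ j : ZMod (n + 1), v j = ψ (g.c + g.b * j) * v (j + g.a) := fun j => by
      rw [← hrep_pos he]
      exact (congrFun hg j).symm
    have hneg : ∀ (a b : ZMod (n + 1)) (i : ZMod (n + 1)),
        (hrep ψ ⟨-1, a, b, -(a * b) / 2⟩ v : ZMod (n + 1) → ℂ) i =
          ψ (-(a * b) / 2 + b * i) * v (-i + a) := fun a b i => hrep_neg rfl v i
    have hmem : ∀ a b : ZMod (n + 1), (⟨-1, a, b, -(a * b) / 2⟩ : HG (n + 1)) ∈ HG.SS (n + 1) := by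
      intro a b
      refine ⟨rfl, ?_⟩
      show 2 * (-(a * b) / 2) + a * b = 0
      field_simp
      ring
    by_cases ha : g.a = 0
    · by_cases hb : g.b = 0
      · -- the identity
        obtain ⟨i, hi⟩ := Function.ne_iff.1 hv
        have h3 := h1 i
        rw [ha, hb, zero_mul, add_zero, add_zero] at h3
        have h4 : g.c = 0 := hψ _ (mul_right_cancel₀ hi (by rw [one_mul]; exact h3.symm))
        exact absurd (HG.ext he ha hb h4) hg1
      · refine ⟨_, hmem (2 * (-g.c / g.b)) 0, ?_⟩
        refine funext fun (i : ZMod (n + 1)) => ?_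
        rw [hneg]
        have h3 : -(2 * (-g.c / g.b) * 0) / 2 + 0 * i = 0 := by ring
        rw [h3, AddChar.map_zero_eq_one, one_mul]
        have h4 : ∀ j, j ≠ -g.c / g.b → v j = 0 := by
          intro j hj
          by_contra hvj
          apply hj
          have h5 := h1 j
          rw [ha, add_zero] at h5
          have h6 := hψ _ (mul_right_cancel₀ hvj (by rw [one_mul]; exact h5.symm))
          field_simp
          linear_combination h6
        by_cases hi : i = -g.c / g.b
        · congr 1
          rw [hi]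
          ring
        · rw [h4 i hi, h4]
          intro h5
          apply hi
          linear_combination -h5
    · refine ⟨_, hmem 0 (g.b - 2 * g.c / g.a), ?_⟩
      refine funext fun (i : ZMod (n + 1)) => ?_
      rw [hneg]
      -- the quadratic exponent
      set q : ZMod (n + 1) → ZMod (n + 1) := fun j =>
        g.b / (2 * g.a) * j ^ 2 - (g.b / 2 - g.c / g.a) * j with hq
      have hstep : ∀ j, v (j + g.a) * ψ (q (j + g.a)) = v j * ψ (q j) := by
        intro j
        rw [h1 j, mul_comm (ψ (g.c + g.b * j)), mul_assoc, ← AddChar.map_add_eq_mul]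
        congr 2
        simp only [hq]
        field_simp
        ring
      have hk : ∀ k : ℕ, v (k * g.a) * ψ (q (k * g.a)) = v 0 * ψ (q 0) := by
        intro k
        induction k with
        | zero => rw [Nat.cast_zero, zero_mul]
        | succ k ih =>
          have h3 := hstep (k * g.a)
          have h4 : (k : ZMod (n + 1)) * g.a + g.a = ((k + 1 : ℕ) : ZMod (n + 1)) * g.a := by
            push_cast
            ring
          rw [h4] at h3
          rw [h3, ih]
      have hj : ∀ j, v j * ψ (q j) = v 0 * ψ (q 0) := by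
        intro j
        have h3 := hk (j / g.a).val
        rw [ZMod.natCast_zmod_val, div_mul_cancel₀ _ ha] at h3
        exact h3
      have h3 : v (-i + 0) * ψ (q (-i + 0)) = v i * ψ (q i) := by rw [hj, hj i]
      have hne : ψ (q i) ≠ 0 := by
        intro h4
        have h5 : ψ (q i) * ψ (-q i) = 1 := by
          rw [← AddChar.map_add_eq_mul, add_neg_cancel, AddChar.map_zero_eq_one]
        rw [h4, zero_mul] at h5
        exact zero_ne_one h5
      apply mul_right_cancel₀ hne
      rw [← h3, mul_comm (ψ _) (v (-i + 0)), mul_assoc, ← AddChar.map_add_eq_mul]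
      congr 2
      simp only [hq]
      field_simp
      ring
  · exact Subgroup.subset_closure ⟨mem_SS_of_fix hψ he hv hg, hg⟩

end Pool.Agent.L5helper21.RG
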