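import Pool.Agent.L5helper21.RG.Heis2

/-!
# Simple bundles invariant under the Heisenberg group extended by the involution
-/

set_option autoImplicit false
set_option maxHeartbeats 400000

open MvPolynomial H960VB H938TB Pool.Agent.W615 Pool.Agent.W467.FO
open Pool.Agent.L5helper21.DS

namespace Pool.Agent.L5helper21.RG

variable {n : ℕ} {E : Bundle2 n}

/-- the first basis vector -/
def e0 (n : ℕ) : ZMod (n + 1) → ℂ := Pi.single 0 1

theorem e0_ne : (e0 n : Fin (n + 1) → ℂ) ≠ 0 := by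
  intro h
  have h1 : (e0 n) 0 = 0 := congrFun h 0
  unfold e0 at h1
  rw [Pi.single_eq_same] at h1
  exact one_ne_zero h1

/-- the stabiliser of the first basis vector has odd index -/
theorem odd_index [Fact (n + 1).Prime] (hn : 4 ≤ n) (ψ : AddChar (ZMod (n + 1)) ℂ) :
    Odd (stab (hrep ψ) (e0 n)).index := by
  have h1 : Subgroup.zpowers (HG.P0 : HG (n + 1)) ≤ stab (hrep ψ) (e0 n) := by
    rw [Subgroup.zpowers_le]
    show hrep ψ HG.P0 (e0 n) = e0 n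
    refine funext fun (i : ZMod (n + 1)) => ?_
    rw [hrep_neg rfl]
    show ψ (0 + 0 * i) * e0 n (-i + 0) = e0 n i
    unfold e0
    rw [zero_mul, add_zero, add_zero, AddChar.map_zero_eq_one, one_mul, Pi.single_apply,
      Pi.single_apply]
    simp only [neg_eq_zero]
  have h2 := Subgroup.index_dvd_of_le h1
  rw [HG.index_P0] at h2
  have h3 : Odd (n + 1) := Nat.Prime.odd_of_ne_two Fact.out (by omega)
  exact Odd.of_dvd_nat h3.pow h2

/-- lifts of all elements -/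
theorem heis_lift {ψ : AddChar (ZMod (n + 1)) ℂ}
    (h1 : Nonempty (GOp E (hrep ψ ⟨1, 1, 0, 0⟩))) (h2 : Nonempty (GOp E (hrep ψ ⟨1, 0, 1, 0⟩)))
    (h3 : Nonempty (GOp E (hrep ψ HG.P0))) (g : HG (n + 1)) : Nonempty (GOp E (hrep ψ g)) := by
  have hg : g ∈ Subgroup.closure {(⟨1, 1, 0, 0⟩ : HG (n + 1)), ⟨1, 0, 1, 0⟩, HG.P0} := by
    rw [HG.closure_gen]
    trivial
  refine of_closure (P := fun g => Nonempty (GOp E (hrep ψ g))) ?_ ?_ ?_ g hg
  · rw [map_one]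
    exact ⟨idOp E⟩
  · rintro g h ⟨O⟩ ⟨O'⟩
    rw [map_mul]
    exact ⟨comp O O'⟩
  · rintro h (rfl | rfl | rfl)
    · exact h1
    · exact h2
    · exact h3

/-- the central element -/
def zz (n : ℕ) : HG (n + 1) := ⟨1, 0, 0, 1⟩

theorem hrep_zz (ψ : AddChar (ZMod (n + 1)) ℂ) : hrep ψ (zz n) = ψ 1 • LinearMap.id := by
  apply LinearMap.ext
  intro (x : ZMod (n + 1) → ℂ)
  refine funext fun (i : ZMod (n + 1)) => ?_
  rw [hrep_pos rfl]
  show ψ (1 + 0 * i) * x (i + 0) = ψ 1 * x i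
  rw [zero_mul, add_zero, add_zero]

theorem heis_main [Fact (n + 1).Prime] (hn : 4 ≤ n) (hE : ¬ E.Splits) (hsimp : Simp E)
    (W : Wedge (triv E)) {ψ : AddChar (ZMod (n + 1)) ℂ} (hψ : ∀ k, ψ k = 1 → k = 0)
    (h1 : Nonempty (GOp E (hrep ψ ⟨1, 1, 0, 0⟩))) (h2 : Nonempty (GOp E (hrep ψ ⟨1, 0, 1, 0⟩)))
    (h3 : Nonempty (GOp E (hrep ψ HG.P0)))
    (hs2 : ∀ Ψ : ℤ → Vec E.a n → Vec E.a n, (∀ d G, Sec E d G → Sec E d (Ψ d G)) →
      (∀ d G G', Sec E d G → Sec E d G' → Ψ d (G + G') = Ψ d G + Ψ d G') →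
      (∀ d e (p : MvPolynomial (Fin (n + 1)) ℂ) G, Sec E d G → HomZ p e →
        Ψ (d + e) (p • G) = p • Ψ d G) →
      ∃ c : ℂ, ∀ d G, Sec E d G → Ψ d G = c • G) :
    ∃ (F : Bundle2 n) (Ψ : Vec E.a n → Vec F.a n),
      ((∀ k i s, lsub (hrep ψ s) (F.B k i) = F.B k i) ∧
      (∀ d G, E.IsSection d G → F.IsSection d (Ψ G)) ∧
      (∀ d G G', E.IsSection d G → E.IsSection d G' → Ψ (G + G') = Ψ G + Ψ G') ∧
      (∀ d (p : MvPolynomial (Fin (n + 1)) ℂ) G, E.IsSection d G → Ψ (p • G) = p • Ψ G) ∧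
      (∀ d H, F.IsSection d H → ∃! G, E.IsSection d G ∧ Ψ G = H)) ∧
      ∃ b : ℤ, (∀ i, ((n + 1 : ℕ) : ℤ) ∣ F.β i - b) ∧ ((n + 1 : ℕ) : ℤ) ∣ W.κ.1 - 2 * b := by
  obtain ⟨F, Ψ, hF, δ, R, hR, hR0, hβ, hgen, hinv, hO⟩ := odd_simple (hrep ψ) (by omega) hE hsimp W
    (HG.closure_SS (two_ne hn)) (fun s hs => big_SS hn hs)
    (fun s _ => heis_lift h1 h2 h3 s) (fun v hv g hg => heis_stab hn hψ hv g hg) e0_ne
    (odd_index hn ψ)
  refine ⟨F, Ψ, hF, ?_⟩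
  have hz1 : ψ 1 ^ (n + 1) = 1 := by
    rw [← AddChar.map_nsmul_eq_pow, nsmul_one]
    have : ((n + 1 : ℕ) : ZMod (n + 1)) = 0 := ZMod.natCast_self (n + 1)
    rw [this, AddChar.map_zero_eq_one]
  have hz0 : ψ 1 ≠ 0 := by
    intro h
    rw [h, zero_pow (Nat.succ_ne_zero n)] at hz1
    exact zero_ne_one hz1
  have hnat : ∀ k : ℕ, ψ 1 ^ k = 1 → (n + 1) ∣ k := by
    intro k hk
    rw [← AddChar.map_nsmul_eq_pow, nsmul_one] at hk
    have h4 := hψ _ hk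
    exact (ZMod.natCast_eq_zero_iff _ _).1 h4
  have hint : ∀ k : ℤ, ψ 1 ^ k = 1 → ((n + 1 : ℕ) : ℤ) ∣ k := by
    intro k hk
    have h4 : ψ 1 ^ (k.natAbs) = 1 := by
      rcases Int.natAbs_eq k with h5 | h5
      · rw [h5, zpow_natCast] at hk
        exact hk
      · rw [h5, zpow_neg, zpow_natCast, inv_eq_one] at hk
        exact hk
    exact Int.natCast_dvd.2 (hnat _ h4)
  -- the central element
  obtain ⟨O, hO'⟩ := hO (zz n)
  have hl : ∀ {p : MvPolynomial (Fin (n + 1)) ℂ} {e : ℤ}, HomZ p e →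
      lsub (hrep ψ (zz n)) p = ψ 1 ^ e • p := by
    intro p e hp
    rw [hrep_zz, lsub_smul LinearMap.id (ψ 1) hp]
    congr 1
    apply MvPolynomial.funext
    intro x
    rw [eval_lsub]
    rfl
  obtain ⟨c, hc⟩ := hs2 (fun d G => (ψ 1 ^ d)⁻¹ • O.D G)
    (fun d G hG => ((ψ 1 ^ d)⁻¹ • (⟨O.D G, O.sec d G hG⟩ : S0 E d)).2)
    (fun d G G' hG hG' => by
      have h4 : O.D (G + G') = O.D G + O.D G' := O.add d G G' hG hG'
      show (ψ 1 ^ d)⁻¹ • O.D (G + G') = (ψ 1 ^ d)⁻¹ • O.D G + (ψ 1 ^ d)⁻¹ • O.D G'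
      rw [h4, smul_add]) (by
    intro d e p G hG hp
    have h4 : O.D (p • G) = lsub (hrep ψ (zz n)) p • O.D G := O.mul d e p G hG hp
    show (ψ 1 ^ (d + e))⁻¹ • O.D (p • G) = p • (ψ 1 ^ d)⁻¹ • O.D G
    rw [h4, hl hp, smul_assoc, smul_smul, smul_comm p]
    congr 1
    rw [zpow_add₀ hz0]
    have := zpow_ne_zero e hz0
    have := zpow_ne_zero d hz0
    field_simp)
  have hc1 : ∀ i, c * ψ 1 ^ (δ i) = 1 := by
    intro i
    have h4 : (ψ 1 ^ δ i)⁻¹ • O.D (R i) = c • R i := hc (δ i) (R i) (hR i)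
    rw [hO' i] at h4
    have h5 : ((ψ 1 ^ δ i)⁻¹ - c) • R i = 0 := by rw [sub_smul, h4, sub_self]
    have h6 := sub_eq_zero.1 ((smul_eq_zero.1 h5).resolve_right (hR0 i))
    rw [← h6, inv_mul_cancel₀ (zpow_ne_zero _ hz0)]
  have hδ : ∀ i j, ((n + 1 : ℕ) : ℤ) ∣ δ i - δ j := by
    intro i j
    apply hint
    have h4 := hc1 i
    have h5 := hc1 j
    have hc0 : c ≠ 0 := by
      rintro rfl
      rw [zero_mul] at h4
      exact zero_ne_one h4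
    rw [zpow_sub₀ hz0, div_eq_one_iff_eq (zpow_ne_zero _ hz0)]
    exact mul_left_cancel₀ hc0 (h4.trans h5.symm)
  obtain ⟨j, k, hjk⟩ := hgen (e0 n) e0_ne
  have hw0 : W.wd (R j) (R k) ≠ 0 := by
    intro h
    rw [h, map_zero] at hjk
    exact hjk rfl
  have h4 : ((n + 1 : ℕ) : ℤ) ∣ W.κ.1 + δ j + δ k := by
    apply hint
    have h5 := hinv (zz n) j k
    rw [hl (wd_homZ W (hR j) (hR k))] at h5
    have h6 : (ψ 1 ^ (δ j + δ k + W.κ.1) - 1) • W.wd (R j) (R k) = 0 := by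
      rw [sub_smul, h5, one_smul, sub_self]
    have h7 := sub_eq_zero.1 ((smul_eq_zero.1 h6).resolve_right hw0)
    rw [← h7]
    congr 1
    ring
  refine ⟨W.κ.1 + δ j, fun i => ?_, ?_⟩
  · rw [hβ i]
    have := hδ i j
    have h5 : W.κ.1 + δ i - (W.κ.1 + δ j) = δ i - δ j := by ring
    rw [h5]
    exact this
  · have h5 : W.κ.1 - 2 * (W.κ.1 + δ j) = -(W.κ.1 + δ j + δ k) + (δ k - δ j) := by ring
    rw [h5]
    exact dvd_add (dvd_neg.2 h4) (hδ k j)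

end Pool.Agent.L5helper21.RG
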