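import Pool.Agent.L5helper21.RG.Scal

/-!
# Linear forms
-/

set_option autoImplicit false
set_option maxHeartbeats 400000

open MvPolynomial H960VB H938TB Pool.Agent.W615 Pool.Agent.W467.FO

namespace Pool.Agent.L5helper21.RG

variable {n : ℕ}

/-- the linear form of a functional -/
noncomputable def L (f : (Fin (n + 1) → ℂ) →ₗ[ℂ] ℂ) : MvPolynomial (Fin (n + 1)) ℂ :=
  ∑ t, C (f (Pi.single t 1)) * X t

theorem eval_L (f : (Fin (n + 1) → ℂ) →ₗ[ℂ] ℂ) (x : Fin (n + 1) → ℂ) : eval x (L f) = f x := by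
  unfold L
  rw [map_sum]
  have h : ∀ t, eval x (C (f (Pi.single t 1)) * X t) = f (x t • Pi.single t 1) := by
    intro t
    rw [map_mul, eval_C, eval_X, map_smul, smul_eq_mul, mul_comm]
  simp_rw [h]
  rw [← map_sum]
  congr 1
  funext s
  rw [Finset.sum_apply, Finset.sum_eq_single s]
  · simp
  · intro t _ ht
    rw [Pi.smul_apply, Pi.single_eq_of_ne (Ne.symm ht), smul_zero]
  · intro h; exact absurd (Finset.mem_univ _) h

theorem lsub_L {T : (Fin (n + 1) → ℂ) →ₗ[ℂ] (Fin (n + 1) → ℂ)}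
    (f : (Fin (n + 1) → ℂ) →ₗ[ℂ] ℂ) : lsub T (L f) = L (f ∘ₗ T) := by
  apply MvPolynomial.funext
  intro x
  rw [eval_lsub, eval_L, eval_L, LinearMap.comp_apply]

theorem L_inj {f g : (Fin (n + 1) → ℂ) →ₗ[ℂ] ℂ} (h : L f = L g) : f = g := by
  apply LinearMap.ext
  intro x
  rw [← eval_L, h, eval_L]

theorem L_zero : L (0 : (Fin (n + 1) → ℂ) →ₗ[ℂ] ℂ) = 0 := by
  apply MvPolynomial.funext
  intro x
  rw [eval_L, map_zero, LinearMap.zero_apply]

theorem L_ne {f : (Fin (n + 1) → ℂ) →ₗ[ℂ] ℂ} (hf : f ≠ 0) : L f ≠ 0 := by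
  intro h
  apply hf
  rw [← L_zero] at h
  exact L_inj h

theorem homZ_L (f : (Fin (n + 1) → ℂ) →ₗ[ℂ] ℂ) : HomZ (L f) 1 := by
  right
  refine ⟨1, rfl, ?_⟩
  unfold L
  refine IsHomogeneous.sum _ _ _ fun t _ => ?_
  have := (isHomogeneous_C (Fin (n + 1)) (f (Pi.single t 1))).mul (isHomogeneous_X ℂ t)
  rwa [zero_add] at this

/-- the projection to the kernel of a functional along a vector -/
noncomputable def pr (f : (Fin (n + 1) → ℂ) →ₗ[ℂ] ℂ) (w : Fin (n + 1) → ℂ) :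
    (Fin (n + 1) → ℂ) →ₗ[ℂ] (Fin (n + 1) → ℂ) := LinearMap.id - f.smulRight w

theorem pr_apply (f : (Fin (n + 1) → ℂ) →ₗ[ℂ] ℂ) (w x : Fin (n + 1) → ℂ) :
    pr f w x = x - f x • w := rfl

theorem f_pr {f : (Fin (n + 1) → ℂ) →ₗ[ℂ] ℂ} {w : Fin (n + 1) → ℂ} (hw : f w = 1)
    (x : Fin (n + 1) → ℂ) : f (pr f w x) = 0 := by
  rw [pr_apply, map_sub, map_smul, hw, smul_eq_mul, mul_one, sub_self]

/-- divisibility by a linear form -/
theorem L_dvd_iff {f : (Fin (n + 1) → ℂ) →ₗ[ℂ] ℂ} {w : Fin (n + 1) → ℂ} (hw : f w = 1)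
    (p : MvPolynomial (Fin (n + 1)) ℂ) : L f ∣ p ↔ lsub (pr f w) p = 0 := by
  constructor
  · rintro ⟨q, rfl⟩
    rw [map_mul, lsub_L]
    have h : f ∘ₗ pr f w = 0 := by
      apply LinearMap.ext
      intro x
      exact f_pr hw x
    rw [h, L_zero, zero_mul]
  · intro h
    have key : (Ideal.Quotient.mkₐ ℂ (Ideal.span {L f})).comp (lsub (pr f w)) =
        Ideal.Quotient.mkₐ ℂ (Ideal.span {L f}) := by
      apply MvPolynomial.algHom_ext
      intro s
      rw [AlgHom.comp_apply]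
      change Ideal.Quotient.mk _ _ = Ideal.Quotient.mk _ _
      rw [Ideal.Quotient.eq, Ideal.mem_span_singleton]
      refine ⟨- C (w s), ?_⟩
      apply MvPolynomial.funext
      intro x
      rw [map_sub, eval_lsub, eval_X, eval_X, map_mul, eval_L, map_neg, eval_C, pr_apply,
        Pi.sub_apply, Pi.smul_apply, smul_eq_mul]
      ring
    have h1 := congrArg (fun φ => φ p) key
    change Ideal.Quotient.mk _ (lsub (pr f w) p) = Ideal.Quotient.mk _ p at h1
    rw [h, map_zero] at h1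
    rw [← Ideal.mem_span_singleton]
    exact Ideal.Quotient.eq_zero_iff_mem.1 h1.symm

theorem exists_w {f : (Fin (n + 1) → ℂ) →ₗ[ℂ] ℂ} (hf : f ≠ 0) : ∃ w, f w = 1 := by
  obtain ⟨x, hx⟩ : ∃ x, f x ≠ 0 := by
    by_contra hc
    push Not at hc
    exact hf (LinearMap.ext hc)
  refine ⟨(f x)⁻¹ • x, ?_⟩
  rw [map_smul, smul_eq_mul, inv_mul_cancel₀ hx]

theorem prime_L {f : (Fin (n + 1) → ℂ) →ₗ[ℂ] ℂ} (hf : f ≠ 0) : Prime (L f) := by
  obtain ⟨w, hw⟩ := exists_w hf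
  refine ⟨L_ne hf, ?_, ?_⟩
  · intro hu
    have h1 := (L_dvd_iff hw 1).1 (hu.dvd)
    rw [map_one] at h1
    exact one_ne_zero h1
  · intro a b hab
    rw [L_dvd_iff hw, map_mul] at hab
    rw [L_dvd_iff hw, L_dvd_iff hw]
    exact mul_eq_zero.1 hab

/-- divisibility by a linear form from the vanishing away from the origin -/
theorem L_dvd (hn : 1 ≤ n) {f : (Fin (n + 1) → ℂ) →ₗ[ℂ] ℂ} (hf : f ≠ 0)
    {p : MvPolynomial (Fin (n + 1)) ℂ} (h : ∀ x, x ≠ 0 → f x = 0 → eval x p = 0) : L f ∣ p := by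
  obtain ⟨w, hw⟩ := exists_w hf
  rw [L_dvd_iff hw]
  -- a functional which is not zero on the kernel
  obtain ⟨s, hs⟩ : ∃ s : Fin (n + 1), (LinearMap.proj s : (Fin (n + 1) → ℂ) →ₗ[ℂ] ℂ) ∘ₗ pr f w ≠ 0 := by
    by_contra hc
    push Not at hc
    have h0 : pr f w = 0 := by
      apply LinearMap.ext
      intro x
      funext s
      exact LinearMap.congr_fun (hc s) x
    have h1 : ∀ x, x = f x • w := by
      intro x
      have := LinearMap.congr_fun h0 x
      rw [pr_apply, LinearMap.zero_apply, sub_eq_zero] at this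
      exact this
    have h2 : Module.finrank ℂ (Fin (n + 1) → ℂ) ≤ 1 := by
      refine finrank_le_one w fun v => ⟨f v, (h1 v).symm⟩
    rw [Module.finrank_fintype_fun_eq_card, Fintype.card_fin] at h2
    omega
  have h1 : lsub (pr f w) p * L ((LinearMap.proj s : (Fin (n + 1) → ℂ) →ₗ[ℂ] ℂ) ∘ₗ pr f w) = 0 := by
    apply MvPolynomial.funext
    intro x
    rw [map_mul, map_zero, eval_lsub, eval_L]
    by_cases h0 : pr f w x = 0
    · rw [LinearMap.comp_apply, h0, map_zero, mul_zero]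
    · rw [h _ h0 (f_pr hw x), zero_mul]
  exact (mul_eq_zero.1 h1).resolve_right (L_ne hs)

/-- the reflecting hyperplane -/
theorem exists_functional {T : (Fin (n + 1) → ℂ) →ₗ[ℂ] (Fin (n + 1) → ℂ)}
    (h : Module.finrank ℂ (LinearMap.ker (T - (1 : ℂ) • LinearMap.id)) = n) :
    ∃ f : (Fin (n + 1) → ℂ) →ₗ[ℂ] ℂ, f ≠ 0 ∧ ∀ x, T x = x ↔ f x = 0 := by
  have hmem : ∀ x, x ∈ LinearMap.ker (T - (1 : ℂ) • LinearMap.id) ↔ T x = x := by
    intro x
    rw [LinearMap.mem_ker, LinearMap.sub_apply, LinearMap.smul_apply, LinearMap.id_apply, one_smul,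
      sub_eq_zero]
  obtain ⟨s, hs⟩ : ∃ s : Fin (n + 1),
      (LinearMap.proj s : (Fin (n + 1) → ℂ) →ₗ[ℂ] ℂ) ∘ₗ (T - (1 : ℂ) • LinearMap.id) ≠ 0 := by
    by_contra hc
    push Not at hc
    have h0 : T - (1 : ℂ) • LinearMap.id = 0 := by
      apply LinearMap.ext
      intro x
      funext s
      exact LinearMap.congr_fun (hc s) x
    rw [h0, LinearMap.ker_zero, finrank_top, Module.finrank_fintype_fun_eq_card,
      Fintype.card_fin] at h
    omega
  set f := (LinearMap.proj s : (Fin (n + 1) → ℂ) →ₗ[ℂ] ℂ) ∘ₗ (T - (1 : ℂ) • LinearMap.id) with hf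
  have hle : LinearMap.ker (T - (1 : ℂ) • LinearMap.id) ≤ LinearMap.ker f := by
    intro x hx
    rw [LinearMap.mem_ker] at hx ⊢
    rw [hf, LinearMap.comp_apply, hx, map_zero]
  have hfin : Module.finrank ℂ (LinearMap.ker f) = n := by
    have h1 := LinearMap.finrank_range_add_finrank_ker f
    rw [Module.finrank_fintype_fun_eq_card, Fintype.card_fin] at h1
    have h2 : LinearMap.range f = ⊤ := by
      rw [LinearMap.range_eq_top]
      intro c
      obtain ⟨w, hw⟩ := exists_w hs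
      exact ⟨c • w, by rw [map_smul, hw, smul_eq_mul, mul_one]⟩
    rw [h2, finrank_top, Module.finrank_self] at h1
    omega
  have heq : LinearMap.ker (T - (1 : ℂ) • LinearMap.id) = LinearMap.ker f :=
    Submodule.eq_of_le_of_finrank_eq hle (by rw [h, hfin])
  refine ⟨f, hs, fun x => ?_⟩
  rw [← hmem, heq, LinearMap.mem_ker]

end Pool.Agent.L5helper21.RG
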