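import Pool.Agent.L5helper21.RG.Gen

/-!
# Bundles with an action of a reflection group are given by invariant matrices
-/

set_option autoImplicit false
set_option maxHeartbeats 400000

open MvPolynomial H960VB H938TB Pool.Agent.W615 Pool.Agent.W467.FO
open Pool.Agent.L5helper21.DS

namespace Pool.Agent.L5helper21.RG

variable {n : ℕ} {Γ : Type*} [Group Γ]
variable {T : Γ →* Module.End ℂ (Fin (n + 1) → ℂ)}

/-- a bundle with an action of a finite group generated by reflections, which act by scalars on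
the fibres over their hyperplanes -/
theorem general [Fintype Γ] (hn1 : 1 ≤ n) {E : Bundle2 n} (W : Wedge (triv E)) (A : Act E T)
    (χ : Γ →* ℂ) {S : Set Γ} (hS : Subgroup.closure S = ⊤)
    (hT : ∀ s ∈ S, ∃ f : (Fin (n + 1) → ℂ) →ₗ[ℂ] ℂ, f ≠ 0 ∧ ∀ x, f x = 0 → T s x = x)
    (hχ : ∀ s ∈ S, ∀ (d : ℤ) (G : Vec E.a n), Sec E d G → ∀ x, T s x = x →
      evv (A.D s G) x = χ s • evv G x)
    (hχ' : ∀ g ∈ S, ∀ (a b : ℤ) (s t : Vec E.a n), Sec E a s → Sec E b t →
        W.wd (A.D g s) (A.D g t) = C (χ g * χ g) * lsub (T g) (W.wd s t)) :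
    ∃ (F : Bundle2 n) (Ψ : Vec E.a n → Vec F.a n),
      (∀ k i, ∀ s ∈ S, lsub (T s) (F.B k i) = F.B k i) ∧
      (∀ d G, E.IsSection d G → F.IsSection d (Ψ G)) ∧
      (∀ d G G', E.IsSection d G → E.IsSection d G' → Ψ (G + G') = Ψ G + Ψ G') ∧
      (∀ d (p : MvPolynomial (Fin (n + 1)) ℂ) G, E.IsSection d G → Ψ (p • G) = p • Ψ G) ∧
      (∀ d H, F.IsSection d H → ∃! G, E.IsSection d G ∧ Ψ G = H) := by
  obtain ⟨N, δ, g, hg, hgen⟩ := A.exists_family W (χ := χ) (A.mem_P hn1 χ hS hT hχ)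
  have hg1 : ∀ j, Sec E (δ j) (g j) := fun j => (hg j).1
  have hinv : ∀ s ∈ S, ∀ j k, lsub (T s) (W.wd (g j) (g k)) = W.wd (g j) (g k) :=
    fun s hs j k => A.wd_inv W hχ' (hg j) (hg k) hs
  set Q := skewOf W hg1 hgen with hQ
  have hrow : ∀ H : Vec N n, (∀ x : Fin (n + 1) → ℂ, x ≠ 0 →
      evv H x ∈ Q.bundle.fib x) ↔ ∀ i j k, H i * W.wd (g j) (g k) -
        H j * W.wd (g i) (g k) + H k * W.wd (g i) (g j) = 0 := by
    intro H
    have hmem : ∀ x : Fin (n + 1) → ℂ, evv H x ∈ Q.bundle.fib x ↔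
        ∀ i j k, eval x (H i * W.wd (g j) (g k) -
        H j * W.wd (g i) (g k) + H k * W.wd (g i) (g j)) = 0 := fun x => mem_skew' Q x H
    constructor
    · intro h i j k
      have h1 : (H i * W.wd (g j) (g k) - H j * W.wd (g i) (g k) +
          H k * W.wd (g i) (g j)) * X 0 = 0 := by
        apply MvPolynomial.funext
        intro x
        rw [map_mul, map_zero]
        by_cases hx : x = 0
        · rw [hx, eval_X]
          simp
        · rw [(hmem x).1 (h x hx) i j k, zero_mul]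
      exact (mul_eq_zero.1 h1).resolve_right (X_ne_zero 0)
    · intro h x _
      rw [hmem x]
      intro i j k
      rw [h i j k, map_zero]
  let Ψ : Vec E.a n → Vec N n := fun G i => W.wd G (g i)
  refine ⟨Q.bundle, Ψ, ?_, ?_, ?_, ?_, ?_⟩
  · intro r l γ hγ
    show lsub (T γ) (row (fun j k => W.wd (g j) (g k)) ((eqv N).symm r) l) =
      row (fun j k => W.wd (g j) (g k)) ((eqv N).symm r) l
    unfold row
    simp only [map_add, map_sub, apply_ite (lsub (T γ)), map_zero, hinv γ hγ]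
  · intro d G hG
    have hG' := sec_iff.2 hG
    refine ⟨fun i => ?_, ?_⟩
    · have h1 := wd_homZ W hG' (hg1 i)
      show HomZ (W.wd G (g i)) (W.κ.1 + δ i + d)
      convert h1 using 1
      ring
    · refine (hrow (Ψ G)).2 fun i j k => ?_
      exact W.four G (g i) (g j) (g k) hG'.ker (hg1 i).ker (hg1 j).ker (hg1 k).ker
  · intro d G G' hG hG'
    funext i
    exact wd_add_left W (sec_iff.2 hG).ker (sec_iff.2 hG').ker (hg1 i).ker
  · intro d p G hG
    funext i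
    exact W.smul p G (g i) (sec_iff.2 hG).ker (hg1 i).ker
  · intro d H hH
    obtain ⟨G, hG1, hG2⟩ := surj W hn1 hg1 hgen (d := d) (H := H) (fun i => hH.1 i)
      ((hrow H).1 hH.2)
    refine ⟨G, ⟨sec_iff.1 hG1, funext hG2⟩, ?_⟩
    rintro G' ⟨hG', hG''⟩
    refine inj_of_gen W hg1 hgen (sec_iff.2 hG') hG1 fun i => ?_
    rw [hG2 i]
    exact congrFun hG'' i

/-- the equivariant case -/
theorem general_act [Fintype Γ] (hn : 3 ≤ n) {E : Bundle2 n} (hE : ¬ E.Splits) (A : Act E T)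
    (hinj : ∀ g, T g = 1 → g = 1) {S : Set Γ} (hS : Subgroup.closure S = ⊤)
    (hT : ∀ s ∈ S, IsRefl T s) :
    ∃ (F : Bundle2 n) (Ψ : Vec E.a n → Vec F.a n),
      (∀ k i, ∀ s ∈ S, lsub (T s) (F.B k i) = F.B k i) ∧
      (∀ d G, E.IsSection d G → F.IsSection d (Ψ G)) ∧
      (∀ d G G', E.IsSection d G → E.IsSection d G' → Ψ (G + G') = Ψ G + Ψ G') ∧
      (∀ d (p : MvPolynomial (Fin (n + 1)) ℂ) G, E.IsSection d G → Ψ (p • G) = p • Ψ G) ∧
      (∀ d H, F.IsSection d H → ∃! G, E.IsSection d G ∧ Ψ G = H) := by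
  obtain ⟨W⟩ := exists_wedge (by omega : 1 ≤ n) (triv E)
  obtain ⟨χ, hχ⟩ := A.exists_chi hn hE W hinj
  refine general (by omega) W A χ hS (fun s hs => ?_) (fun s hs => (hχ s (hT s hs)).1)
    (fun s hs => (hχ s (hT s hs)).2)
  obtain ⟨f, hf, hf'⟩ := exists_functional (hT s hs)
  exact ⟨f, hf, fun x hx => (hf' x).2 hx⟩

end Pool.Agent.L5helper21.RG
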