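import Pool.Agent.L5helper21.RG.Proj

/-!
# The monomial groups
-/

set_option autoImplicit false
set_option maxHeartbeats 400000

open MvPolynomial H960VB H938TB Pool.Agent.W615 Pool.Agent.W467.FO
open Pool.Agent.L5helper21.DS

namespace Pool.Agent.L5helper21.RG

variable {n : ℕ}

theorem lsub_perm (σ : Equiv.Perm (Fin (n + 1))) (p : MvPolynomial (Fin (n + 1)) ℂ) :
    lsub (σ.permMatrix ℂ).mulVecLin p = rename σ p := by
  apply MvPolynomial.funext
  intro x
  rw [eval_lsub, eval_rename, Matrix.mulVecLin_apply, Matrix.permMatrix_mulVec]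

/-- symmetric polynomials in the powers -/
theorem exists_esymm {m : ℕ} (hm : 1 ≤ m) {ζ : ℂ} (hζ : IsPrimitiveRoot ζ m)
    {p : MvPolynomial (Fin (n + 1)) ℂ}
    (h1 : ∀ i : Fin n, lsub ((Equiv.swap i.castSucc i.succ).permMatrix ℂ).mulVecLin p = p)
    (h2 : m ≠ 1 → lsub (hg 0 ζ).mulVecLin p = p) :
    ∃ Q : MvPolynomial (Fin (n + 1)) ℂ,
      p = aeval (fun i : Fin (n + 1) => pw (fun _ => m) (esymm (Fin (n + 1)) ℂ (i + 1))) Q := by
  have hsym : ∀ σ : Equiv.Perm (Fin (n + 1)), rename σ p = p := by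
    intro σ
    have hσ : σ ∈ Submonoid.closure
        (Set.range fun i : Fin n => Equiv.swap i.castSucc i.succ) := by
      rw [Equiv.Perm.mclosure_swap_castSucc_succ]
      trivial
    induction hσ using Submonoid.closure_induction with
    | mem s hs =>
      obtain ⟨i, rfl⟩ := hs
      rw [← lsub_perm]
      exact h1 i
    | one => exact rename_id_apply p
    | mul σ τ _ _ ihσ ihτ =>
      have h3 : rename (σ * τ) p = rename σ (rename τ p) := by
        rw [rename_rename]
        rfl
      rw [h3, ihτ, ihσ]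
  have hdvd : ∀ v, coeff v p ≠ 0 → m ∣ v 0 := by
    intro v hv
    by_cases hm1 : m = 1
    · rw [hm1]
      exact one_dvd _
    · have h3 := congrArg (coeff v) (h2 hm1)
      rw [coeff_lsub] at h3
      apply hζ.dvd_of_pow_eq_one
      exact mul_right_cancel₀ hv (h3.trans (one_mul _).symm)
  have hdvd' : ∀ v, coeff v p ≠ 0 → ∀ i, m ∣ v i := by
    intro v hv i
    have h3 := coeff_rename_mapDomain (Equiv.swap i 0) (Equiv.swap i 0).injective p v
    rw [hsym] at h3
    have h4 := hdvd (v.mapDomain (Equiv.swap i 0)) (by rw [h3]; exact hv)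
    have h5 := Finsupp.mapDomain_apply (Equiv.swap i (0 : Fin (n + 1))).injective v i
    rw [Equiv.swap_apply_left] at h5
    rwa [h5] at h4
  obtain ⟨P, hP⟩ := exists_pw (m := fun _ => m) (p := p) hdvd'
  have hPsym : P.IsSymmetric := by
    intro σ
    apply pw_inj hm
    rw [hP]
    have h3 : pw (fun _ => m) (rename σ P) = rename σ (pw (fun _ => m) P) := by
      apply MvPolynomial.funext
      intro x
      rw [eval_pw, eval_rename, eval_rename, eval_pw]
      rfl
    rw [h3, hP, hsym]
  obtain ⟨Q, hQ⟩ := esymmAlgHom_surjective (σ := Fin (n + 1)) ℂ (n := n + 1)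
    (by rw [Fintype.card_fin]) ⟨P, hPsym⟩
  refine ⟨Q, ?_⟩
  have h4 : aeval (fun i : Fin (n + 1) => esymm (Fin (n + 1)) ℂ (i + 1)) Q = P := by
    have h5 := congrArg Subtype.val hQ
    rw [esymmAlgHom_apply] at h5
    exact h5
  rw [← hP, ← h4, ← AlgHom.comp_apply, comp_aeval]

/-- rank one and the dimension of the fixed space -/
theorem rank_one_iff (g : Matrix (Fin (n + 1)) (Fin (n + 1)) ℂ) :
    (g - 1).rank = 1 ↔
      Module.finrank ℂ (LinearMap.ker (g.mulVecLin - (1 : ℂ) • LinearMap.id)) = n := by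
  have h1 : (g - 1).mulVecLin = g.mulVecLin - (1 : ℂ) • LinearMap.id := by
    apply LinearMap.ext
    intro x
    rw [Matrix.mulVecLin_apply, Matrix.sub_mulVec, Matrix.one_mulVec, one_smul]
    rfl
  have h2 := LinearMap.finrank_range_add_finrank_ker (g - 1).mulVecLin
  rw [Module.finrank_fintype_fun_eq_card, Fintype.card_fin] at h2
  rw [← h1]
  unfold Matrix.rank
  omega

theorem finrank_of_functional {T : (Fin (n + 1) → ℂ) →ₗ[ℂ] (Fin (n + 1) → ℂ)}
    {f : (Fin (n + 1) → ℂ) →ₗ[ℂ] ℂ} (hf : f ≠ 0) (h : ∀ x, T x = x ↔ f x = 0) :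
    Module.finrank ℂ (LinearMap.ker (T - (1 : ℂ) • LinearMap.id)) = n := by
  have heq : LinearMap.ker (T - (1 : ℂ) • LinearMap.id) = LinearMap.ker f := by
    ext x
    rw [LinearMap.mem_ker, LinearMap.mem_ker, LinearMap.sub_apply, LinearMap.smul_apply,
      LinearMap.id_apply, one_smul, sub_eq_zero, h]
  rw [heq]
  have h1 := LinearMap.finrank_range_add_finrank_ker f
  rw [Module.finrank_fintype_fun_eq_card, Fintype.card_fin] at h1
  have h2 : LinearMap.range f = ⊤ := by
    rw [LinearMap.range_eq_top]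
    intro c
    obtain ⟨w, hw⟩ := exists_w hf
    exact ⟨c • w, by rw [map_smul, hw, smul_eq_mul, mul_one]⟩
  rw [h2, finrank_top, Module.finrank_self] at h1
  omega

theorem swap_rank {i j : Fin (n + 1)} (hij : i ≠ j) :
    ((Equiv.swap i j).permMatrix ℂ - 1).rank = 1 := by
  rw [rank_one_iff]
  refine finrank_of_functional (f := (LinearMap.proj i : (Fin (n + 1) → ℂ) →ₗ[ℂ] ℂ) -
    LinearMap.proj j) ?_ ?_
  · intro h
    have h1 := LinearMap.congr_fun h (Pi.single i 1)
    rw [LinearMap.sub_apply, LinearMap.proj_apply, LinearMap.proj_apply, Pi.single_eq_same,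
      Pi.single_eq_of_ne (Ne.symm hij), sub_zero, LinearMap.zero_apply] at h1
    exact one_ne_zero h1
  · intro x
    rw [LinearMap.sub_apply, LinearMap.proj_apply, LinearMap.proj_apply, sub_eq_zero,
      Matrix.mulVecLin_apply, Matrix.permMatrix_mulVec]
    constructor
    · intro h
      have h1 := congrFun h i
      rw [Function.comp_apply, Equiv.swap_apply_left] at h1
      exact h1.symm
    · intro h
      funext k
      rw [Function.comp_apply]
      by_cases hk : k = i
      · rw [hk, Equiv.swap_apply_left, h]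
      · by_cases hk' : k = j
        · rw [hk', Equiv.swap_apply_right, h]
        · rw [Equiv.swap_apply_of_ne_of_ne hk hk']

theorem hg_rank (i : Fin (n + 1)) {z : ℂ} (hz : z ≠ 1) : (hg i z - 1).rank = 1 := by
  rw [rank_one_iff]
  refine finrank_of_functional (f := (LinearMap.proj i : (Fin (n + 1) → ℂ) →ₗ[ℂ] ℂ)) ?_ ?_
  · intro h
    have h1 := LinearMap.congr_fun h (Pi.single i 1)
    rw [LinearMap.proj_apply, Pi.single_eq_same, LinearMap.zero_apply] at h1
    exact one_ne_zero h1
  · intro x
    rw [LinearMap.proj_apply]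
    constructor
    · intro h
      have h1 := congrFun h i
      rw [hg_apply, if_pos rfl] at h1
      have h2 : (z - 1) * x i = 0 := by linear_combination h1
      exact (mul_eq_zero.1 h2).resolve_left (sub_ne_zero.2 hz)
    · intro h
      funext k
      rw [hg_apply]
      by_cases hk : k = i
      · rw [hk, h, mul_zero]
      · rw [if_neg hk, one_mul]

/-- a group of matrices which preserves a finite spanning set is finite -/
theorem finite_of_span {S : Set (GL (Fin (n + 1)) ℂ)} {ι : Type*} [Finite ι]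
    (e : ι → Fin (n + 1) → ℂ) (he : ∀ i, Pi.single i 1 ∈ Set.range e)
    (hS : ∀ g ∈ S, ∀ x ∈ Set.range e, (g : Matrix (Fin (n + 1)) (Fin (n + 1)) ℂ).mulVec x ∈ Set.range e) :
    Finite (Subgroup.closure S) := by
  set Y : Set (Fin (n + 1) → ℂ) := Set.range e with hY
  have hYf : Finite Y := (Set.finite_range e).to_subtype
  have key : ∀ g ∈ Subgroup.closure S, ∀ x ∈ Y, (g : Matrix (Fin (n + 1)) (Fin (n + 1)) ℂ).mulVec x ∈ Y := by
    intro g hg
    induction hg using Subgroup.closure_induction with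
    | mem g hg => exact hS g hg
    | one =>
      intro x hx
      rw [Units.val_one, Matrix.one_mulVec]
      exact hx
    | mul g h _ _ ihg ihh =>
      intro x hx
      rw [Units.val_mul, ← Matrix.mulVec_mulVec]
      exact ihg _ (ihh x hx)
    | inv g _ ih =>
      intro x hx
      let φ : Y → Y := fun y => ⟨Matrix.mulVec (g : Matrix (Fin (n + 1)) (Fin (n + 1)) ℂ)
        (y : Fin (n + 1) → ℂ), ih y y.2⟩
      have hinv : ∀ y : Fin (n + 1) → ℂ,
          ((g⁻¹ : GL (Fin (n + 1)) ℂ) : Matrix _ _ ℂ).mulVec ((g : Matrix (Fin (n + 1)) (Fin (n + 1)) ℂ).mulVec y) = y := by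
        intro y
        rw [Matrix.mulVec_mulVec, ← Units.val_mul, inv_mul_cancel, Units.val_one,
          Matrix.one_mulVec]
      have hφ : Function.Injective φ := by
        intro y z hyz
        have h1 : (g : Matrix (Fin (n + 1)) (Fin (n + 1)) ℂ).mulVec y = (g : Matrix (Fin (n + 1)) (Fin (n + 1)) ℂ).mulVec z :=
          congrArg Subtype.val hyz
        apply Subtype.ext
        rw [← hinv y, h1, hinv]
      obtain ⟨y, hy⟩ := Finite.injective_iff_surjective.1 hφ ⟨x, hx⟩
      have h1 : (g : Matrix (Fin (n + 1)) (Fin (n + 1)) ℂ).mulVec y = x := congrArg Subtype.val hy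
      rw [← h1, hinv]
      exact y.2
  refine Finite.of_injective (fun g : Subgroup.closure S => fun y : Y =>
    (⟨Matrix.mulVec ((g : GL (Fin (n + 1)) ℂ) : Matrix (Fin (n + 1)) (Fin (n + 1)) ℂ)
      (y : Fin (n + 1) → ℂ), key g g.2 y y.2⟩ : Y)) ?_
  intro g h hgh
  apply Subtype.ext
  apply Units.ext
  ext s t
  have h1 := congrArg Subtype.val (congrFun hgh ⟨Pi.single t 1, he t⟩)
  have h2 := congrFun h1 s
  simp only [Matrix.mulVec_single_one] at h2
  exact h2

end Pool.Agent.L5helper21.RG
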