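import Pool.Agent.L5helper21.RG.Stab

/-!
# Simple bundles invariant under a group with an orbit of odd length
-/

set_option autoImplicit false
set_option maxHeartbeats 400000

open MvPolynomial H960VB H938TB Pool.Agent.W615 Pool.Agent.W467.FO
open Pool.Agent.L5helper21.DS

namespace Pool.Agent.L5helper21.RG

variable {n : ℕ} {E : Bundle2 n}

theorem exists_fix {T : Module.End ℂ (Fin (n + 1) → ℂ)}
    (h3 : 3 ≤ Module.finrank ℂ (LinearMap.ker (T - (1 : ℂ) • LinearMap.id))) :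
    ∃ x : Fin (n + 1) → ℂ, x ≠ 0 ∧ T x = x := by
  have h4 : LinearMap.ker (T - (1 : ℂ) • LinearMap.id) ≠ ⊥ := by
    intro h4
    rw [h4, finrank_bot] at h3
    omega
  obtain ⟨x, hx, hx0⟩ := Submodule.exists_mem_ne_zero_of_ne_bot h4
  rw [LinearMap.mem_ker, LinearMap.sub_apply, LinearMap.smul_apply, LinearMap.id_apply,
    one_smul, sub_eq_zero] at hx
  exact ⟨x, hx0, hx⟩

/-- normalisation of the lift of a map with a large fixed space -/
theorem exists_nrm2 (hE : ¬ E.Splits) (hS : Simp E) (W : Wedge (triv E)) (hn : 1 ≤ n)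
    {T : Module.End ℂ (Fin (n + 1) → ℂ)} (hTi : Function.Injective T) {m : ℕ} (hm0 : m ≠ 0)
    (hm : T ^ m = 1)
    (h3 : 3 ≤ Module.finrank ℂ (LinearMap.ker (T - (1 : ℂ) • LinearMap.id))) (O : GOp E T) :
    ∃ O' : GOp E T, Nrm W O' ∧ ∀ d, O'.lin d ^ m = 1 := by
  obtain ⟨c, hc0, hc⟩ := pow_const hS W O hm
  obtain ⟨r, hr⟩ : ∃ r : ℂ, r ^ m = c := IsAlgClosed.exists_pow_nat_eq c (Nat.pos_of_ne_zero hm0)
  have hr0 : r ≠ 0 := by
    rintro rfl
    apply hc0
    rw [← hr, zero_pow hm0]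
  let O₁ := scale O (inv_ne_zero hr0)
  obtain ⟨κ, hκ0, hκ⟩ := O₁.det W hn hTi
  have hpow : ∀ d, (O₁.lin d) ^ m = 1 := by
    intro d
    rw [scale_lin, smul_pow, hc d, smul_smul, ← hr, ← mul_pow, inv_mul_cancel₀ hr0, one_pow,
      one_smul]
  obtain ⟨u, hu, hu'⟩ := scal hE W O₁ h3 hκ0 hκ hm0 hpow
  have hu0 : u ≠ 0 := by
    rintro rfl
    apply hκ0
    rw [← hu, zero_mul]
  let O₂ := scale O₁ (inv_ne_zero hu0)
  have hfix : ∀ (d : ℤ) (s : Vec E.a n), Sec E d s → ∀ x, T x = x →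
      evv (O₂.D s) x = evv s x := by
    intro d s hs x hx
    show evv (u⁻¹ • O₁.D s) x = evv s x
    rw [evv_smul, hu' d s hs x hx, smul_smul, inv_mul_cancel₀ hu0, one_smul]
  refine ⟨O₂, ⟨hfix, fun a b s t hs ht => ?_⟩, ?_⟩
  · have h1 : O₂.D s = fun i => C u⁻¹ * O₁.D s i := by
      funext i
      show (u⁻¹ • O₁.D s) i = _
      rw [Pi.smul_apply, smul_eq_C_mul]
    have h2 : O₂.D t = fun i => C u⁻¹ * O₁.D t i := by
      funext i
      show (u⁻¹ • O₁.D t) i = _
      rw [Pi.smul_apply, smul_eq_C_mul]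
    rw [h1, h2, W.smul _ _ _ (O₁.sec _ _ hs).ker (ker_mul (O₁.sec _ _ ht).ker _),
      wd_mul_right W (O₁.sec _ _ ht).ker (O₁.sec _ _ hs).ker, hκ a b s t hs ht, ← hu,
      ← mul_assoc, ← mul_assoc, ← C_mul, ← C_mul]
    have h3 : u⁻¹ * u⁻¹ * (u * u) = 1 := by field_simp
    rw [h3, C_1, one_mul]
  · -- the order
    obtain ⟨c', hc'0, hc'⟩ := pow_const hS W O₂ hm
    obtain ⟨x, hx0, hx⟩ := exists_fix h3
    obtain ⟨e, t, ht, ht0⟩ := exists_val W hx0
    have h5 : ∀ k : ℕ, evv (((O₂.lin e ^ k) ⟨t, ht⟩ : S0 E e) : Vec E.a n) x = evv t x := by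
      intro k
      induction k with
      | zero => rfl
      | succ k ih =>
        rw [pow_succ', Module.End.mul_apply]
        have h6 := hfix e _ ((O₂.lin e ^ k) ⟨t, ht⟩).2 x hx
        rw [← ih]
        exact h6
    have h6 := h5 m
    rw [hc' e] at h6
    have h7 : evv (c' • t) x = evv t x := h6
    rw [evv_smul] at h7
    have h8 : (c' - 1) • evv t x = 0 := by
      rw [sub_smul, h7, one_smul, sub_self]
    have h9 : c' = 1 := sub_eq_zero.1 ((smul_eq_zero.1 h8).resolve_right ht0)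
    intro d
    rw [hc' d, h9, one_smul]

section act
variable {Δ : Type*} [Group Δ] {U : Δ →* Module.End ℂ (Fin (n + 1) → ℂ)} (A : Act E U)

/-- the stabiliser of a vector -/
def stab {Δ : Type*} [Group Δ] (U : Δ →* Module.End ℂ (Fin (n + 1) → ℂ)) (p : Fin (n + 1) → ℂ) :
    Subgroup Δ where
  carrier := {x | U x p = p}
  one_mem' := by
    show U 1 p = p
    rw [map_one]
    rfl
  mul_mem' := by
    intro x y hx hy
    show U (x * y) p = p
    rw [map_mul, Module.End.mul_apply]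
    rw [show U y p = p from hy, show U x p = p from hx]
  inv_mem' := by
    intro x hx
    show U x⁻¹ p = p
    have h1 := T_inv U x p
    rwa [show U x p = p from hx] at h1

theorem Act.D_sub (x : Δ) {d : ℤ} {s t : Vec E.a n} (hs : Sec E d s) (ht : Sec E d t) :
    Sec E d (s - t) ∧ A.D x (s - t) = A.D x s - A.D x t := by
  have h1 := (⟨s, hs⟩ - ⟨t, ht⟩ : S0 E d).2
  refine ⟨h1, ?_⟩
  have h2 := congrArg Subtype.val (map_sub (A.lin x d) ⟨s, hs⟩ ⟨t, ht⟩)
  exact h2

theorem Act.D_smul (x : Δ) {d : ℤ} {s : Vec E.a n} (hs : Sec E d s) (c : ℂ) :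
    A.D x (c • s) = c • A.D x s := by
  have h1 := congrArg Subtype.val (map_smul (A.lin x d) c ⟨s, hs⟩)
  exact h1

theorem evv_sub {a : ℕ} (G H : Vec a n) (x : Fin (n + 1) → ℂ) :
    evv (G - H) x = evv G x - evv H x := map_sub (evl a x) G H

/-- an element acts by the scalar `c` on the fibre at `p` -/
def Act.At (p : Fin (n + 1) → ℂ) (x : Δ) (c : ℂ) : Prop :=
  ∀ (d : ℤ) (s : Vec E.a n), Sec E d s → evv (A.D x s) p = c • evv s p

theorem Act.At.mul {A : Act E U} {p : Fin (n + 1) → ℂ} {x y : Δ} {c c' : ℂ} (hx : A.At p x c)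
    (hy : A.At p y c') : A.At p (x * y) (c * c') := by
  intro d s hs
  rw [A.D_mul x y hs, hy d _ (A.sec hs), hx d s hs, smul_smul, mul_comm]

theorem Act.at_one (p : Fin (n + 1) → ℂ) : A.At p 1 1 := by
  intro d s hs
  rw [A.D_one hs, one_smul]

theorem Act.At.uniq {A : Act E U} (W : Wedge (triv E)) {p : Fin (n + 1) → ℂ} (hp : p ≠ 0) {x : Δ}
    {c c' : ℂ} (hx : A.At p x c) (hy : A.At p x c') : c = c' := by
  obtain ⟨e, t, ht, ht0⟩ := exists_val W hp
  have h1 : (c - c') • evv t p = 0 := by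
    rw [sub_smul, ← hx e t ht, ← hy e t ht, sub_self]
  exact sub_eq_zero.1 ((smul_eq_zero.1 h1).resolve_right ht0)

/-- conjugation -/
theorem Act.At.conj {A : Act E U} (W : Wedge (triv E))
    (hdet : ∀ x, ∃ κ : ℂ, κ ≠ 0 ∧ ∀ (a b : ℤ) (s t : Vec E.a n), Sec E a s → Sec E b t →
      W.wd (A.D x s) (A.D x t) = C κ * lsub (U x) (W.wd s t))
    {p : Fin (n + 1) → ℂ} (hp : p ≠ 0) {x y : Δ} {c : ℂ} (hx : A.At (U y p) x c) :
    A.At p (y⁻¹ * x * y) c := by
  intro d s hs
  have hs' : Sec E d (A.D y⁻¹ s) := A.sec hs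
  have h1 : A.D (y⁻¹ * x * y) s = A.D y (A.D x (A.D y⁻¹ s)) := by
    rw [A.D_mul (y⁻¹ * x) y hs, A.D_mul y⁻¹ x hs]
  have h2 : A.D y (A.D y⁻¹ s) = s := by
    rw [← A.D_mul y⁻¹ y hs, inv_mul_cancel, A.D_one hs]
  have h3 : Sec E d (c • A.D y⁻¹ s) := (c • (⟨_, hs'⟩ : S0 E d)).2
  obtain ⟨h4, h5⟩ := A.D_sub y (A.sec (g := x) hs') h3
  obtain ⟨κ, hκ0, hκ⟩ := hdet y
  have h6 : evv (A.D y (A.D x (A.D y⁻¹ s) - c • A.D y⁻¹ s)) p = 0 := by
    refine zero_iff W (T_inj U y) (A.O y) hκ hκ0 h4 hp ?_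
    rw [evv_sub, evv_smul, hx d _ hs', sub_self]
  rw [h5, A.D_smul y hs', h2, evv_sub, evv_smul, sub_eq_zero] at h6
  rw [h1, h6]

end act

/-- the main criterion: an action of a finite group which is generated by elements acting as the
identity over their fixed vectors, all of whose stabilisers act by signs, is without signs if
there is an orbit of odd length -/
theorem no_sign {Δ : Type*} [Group Δ] [Finite Δ] {U : Δ →* Module.End ℂ (Fin (n + 1) → ℂ)}
    (A : Act E U) (hE : ¬ E.Splits) (W : Wedge (triv E)) (hn : 1 ≤ n)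
    {X : Set Δ} (hX : Subgroup.closure X = ⊤) (hbig : ∀ x ∈ X, Big U x)
    (hfix : ∀ x ∈ X, ∀ v, U x v = v → A.At v x 1)
    {p : Fin (n + 1) → ℂ} (hp : p ≠ 0)
    (hsign : ∀ x, U x p = p → ∃ c : ℂ, c ≠ 0 ∧ A.At p x c)
    (hodd : Odd (stab U p).index)
    {z : Δ} {c : ℂ} (hcc : c * c = 1) (hz : ∀ (d : ℤ) (s : Vec E.a n), Sec E d s →
      A.D z s = c • s) (hzc : ∀ x, z * x = x * z) (hzp : U z p = p) : c = 1 := by
  classical
  have hdet : ∀ x, ∃ κ : ℂ, κ ≠ 0 ∧ ∀ (a b : ℤ) (s t : Vec E.a n), Sec E a s → Sec E b t →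
      W.wd (A.D x s) (A.D x t) = C κ * lsub (U x) (W.wd s t) :=
    fun x => (A.O x).det W hn (T_inj U x)
  -- the character of the stabiliser
  choose φ hφ0 hφ using hsign
  let ϕ : stab U p →* ℂˣ :=
    { toFun := fun x => Units.mk0 (φ x.1 x.2) (hφ0 x.1 x.2)
      map_one' := by
        apply Units.ext
        show φ 1 _ = 1
        exact (hφ 1 _).uniq W hp (A.at_one p)
      map_mul' := by
        intro x y
        apply Units.ext
        show φ (x.1 * y.1) _ = φ x.1 _ * φ y.1 _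
        exact (hφ (x.1 * y.1) _).uniq W hp ((hφ x.1 x.2).mul (hφ y.1 y.2)) }
  have hϕ : ∀ (x : stab U p) (c : ℂ), A.At p x.1 c → ((ϕ x : ℂˣ) : ℂ) = c := fun x c hc =>
    (hφ x.1 x.2).uniq W hp hc
  have : (stab U p).FiniteIndex := inferInstance
  -- the transfer is trivial on the generators
  have h1 : ∀ x ∈ X, MonoidHom.transfer ϕ x = 1 := by
    intro x hx
    have : Fintype (Quotient (MulAction.orbitRel (Subgroup.zpowers x) (Δ ⧸ stab U p))) :=
      Fintype.ofFinite _
    rw [MonoidHom.transfer_eq_prod_quotient_orbitRel_zpowers_quot]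
    refine Finset.prod_eq_one fun q _ => ?_
    set k := Function.minimalPeriod (x • ·) q.out
    set y : Δ := q.out.out
    have hmem : y⁻¹ * x ^ k * y ∈ stab U p := QuotientGroup.out_conj_pow_minimalPeriod_mem _ x q.out
    apply Units.ext
    show ((ϕ ⟨y⁻¹ * x ^ k * y, hmem⟩ : ℂˣ) : ℂ) = 1
    refine hϕ _ _ (Act.At.conj W hdet hp ?_)
    -- the power acts as the identity
    have hfx : U (x ^ k) (U y p) = U y p := by
      have h2 : U (y⁻¹ * x ^ k * y) p = p := hmem
      rw [map_mul, map_mul, Module.End.mul_apply, Module.End.mul_apply] at h2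
      have h3 := congrArg (U y) h2
      rw [← Module.End.mul_apply, ← map_mul, mul_inv_cancel, map_one] at h3
      exact h3
    have hb : Big U (x ^ k) := by
      refine (hbig x hx).trans (Submodule.finrank_mono ?_)
      intro v hv
      rw [LinearMap.mem_ker, LinearMap.sub_apply, LinearMap.smul_apply, LinearMap.id_apply,
        one_smul, sub_eq_zero] at hv ⊢
      rw [map_pow]
      clear_value k
      clear hmem hfx
      induction k with
      | zero => rfl
      | succ k ih => rw [pow_succ, Module.End.mul_apply, hv, ih]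
    obtain ⟨κ, hκ0, hκ⟩ := hdet (x ^ k)
    obtain ⟨u, hu, hu'⟩ := scal hE W (A.O (x ^ k)) hb hκ0 hκ (N := Nat.card Δ) Nat.card_pos.ne'
      (fun d => A.lin_card (x ^ k) d)
    have hu1 : u = 1 := by
      obtain ⟨w, hw0, hw⟩ := exists_fix (hbig x hx)
      obtain ⟨e, t, ht, ht0⟩ := exists_val W hw0
      have h4 : ∀ k : ℕ, U (x ^ k) w = w ∧ A.At w (x ^ k) 1 := by
        intro k
        induction k with
        | zero =>
          rw [pow_zero]
          refine ⟨?_, A.at_one w⟩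
          rw [map_one]
          rfl
        | succ k ih =>
          rw [pow_succ]
          refine ⟨?_, ?_⟩
          · rw [map_mul, Module.End.mul_apply, hw, ih.1]
          · have h5 := ih.2.mul (hfix x hx w hw)
            rwa [mul_one] at h5
      have h5 : A.At w (x ^ k) u := fun d s hs => hu' d s hs w (h4 k).1
      exact h5.uniq W hw0 (h4 k).2
    intro d s hs
    rw [← hu1]
    exact hu' d s hs _ hfx
  have h2 : ∀ x, MonoidHom.transfer ϕ x = 1 := by
    intro x
    have hx : x ∈ Subgroup.closure X := by rw [hX]; trivial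
    have h3 : Subgroup.closure X ≤ (MonoidHom.transfer ϕ).ker := by
      rw [Subgroup.closure_le]
      exact h1
    exact h3 hx
  -- the value on the central element
  have hzpow : ∀ k : ℕ, ∀ x, z ^ k * x = x * z ^ k := fun k x =>
    (show Commute z x from hzc x).pow_left k
  have h3 := MonoidHom.transfer_eq_pow ϕ z (by
    intro k g _
    rw [mul_assoc, hzpow, ← mul_assoc, inv_mul_cancel, one_mul])
  rw [h2 z] at h3
  have hat : ∀ k : ℕ, A.At p (z ^ k) (c ^ k) := by
    intro k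
    induction k with
    | zero => rw [pow_zero, pow_zero]; exact A.at_one p
    | succ k ih =>
      rw [pow_succ, pow_succ]
      exact ih.mul fun d s hs => by rw [hz d s hs, evv_smul]
  have h4 := hϕ ⟨z ^ (stab U p).index, MonoidHom.transfer_eq_pow_aux z (by
    intro k g _
    rw [mul_assoc, hzpow, ← mul_assoc, inv_mul_cancel, one_mul])⟩ _ (hat _)
  rw [← h3] at h4
  obtain ⟨m, hm⟩ := hodd
  rw [hm, pow_succ, pow_mul, pow_two, hcc, one_pow, one_mul] at h4
  exact h4.symm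

end Pool.Agent.L5helper21.RG
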