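import Pool.Agent.L5helper21.RG.Odd

/-!
# Simple bundles invariant under a group with an orbit of odd length: descent
-/

set_option autoImplicit false
set_option maxHeartbeats 400000

open MvPolynomial H960VB H938TB Pool.Agent.W615 Pool.Agent.W467.FO
open Pool.Agent.L5helper21.DS

namespace Pool.Agent.L5helper21.RG

variable {n : ℕ} {E : Bundle2 n}

section
variable {Γ : Type*} [Group Γ] {T : Γ →* Module.End ℂ (Fin (n + 1) → ℂ)}

/-- a finite family of nonzero semi-invariant sections which generates the bundle -/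
theorem Act.family2 (A : Act E T) (W : Wedge (triv E)) {χ : Γ → ℂ}
    (hP : ∀ v : Fin (n + 1) → ℂ, v ≠ 0 → ∃ (d e : ℤ) (R R' : Vec E.a n),
      A.Semi χ d R ∧ A.Semi χ e R' ∧ eval v (W.wd R R') ≠ 0) :
    ∃ (N : ℕ) (δ : Fin N → ℤ) (g : Fin N → Vec E.a n), (∀ j, A.Semi χ (δ j) (g j)) ∧
      (∀ j, g j ≠ 0) ∧
      ∀ x : Fin (n + 1) → ℂ, x ≠ 0 → ∃ j k, eval x (W.wd (g j) (g k)) ≠ 0 := by
  classical
  set S : Set (MvPolynomial (Fin (n + 1)) ℂ) := {p | p ≠ 0 ∧ ∃ (d e : ℤ) (R R' : Vec E.a n),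
    A.Semi χ d R ∧ A.Semi χ e R' ∧ p = W.wd R R'} with hS
  obtain ⟨s, hs1, hs2⟩ := (Submodule.fg_span_iff_fg_span_finset_subset
    (R := MvPolynomial (Fin (n + 1)) ℂ) S).1 (IsNoetherian.noetherian _)
  have h : ∀ p : s, ∃ (d : Bool → ℤ) (R : Bool → Vec E.a n), (∀ b, A.Semi χ (d b) (R b)) ∧
      (p : MvPolynomial (Fin (n + 1)) ℂ) = W.wd (R false) (R true) ∧ ∀ b, R b ≠ 0 := by
    intro p
    obtain ⟨hp0, d, e, R, R', hR, hR', hp⟩ := hs1 p.2
    refine ⟨fun b => if b then e else d, fun b => if b then R' else R, fun b => ?_, hp, ?_⟩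
    · cases b
      · exact hR
      · exact hR'
    · have h1 : R ≠ 0 := by
        rintro rfl
        apply hp0
        rw [hp]
        exact wd_zero_left W ker_zero hR'.1.ker fun _ => rfl
      have h2 : R' ≠ 0 := by
        rintro rfl
        apply hp0
        have h3 : W.wd R (0 : Vec E.a n) = - W.wd (0 : Vec E.a n) R := W.anti _ _ hR.1.ker ker_zero
        have h4 : W.wd (0 : Vec E.a n) R = 0 := wd_zero_left W ker_zero hR.1.ker fun _ => rfl
        rw [hp, h3, h4, neg_zero]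
      intro b
      cases b
      · exact h1
      · exact h2
  choose d R hR hp hne using h
  let ι := s × Bool
  let ε : ι ≃ Fin (Fintype.card ι) := Fintype.equivFin ι
  refine ⟨Fintype.card ι, fun j => d (ε.symm j).1 (ε.symm j).2,
    fun j => R (ε.symm j).1 (ε.symm j).2, fun j => hR _ _, fun j => hne _ _, fun x hx => ?_⟩
  by_contra hc
  push Not at hc
  obtain ⟨a, b, G, G', hG, hG', hne⟩ := hP x hx
  apply hne
  have h1 : W.wd G G' ∈ Submodule.span (MvPolynomial (Fin (n + 1)) ℂ) S :=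
    Submodule.subset_span ⟨fun h0 => hne (by rw [h0, map_zero]), a, b, G, G', hG, hG', rfl⟩
  rw [hs2] at h1
  have h2 : Submodule.span (MvPolynomial (Fin (n + 1)) ℂ) (s : Set (MvPolynomial (Fin (n + 1)) ℂ)) ≤
      RingHom.ker (eval x) := by
    rw [Submodule.span_le]
    intro p hp'
    show eval x p = 0
    have h3 := hc (ε (⟨p, hp'⟩, false)) (ε (⟨p, hp'⟩, true))
    simp only [Equiv.symm_apply_apply] at h3
    rw [← hp ⟨p, hp'⟩] at h3
    exact h3
  exact h2 h1

/-- the bundle given by semi-invariant sections, with the degrees -/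
theorem descend2 (hn1 : 1 ≤ n) (W : Wedge (triv E)) (A : Act E T)
    (χ : Γ →* ℂ) {S : Set Γ}
    (hP : ∀ v : Fin (n + 1) → ℂ, v ≠ 0 → ∃ (d e : ℤ) (R R' : Vec E.a n),
      A.Semi χ d R ∧ A.Semi χ e R' ∧ eval v (W.wd R R') ≠ 0)
    (hχ' : ∀ g ∈ S, ∀ (a b : ℤ) (s t : Vec E.a n), Sec E a s → Sec E b t →
        W.wd (A.D g s) (A.D g t) = C (χ g * χ g) * lsub (T g) (W.wd s t)) :
    ∃ (F : Bundle2 n) (Ψ : Vec E.a n → Vec F.a n),
      ((∀ k i, ∀ s ∈ S, lsub (T s) (F.B k i) = F.B k i) ∧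
      (∀ d G, E.IsSection d G → F.IsSection d (Ψ G)) ∧
      (∀ d G G', E.IsSection d G → E.IsSection d G' → Ψ (G + G') = Ψ G + Ψ G') ∧
      (∀ d (p : MvPolynomial (Fin (n + 1)) ℂ) G, E.IsSection d G → Ψ (p • G) = p • Ψ G) ∧
      (∀ d H, F.IsSection d H → ∃! G, E.IsSection d G ∧ Ψ G = H)) ∧
      ∃ (δ : Fin F.a → ℤ) (R : Fin F.a → Vec E.a n), (∀ i, A.Semi χ (δ i) (R i)) ∧
        (∀ i, R i ≠ 0) ∧ (∀ i, F.β i = W.κ.1 + δ i) ∧
        ∀ x : Fin (n + 1) → ℂ, x ≠ 0 → ∃ j k, eval x (W.wd (R j) (R k)) ≠ 0 := by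
  obtain ⟨N, δ, g, hg, hg0, hgen⟩ := A.family2 W (χ := χ) hP
  have hg1 : ∀ j, Sec E (δ j) (g j) := fun j => (hg j).1
  have hinv : ∀ s ∈ S, ∀ j k, lsub (T s) (W.wd (g j) (g k)) = W.wd (g j) (g k) :=
    fun s hs j k => A.wd_inv W hχ' (hg j) (hg k) hs
  set Q := skewOf W hg1 hgen with hQ
  have hrow : ∀ H : Vec N n, (∀ x : Fin (n + 1) → ℂ, x ≠ 0 →
      evv H x ∈ Q.bundle.fib x) ↔ ∀ i j k, H i * W.wd (g j) (g k) -
        H j * W.wd (g i) (g k) + H k * W.wd (g i) (g j) = 0 := by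
    intro H
    have hmem : ∀ x : Fin (n + 1) → ℂ, evv H x ∈ Q.bundle.fib x ↔
        ∀ i j k, eval x (H i * W.wd (g j) (g k) -
        H j * W.wd (g i) (g k) + H k * W.wd (g i) (g j)) = 0 := fun x => mem_skew' Q x H
    constructor
    · intro h i j k
      have h1 : (H i * W.wd (g j) (g k) - H j * W.wd (g i) (g k) +
          H k * W.wd (g i) (g j)) * X 0 = 0 := by
        apply MvPolynomial.funext
        intro x
        rw [map_mul, map_zero]
        by_cases hx : x = 0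
        · rw [hx, eval_X]
          simp
        · rw [(hmem x).1 (h x hx) i j k, zero_mul]
      exact (mul_eq_zero.1 h1).resolve_right (X_ne_zero 0)
    · intro h x _
      rw [hmem x]
      intro i j k
      rw [h i j k, map_zero]
  let Ψ : Vec E.a n → Vec N n := fun G i => W.wd G (g i)
  refine ⟨Q.bundle, Ψ, ⟨?_, ?_, ?_, ?_, ?_⟩, δ, g, hg, hg0, fun i => rfl, hgen⟩
  · intro r l γ hγ
    show lsub (T γ) (row (fun j k => W.wd (g j) (g k)) ((eqv N).symm r) l) =
      row (fun j k => W.wd (g j) (g k)) ((eqv N).symm r) l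
    unfold row
    simp only [map_add, map_sub, apply_ite (lsub (T γ)), map_zero, hinv γ hγ]
  · intro d G hG
    have hG' := sec_iff.2 hG
    refine ⟨fun i => ?_, ?_⟩
    · have h1 := wd_homZ W hG' (hg1 i)
      show HomZ (W.wd G (g i)) (W.κ.1 + δ i + d)
      convert h1 using 1
      ring
    · refine (hrow (Ψ G)).2 fun i j k => ?_
      exact W.four G (g i) (g j) (g k) hG'.ker (hg1 i).ker (hg1 j).ker (hg1 k).ker
  · intro d G G' hG hG'
    funext i
    exact wd_add_left W (sec_iff.2 hG).ker (sec_iff.2 hG').ker (hg1 i).ker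
  · intro d p G hG
    funext i
    exact W.smul p G (g i) (sec_iff.2 hG).ker (hg1 i).ker
  · intro d H hH
    obtain ⟨G, hG1, hG2⟩ := surj W hn1 hg1 hgen (d := d) (H := H) (fun i => hH.1 i)
      ((hrow H).1 hH.2)
    refine ⟨G, ⟨sec_iff.1 hG1, funext hG2⟩, ?_⟩
    rintro G' ⟨hG', hG''⟩
    refine inj_of_gen W hg1 hgen (sec_iff.2 hG') hG1 fun i => ?_
    rw [hG2 i]
    exact congrFun hG'' i

end

/-- a simple bundle which is invariant under a finite group, all of whose stabilisers are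
generated by elements with a large fixed space, if one of them has odd index -/
theorem odd_simple {Γ : Type*} [Group Γ] [Finite Γ] (T : Γ →* Module.End ℂ (Fin (n + 1) → ℂ))
    (hn : 3 ≤ n) (hE : ¬ E.Splits) (hsimp : Simp E) (W : Wedge (triv E)) {S : Set Γ}
    (hS : Subgroup.closure S = ⊤) (hbig : ∀ s ∈ S, Big T s)
    (hL : ∀ s ∈ S, Nonempty (GOp E (T s)))
    (hst : ∀ v, v ≠ 0 → ∀ g, T g v = v → g ∈ Subgroup.closure {h | h ∈ S ∧ T h v = v})
    {p : Fin (n + 1) → ℂ} (hp : p ≠ 0) (hodd : Odd (stab T p).index) :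
    ∃ (F : Bundle2 n) (Ψ : Vec E.a n → Vec F.a n),
      ((∀ k i s, lsub (T s) (F.B k i) = F.B k i) ∧
      (∀ d G, E.IsSection d G → F.IsSection d (Ψ G)) ∧
      (∀ d G G', E.IsSection d G → E.IsSection d G' → Ψ (G + G') = Ψ G + Ψ G') ∧
      (∀ d (p : MvPolynomial (Fin (n + 1)) ℂ) G, E.IsSection d G → Ψ (p • G) = p • Ψ G) ∧
      (∀ d H, F.IsSection d H → ∃! G, E.IsSection d G ∧ Ψ G = H)) ∧
      ∃ (δ : Fin F.a → ℤ) (R : Fin F.a → Vec E.a n), (∀ i, Sec E (δ i) (R i)) ∧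
        (∀ i, R i ≠ 0) ∧ (∀ i, F.β i = W.κ.1 + δ i) ∧
        (∀ x : Fin (n + 1) → ℂ, x ≠ 0 → ∃ j k, eval x (W.wd (R j) (R k)) ≠ 0) ∧
        (∀ g j k, lsub (T g) (W.wd (R j) (R k)) = W.wd (R j) (R k)) ∧
        ∀ g, ∃ O : GOp E (T g), ∀ i, O.D (R i) = R i := by
  classical
  -- normalised lifts
  have h1 : ∀ s : S, ∃ O : GOp E (T s), Nrm W O ∧ ∀ d, O.lin d ^ orderOf (s : Γ) = 1 := by
    intro s
    obtain ⟨O⟩ := hL s s.2
    refine exists_nrm2 hE hsimp W (by omega) (T_inj T s) (orderOf_pos (s : Γ)).ne' ?_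
      (hbig s s.2) O
    rw [← map_pow, pow_orderOf_eq_one, map_one]
  choose O hO hO' using h1
  let X : Set (Pr E Γ) := Set.range fun s : S => mkPr (O s)
  have hfin : ∀ x ∈ X, IsOfFinOrder x := by
    rintro _ ⟨s, rfl⟩
    refine isOfFinOrder_iff_pow_eq_one.2 ⟨orderOf (s : Γ), orderOf_pos _, ?_⟩
    apply Prod.ext
    · exact pow_orderOf_eq_one _
    · apply MulOpposite.unop_injective
      funext d
      apply LinearEquiv.ext
      intro t
      rw [mkPr_pow, hO' s d]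
      rfl
  let Δ : Subgroup (Pr E Γ) := Subgroup.closure X
  have hΔ : ∀ x ∈ Δ, Lft T W x := by
    intro x hx
    have h2 : x ∈ Submonoid.closure X := by
      rw [← Subgroup.closure_toSubmonoid_of_isOfFinOrder hfin]
      exact hx
    clear hx
    induction h2 using Submonoid.closure_induction with
    | mem x hx =>
      obtain ⟨s, rfl⟩ := hx
      exact ⟨O s, fun d t => rfl, (hO s).det⟩
    | one => exact lft_one T W
    | mul x y _ _ ihx ihy => exact lft_mul T W ihx ihy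
  -- the group is finite
  let f : Δ →* Γ := (MonoidHom.fst _ _).comp Δ.subtype
  have hker : ∀ x : f.ker, ∃ c : ℂ, c * c = 1 ∧
      ∀ d (s : S0 E d), (((x : Δ) : Pr E Γ).2.unop d s : S0 E d) = c • s := by
    intro x
    obtain ⟨P, hP, hP'⟩ := hΔ _ (x : Δ).2
    have hx1 : ((x : Δ) : Pr E Γ).1 = 1 := x.2
    have hx2 : T ((x : Δ) : Pr E Γ).1 = LinearMap.id := by rw [hx1, map_one]; rfl
    obtain ⟨c, hc⟩ := hsimp _ hx2 P
    refine ⟨c, ?_, fun d s => ?_⟩
    · obtain ⟨a, b, G, G', hG, hG', hne⟩ := exists_sec_ne W (fun _ => 1)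
        (fun h => by simpa using congrFun h 0)
      have h2 := hP' a b G G' hG hG'
      have h3 : P.D G = fun i => C c * G i := by
        rw [hc a G hG]
        funext i
        rw [Pi.smul_apply, smul_eq_C_mul]
      have h4 : P.D G' = fun i => C c * G' i := by
        rw [hc b G' hG']
        funext i
        rw [Pi.smul_apply, smul_eq_C_mul]
      rw [h3, h4, W.smul _ _ _ hG.ker (ker_mul hG'.ker _), wd_mul_right W hG'.ker hG.ker] at h2
      have h5 := congrArg (eval (fun _ => (1 : ℂ))) h2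
      rw [map_mul, map_mul, eval_C, eval_lsub, hx2, LinearMap.id_apply] at h5
      have h6 : (c * c - 1) * eval (fun _ => (1 : ℂ)) (W.wd G G') = 0 := by
        linear_combination h5
      exact sub_eq_zero.1 ((mul_eq_zero.1 h6).resolve_right hne)
    · rw [hP]
      apply Subtype.ext
      exact hc d s s.2
  choose c hc hc' using hker
  have hfinΔ : Finite Δ := by
    rw [MonoidHom.finite_iff_finite_ker_range f]
    refine ⟨?_, inferInstance⟩
    have h2 : Finite {c : ℂ // c * c = 1} := by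
      refine Set.Finite.subset (s := ({1, -1} : Set ℂ)) (Set.toFinite _) ?_
      intro z hz
      rcases mul_self_eq_one_iff.1 hz with h | h
      · exact Or.inl h
      · exact Or.inr h
    refine Finite.of_injective (fun x : f.ker => (⟨c x, hc x⟩ : {c : ℂ // c * c = 1})) ?_
    intro x y hxy
    have hxy' : c x = c y := congrArg Subtype.val hxy
    apply Subtype.ext
    apply Subtype.ext
    apply Prod.ext
    · have hx1 : ((x : Δ) : Pr E Γ).1 = 1 := x.2
      have hy1 : ((y : Δ) : Pr E Γ).1 = 1 := y.2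
      rw [hx1, hy1]
    · apply MulOpposite.unop_injective
      funext d
      apply LinearEquiv.ext
      intro t
      rw [hc' x, hc' y, hxy']
  have : Fintype Δ := Fintype.ofFinite Δ
  -- the action
  have hΔ' : ∀ x : Δ, ∃ P : GOp E ((T.comp f) x),
      (∀ d (s : S0 E d), (x : Pr E Γ).2.unop d s = P.lin d s) ∧
      ∀ (a b : ℤ) (s t : Vec E.a n), Sec E a s → Sec E b t →
        W.wd (P.D s) (P.D t) = lsub ((T.comp f) x) (W.wd s t) := fun x => hΔ x x.2
  choose P hP hP' using hΔ'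
  let A : Act E (T.comp f) := ⟨P, fun g h d s hs => by
    have h2 := hP (g * h) d ⟨s, hs⟩
    have h3 : ((g * h : Δ) : Pr E Γ).2.unop d ⟨s, hs⟩ =
      (h : Pr E Γ).2.unop d ((g : Pr E Γ).2.unop d ⟨s, hs⟩) := rfl
    rw [h3, hP g, hP h] at h2
    exact (congrArg Subtype.val h2).symm⟩
  have hAD : ∀ (x : Δ) (d : ℤ) (s : Vec E.a n) (hs : Sec E d s),
      A.D x s = ((x : Pr E Γ).2.unop d ⟨s, hs⟩ : S0 E d) := by
    intro x d s hs
    rw [hP]
    rfl
  let X' : Set Δ := ((↑) : Δ → Pr E Γ) ⁻¹' X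
  have hcl : Subgroup.closure X' = ⊤ := Subgroup.closure_closure_coe_preimage
  have hX' : ∀ x ∈ X', ∃ s : S, f x = s ∧ (x : Pr E Γ) = mkPr (O s) := by
    rintro x ⟨s, hs⟩
    refine ⟨s, ?_, hs.symm⟩
    show ((x : Δ) : Pr E Γ).1 = s
    rw [← hs]
    rfl
  have hbig' : ∀ x ∈ X', Big (T.comp f) x := by
    intro x hx
    obtain ⟨s, hs, -⟩ := hX' x hx
    have h2 : (T.comp f) x = T s := by rw [MonoidHom.comp_apply, hs]
    unfold Big
    rw [h2]
    exact hbig s s.2
  have hfix' : ∀ x ∈ X', ∀ v, (T.comp f) x v = v → A.At v x 1 := by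
    intro x hx v hv d s hs
    obtain ⟨σ, hσ, hσ'⟩ := hX' x hx
    rw [MonoidHom.comp_apply, hσ] at hv
    rw [hAD x d s hs, hσ', one_smul]
    exact (hO σ).fix d s hs v hv
  -- elements of the kernel
  have hkerA : ∀ z : Δ, f z = 1 → ∃ c : ℂ, c * c = 1 ∧
      ∀ (d : ℤ) (s : Vec E.a n), Sec E d s → A.D z s = c • s := by
    intro z hz
    refine ⟨c ⟨z, hz⟩, hc _, fun d s hs => ?_⟩
    rw [hAD z d s hs]
    exact congrArg Subtype.val (hc' ⟨z, hz⟩ d ⟨s, hs⟩)
  -- lifting the elements of the stabilisers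
  have hlift : ∀ v, v ≠ 0 → ∀ g, T g v = v → ∃ y : Δ, f y = g ∧ A.At v y 1 := by
    intro v hv g hg
    have hg' := hst v hv g hg
    refine of_closure (P := fun g => ∃ y : Δ, f y = g ∧ A.At v y 1) ⟨1, map_one f, A.at_one v⟩
      ?_ ?_ g hg'
    · rintro g h ⟨y, hy, hy'⟩ ⟨y', hy2, hy2'⟩
      refine ⟨y * y', by rw [map_mul, hy, hy2], ?_⟩
      have h5 := hy'.mul hy2'
      rwa [mul_one] at h5
    · rintro h ⟨hhS, hhv⟩
      have h2 : mkPr (O ⟨h, hhS⟩) ∈ X := ⟨⟨h, hhS⟩, rfl⟩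
      refine ⟨⟨mkPr (O ⟨h, hhS⟩), Subgroup.subset_closure h2⟩, rfl, ?_⟩
      exact hfix' _ h2 v hhv
  have hsurj : Function.Surjective f := by
    intro g
    have hg : g ∈ Subgroup.closure S := by rw [hS]; trivial
    refine of_closure (P := fun g => ∃ y : Δ, f y = g) ⟨1, map_one f⟩ ?_ ?_ g hg
    · rintro g h ⟨y, hy⟩ ⟨y', hy'⟩
      exact ⟨y * y', by rw [map_mul, hy, hy']⟩
    · intro h hh
      have h2 : mkPr (O ⟨h, hh⟩) ∈ X := ⟨⟨h, hh⟩, rfl⟩
      exact ⟨⟨mkPr (O ⟨h, hh⟩), Subgroup.subset_closure h2⟩, rfl⟩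
  -- the stabilisers act by signs
  have hsgn : ∀ v, v ≠ 0 → ∀ x : Δ, (T.comp f) x v = v → ∃ (y z : Δ) (c : ℂ), x = y * z ∧
      f z = 1 ∧ A.At v y 1 ∧ c * c = 1 ∧
      ∀ (d : ℤ) (s : Vec E.a n), Sec E d s → A.D z s = c • s := by
    intro v hv x hx
    obtain ⟨y, hy, hy'⟩ := hlift v hv (f x) hx
    have hz : f (y⁻¹ * x) = 1 := by rw [map_mul, map_inv, hy, inv_mul_cancel]
    obtain ⟨c, hcc, hc⟩ := hkerA _ hz
    exact ⟨y, y⁻¹ * x, c, (mul_inv_cancel_left y x).symm, hz, hy', hcc, hc⟩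
  have hone : ∀ z : Δ, f z = 1 → ∀ (c : ℂ), c * c = 1 →
      (∀ (d : ℤ) (s : Vec E.a n), Sec E d s → A.D z s = c • s) → c = 1 := by
    intro z hz c hcc hc
    refine no_sign A hE W (by omega) hcl hbig' hfix' hp ?_ ?_ hcc hc ?_ ?_
    · intro x hx
      obtain ⟨y, z', c', rfl, -, hy, hcc', hc'⟩ := hsgn p hp x hx
      refine ⟨1 * c', ?_, hy.mul fun d s hs => by rw [hc' d s hs, evv_smul]⟩
      rw [one_mul]
      rintro rfl
      rw [mul_zero] at hcc'
      exact zero_ne_one hcc'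
    · have h2 : stab (T.comp f) p = (stab T p).comap f := rfl
      rw [h2, Subgroup.index_comap_of_surjective _ hsurj]
      exact hodd
    · intro x
      apply Subtype.ext
      apply Prod.ext
      · have hz1 : (z : Pr E Γ).1 = 1 := hz
        show (z : Pr E Γ).1 * (x : Pr E Γ).1 = (x : Pr E Γ).1 * (z : Pr E Γ).1
        rw [hz1, one_mul, mul_one]
      · apply MulOpposite.unop_injective
        funext d
        apply LinearEquiv.ext
        intro t
        have hz2 : ∀ t : S0 E d, (z : Pr E Γ).2.unop d t = c • t := by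
          intro t
          apply Subtype.ext
          have h3 := hc d t t.2
          rw [hAD z d t t.2] at h3
          exact h3
        show (x : Pr E Γ).2.unop d ((z : Pr E Γ).2.unop d t) =
          (z : Pr E Γ).2.unop d ((x : Pr E Γ).2.unop d t)
        rw [hz2, hz2, map_smul]
    · rw [MonoidHom.comp_apply, hz, map_one]
      rfl
  have hall : ∀ v, v ≠ 0 → ∀ x : Δ, (T.comp f) x v = v → A.At v x 1 := by
    intro v hv x hx
    obtain ⟨y, z, c, rfl, hz, hy, hcc, hc⟩ := hsgn v hv x hx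
    have h2 := hone z hz c hcc hc
    rw [h2] at hc
    have h3 : A.At v z 1 := fun d s hs => by rw [hc d s hs, evv_smul]
    have h4 := hy.mul h3
    rwa [mul_one] at h4
  obtain ⟨F, Ψ, ⟨hF, hrest⟩, δ, R, hR, hR0, hβ, hgen⟩ := descend2 (T := T.comp f) (by omega) W A
    (1 : Δ →* ℂ) (S := Set.univ)
    (fun v hv => A.pair_of_stab W (1 : Δ →* ℂ) hv fun g hg d G hG => by
      rw [MonoidHom.one_apply]
      exact hall v hv g hg d G hG) (by
    intro x _ a b G G' hG hG'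
    rw [MonoidHom.one_apply, mul_one, C_1, one_mul]
    exact hP' x a b G G' hG hG')
  have hRD : ∀ (x : Δ) i, (P x).D (R i) = R i := by
    intro x i
    have h2 := (hR i).2 x
    rw [MonoidHom.one_apply, one_smul] at h2
    exact h2
  refine ⟨F, Ψ, ⟨fun k i g => ?_, hrest⟩, δ, R, fun i => (hR i).1, hR0, hβ, hgen,
    fun g j k => ?_, fun g => ?_⟩
  · obtain ⟨x, rfl⟩ := hsurj g
    exact hF k i x trivial
  · obtain ⟨x, rfl⟩ := hsurj g
    have h2 := hP' x _ _ _ _ (hR j).1 (hR k).1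
    rw [hRD, hRD] at h2
    exact h2.symm
  · obtain ⟨x, rfl⟩ := hsurj g
    exact ⟨P x, hRD x⟩

end Pool.Agent.L5helper21.RG
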