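import Pool.Agent.L5helper21.RG.Main

/-!
# Simple bundles invariant under reflections
-/

set_option autoImplicit false
set_option maxHeartbeats 400000

open MvPolynomial H960VB H938TB Pool.Agent.W615 Pool.Agent.W467.FO
open Pool.Agent.L5helper21.DS

namespace Pool.Agent.L5helper21.RG

variable {n : ℕ} {E : Bundle2 n}

/-- composition of lifts -/
noncomputable def comp {S T : (Fin (n + 1) → ℂ) →ₗ[ℂ] (Fin (n + 1) → ℂ)} (O : GOp E S)
    (O' : GOp E T) : GOp E (S ∘ₗ T) where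
  D := fun s => O'.D (O.D s)
  sec := fun d G h => O'.sec d _ (O.sec d G h)
  add := by
    intro d G G' hG hG'
    rw [O.add d G G' hG hG']
    exact O'.add d _ _ (O.sec d G hG) (O.sec d G' hG')
  mul := by
    intro d e p G hG hp
    rw [O.mul d e p G hG hp, O'.mul d e _ _ (O.sec d G hG) (homZ_lsub _ hp)]
    funext i
    congr 1
    apply MvPolynomial.funext
    intro x
    rw [eval_lsub, eval_lsub, eval_lsub, LinearMap.comp_apply]
  inj := fun d G hG h => O.inj d G hG (O'.inj d _ (O.sec d G hG) h)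

/-- a multiple of a lift -/
noncomputable def scale {T : (Fin (n + 1) → ℂ) →ₗ[ℂ] (Fin (n + 1) → ℂ)} (O : GOp E T) {c : ℂ}
    (hc : c ≠ 0) : GOp E T where
  D := fun s => c • O.D s
  sec := fun d G h => (c • (⟨O.D G, O.sec d G h⟩ : S0 E d)).2
  add := by
    intro d G G' hG hG'
    rw [O.add d G G' hG hG']
    funext i
    simp only [Pi.smul_apply, smul_add]
  mul := by
    intro d e p G hG hp
    rw [O.mul d e p G hG hp]
    funext i
    simp only [Pi.smul_apply, smul_eq_C_mul]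
    ring
  inj := by
    intro d G hG h
    refine O.inj d G hG fun i => ?_
    have h1 := h i
    rw [Pi.smul_apply, smul_eq_C_mul] at h1
    refine (mul_eq_zero.1 h1).resolve_left fun h2 => hc ?_
    rwa [C_eq_zero] at h2

theorem scale_lin {T : (Fin (n + 1) → ℂ) →ₗ[ℂ] (Fin (n + 1) → ℂ)} (O : GOp E T) {c : ℂ}
    (hc : c ≠ 0) (d : ℤ) : (scale O hc).lin d = c • O.lin d := rfl

/-- the lift of the identity -/
noncomputable def idOp (E : Bundle2 n) : GOp E (LinearMap.id) where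
  D := fun s => s
  sec := fun _ _ h => h
  add := fun _ _ _ _ _ => rfl
  mul := by
    intro d e p G hG hp
    funext i
    congr 1
    apply MvPolynomial.funext
    intro x
    rw [eval_lsub]
    rfl
  inj := fun _ _ _ h => h

/-- the lifts of the identity are constants -/
def Simp (E : Bundle2 n) : Prop := ∀ (T : (Fin (n + 1) → ℂ) →ₗ[ℂ] (Fin (n + 1) → ℂ)),
  T = LinearMap.id → ∀ O : GOp E T, ∃ c : ℂ, ∀ (d : ℤ) (s : Vec E.a n), Sec E d s → O.D s = c • s

theorem exists_val (W : Wedge (triv E)) {p : Fin (n + 1) → ℂ} (hp : p ≠ 0) :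
    ∃ (d : ℤ) (s : Vec E.a n), Sec E d s ∧ evv s p ≠ 0 := by
  obtain ⟨a, b, G, G', hG, hG', hne⟩ := exists_sec_ne W p hp
  exact ⟨a, G, hG, ((W.ind p hp _ _ hG.ker hG'.ker).1 hne).ne_zero 0⟩

theorem exists_pow {T : Module.End ℂ (Fin (n + 1) → ℂ)} (O : GOp E T) (k : ℕ) :
    ∃ O' : GOp E (T ^ k), ∀ d, O'.lin d = O.lin d ^ k := by
  induction k with
  | zero =>
    rw [pow_zero]
    exact ⟨idOp E, fun d => by rw [pow_zero]; rfl⟩
  | succ k ih =>
    obtain ⟨O', h⟩ := ih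
    rw [pow_succ]
    refine ⟨comp O' O, fun d => ?_⟩
    rw [pow_succ', ← h]
    rfl

/-- a power of a lift which covers the identity is a constant -/
theorem pow_const (hS : Simp E) (W : Wedge (triv E)) {T : Module.End ℂ (Fin (n + 1) → ℂ)} (O : GOp E T) {m : ℕ}
    (hm : T ^ m = 1) : ∃ c : ℂ, c ≠ 0 ∧ ∀ d, O.lin d ^ m = c • 1 := by
  obtain ⟨O', h⟩ := exists_pow O m
  obtain ⟨c, hc⟩ := hS _ hm O'
  have hc' : ∀ d, O.lin d ^ m = c • 1 := by
    intro d
    rw [← h]
    apply LinearMap.ext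
    intro s
    apply Subtype.ext
    exact hc d s s.2
  obtain ⟨e, t, ht, ht0⟩ := exists_val W (p := fun _ => 1) (fun h => by simpa using congrFun h 0)
  refine ⟨c, ?_, hc'⟩
  rintro rfl
  apply ht0
  have h1 := hc e t ht
  rw [zero_smul] at h1
  have h2 := O'.inj e t ht (fun i => congrFun h1 i)
  funext i
  show eval _ (t i) = 0
  rw [h2 i, map_zero]

/-- a lift which is normalised at the fixed points -/
structure Nrm (W : Wedge (triv E)) {T : Module.End ℂ (Fin (n + 1) → ℂ)} (O : GOp E T) : Prop where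
  fix : ∀ (d : ℤ) (s : Vec E.a n), Sec E d s → ∀ x, T x = x → evv (O.D s) x = evv s x
  det : ∀ (a b : ℤ) (s t : Vec E.a n), Sec E a s → Sec E b t →
    W.wd (O.D s) (O.D t) = lsub T (W.wd s t)

/-- normalisation of the lift of a reflection -/
theorem exists_nrm (hn : 3 ≤ n) (hE : ¬ E.Splits) (hS : Simp E) (W : Wedge (triv E))
    {T : Module.End ℂ (Fin (n + 1) → ℂ)} (hTi : Function.Injective T) {m : ℕ} (hm0 : m ≠ 0)
    (hm : T ^ m = 1)
    (h3 : Module.finrank ℂ (LinearMap.ker (T - (1 : ℂ) • LinearMap.id)) = n) (O : GOp E T) :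
    ∃ O' : GOp E T, Nrm W O' ∧ ∀ d, O'.lin d ^ m = 1 := by
  obtain ⟨c, hc0, hc⟩ := pow_const hS W O hm
  obtain ⟨r, hr⟩ : ∃ r : ℂ, r ^ m = c := IsAlgClosed.exists_pow_nat_eq c (Nat.pos_of_ne_zero hm0)
  have hr0 : r ≠ 0 := by
    rintro rfl
    apply hc0
    rw [← hr, zero_pow hm0]
  let O₁ := scale O (inv_ne_zero hr0)
  obtain ⟨κ, hκ0, hκ⟩ := O₁.det W (by omega) hTi
  have hpow : ∀ d, (O₁.lin d) ^ m = 1 := by
    intro d
    rw [scale_lin, smul_pow, hc d, smul_smul, ← hr, ← mul_pow, inv_mul_cancel₀ hr0, one_pow,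
      one_smul]
  obtain ⟨u, hu, hu'⟩ := scal hE W O₁ (by rw [h3]; exact hn) hκ0 hκ hm0 hpow
  have hu0 : u ≠ 0 := by
    rintro rfl
    apply hκ0
    rw [← hu, zero_mul]
  let O₂ := scale O₁ (inv_ne_zero hu0)
  have hfix : ∀ (d : ℤ) (s : Vec E.a n), Sec E d s → ∀ x, T x = x →
      evv (O₂.D s) x = evv s x := by
    intro d s hs x hx
    show evv (u⁻¹ • O₁.D s) x = evv s x
    rw [evv_smul, hu' d s hs x hx, smul_smul, inv_mul_cancel₀ hu0, one_smul]
  refine ⟨O₂, ⟨hfix, fun a b s t hs ht => ?_⟩, ?_⟩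
  · have h1 : O₂.D s = fun i => C u⁻¹ * O₁.D s i := by
      funext i
      show (u⁻¹ • O₁.D s) i = _
      rw [Pi.smul_apply, smul_eq_C_mul]
    have h2 : O₂.D t = fun i => C u⁻¹ * O₁.D t i := by
      funext i
      show (u⁻¹ • O₁.D t) i = _
      rw [Pi.smul_apply, smul_eq_C_mul]
    rw [h1, h2, W.smul _ _ _ (O₁.sec _ _ hs).ker (ker_mul (O₁.sec _ _ ht).ker _),
      wd_mul_right W (O₁.sec _ _ ht).ker (O₁.sec _ _ hs).ker, hκ a b s t hs ht, ← hu,
      ← mul_assoc, ← mul_assoc, ← C_mul, ← C_mul]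
    have h3 : u⁻¹ * u⁻¹ * (u * u) = 1 := by field_simp
    rw [h3, C_1, one_mul]
  · -- the order
    obtain ⟨c', hc'0, hc'⟩ := pow_const hS W O₂ hm
    obtain ⟨x, hx0, hx⟩ : ∃ x : Fin (n + 1) → ℂ, x ≠ 0 ∧ T x = x := by
      have h4 : LinearMap.ker (T - (1 : ℂ) • LinearMap.id) ≠ ⊥ := by
        intro h4
        rw [h4, finrank_bot] at h3
        omega
      obtain ⟨x, hx, hx0⟩ := Submodule.exists_mem_ne_zero_of_ne_bot h4
      rw [LinearMap.mem_ker, LinearMap.sub_apply, LinearMap.smul_apply, LinearMap.id_apply,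
        one_smul, sub_eq_zero] at hx
      exact ⟨x, hx0, hx⟩
    obtain ⟨e, t, ht, ht0⟩ := exists_val W hx0
    have h5 : ∀ k : ℕ, evv (((O₂.lin e ^ k) ⟨t, ht⟩ : S0 E e) : Vec E.a n) x = evv t x := by
      intro k
      induction k with
      | zero => rfl
      | succ k ih =>
        rw [pow_succ', Module.End.mul_apply]
        have h6 := hfix e _ ((O₂.lin e ^ k) ⟨t, ht⟩).2 x hx
        rw [← ih]
        exact h6
    have h6 := h5 m
    rw [hc' e] at h6
    have h7 : evv (c' • t) x = evv t x := h6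
    rw [evv_smul] at h7
    have h8 : (c' - 1) • evv t x = 0 := by
      rw [sub_smul, h7, one_smul, sub_self]
    have h9 : c' = 1 := sub_eq_zero.1 ((smul_eq_zero.1 h8).resolve_right ht0)
    intro d
    rw [hc' d, h9, one_smul]

section group

variable {Γ : Type*} [Group Γ] (T : Γ →* Module.End ℂ (Fin (n + 1) → ℂ))

/-- the group of pairs -/
abbrev Pr (E : Bundle2 n) (Γ : Type*) : Type _ := Γ × (∀ d : ℤ, (S0 E d ≃ₗ[ℂ] S0 E d))ᵐᵒᵖ

/-- the pairs which are lifts -/
def Lft (W : Wedge (triv E)) (x : Pr E Γ) : Prop :=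
  ∃ O : GOp E (T x.1), (∀ d (s : S0 E d), x.2.unop d s = O.lin d s) ∧
    ∀ (a b : ℤ) (s t : Vec E.a n), Sec E a s → Sec E b t →
      W.wd (O.D s) (O.D t) = lsub (T x.1) (W.wd s t)

theorem lft_one (W : Wedge (triv E)) : Lft T W (1 : Pr E Γ) := by
  have h : ∃ O : GOp E (T 1), ∀ s, O.D s = s := by
    rw [map_one]
    exact ⟨idOp E, fun _ => rfl⟩
  obtain ⟨O, hO⟩ := h
  refine ⟨O, fun d s => Subtype.ext (hO s).symm, fun a b s t hs ht => ?_⟩
  rw [hO, hO]
  apply MvPolynomial.funext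
  intro x
  rw [eval_lsub]
  show _ = eval (T 1 x) _
  rw [map_one]
  rfl

theorem lft_mul (W : Wedge (triv E)) {x y : Pr E Γ} (hx : Lft T W x) (hy : Lft T W y) :
    Lft T W (x * y) := by
  obtain ⟨O, hO, hO'⟩ := hx
  obtain ⟨P, hP, hP'⟩ := hy
  have h1 : T (x * y).1 = T x.1 ∘ₗ T y.1 := by rw [Prod.fst_mul, map_mul]; rfl
  have h : ∃ Q : GOp E (T (x * y).1), ∀ s, Q.D s = P.D (O.D s) := by
    rw [h1]
    exact ⟨comp O P, fun _ => rfl⟩
  obtain ⟨Q, hQ⟩ := h
  refine ⟨Q, fun d s => ?_, fun a b s t hs ht => ?_⟩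
  · have h2 : (x * y).2.unop d s = y.2.unop d (x.2.unop d s) := rfl
    rw [h2, hO, hP]
    apply Subtype.ext
    exact (hQ s).symm
  · rw [hQ, hQ, hP' a b _ _ (O.sec _ _ hs) (O.sec _ _ ht), hO' a b s t hs ht]
    apply MvPolynomial.funext
    intro z
    rw [eval_lsub, eval_lsub, eval_lsub, h1, LinearMap.comp_apply]

/-- a pair from a lift -/
noncomputable def mkPr {T : Γ →* Module.End ℂ (Fin (n + 1) → ℂ)} {g : Γ} (O : GOp E (T g)) :
    Pr E Γ := (g, MulOpposite.op fun d => LinearEquiv.ofInjectiveEndo (O.lin d) (lin_inj O d))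

theorem mkPr_apply {T : Γ →* Module.End ℂ (Fin (n + 1) → ℂ)} {g : Γ} (O : GOp E (T g)) (d : ℤ)
    (s : S0 E d) : (mkPr O).2.unop d s = O.lin d s := rfl

theorem mkPr_pow {T : Γ →* Module.End ℂ (Fin (n + 1) → ℂ)} {g : Γ} (O : GOp E (T g)) (k : ℕ)
    (d : ℤ) (s : S0 E d) : ((mkPr O) ^ k).2.unop d s = (O.lin d ^ k) s := by
  induction k generalizing s with
  | zero => rfl
  | succ k ih =>
    rw [pow_succ', pow_succ, Module.End.mul_apply]
    have h2 : (mkPr O * mkPr O ^ k).2.unop d s = (mkPr O ^ k).2.unop d ((mkPr O).2.unop d s) := rfl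
    rw [h2, ih, mkPr_apply]

/-- a simple bundle which is invariant under a set of reflections -/
theorem general_simple [Finite Γ] (hn : 3 ≤ n) (hE : ¬ E.Splits) (hsimp : Simp E) {S : Set Γ}
    (hT : ∀ s ∈ S, IsRefl T s)
    (hL : ∀ s ∈ S, Nonempty (GOp E (T s))) :
    ∃ (F : Bundle2 n) (Ψ : Vec E.a n → Vec F.a n),
      (∀ k i, ∀ s ∈ S, lsub (T s) (F.B k i) = F.B k i) ∧
      (∀ d G, E.IsSection d G → F.IsSection d (Ψ G)) ∧
      (∀ d G G', E.IsSection d G → E.IsSection d G' → Ψ (G + G') = Ψ G + Ψ G') ∧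
      (∀ d (p : MvPolynomial (Fin (n + 1)) ℂ) G, E.IsSection d G → Ψ (p • G) = p • Ψ G) ∧
      (∀ d H, F.IsSection d H → ∃! G, E.IsSection d G ∧ Ψ G = H) := by
  classical
  obtain ⟨W⟩ := exists_wedge (by omega : 1 ≤ n) (triv E)
  -- normalised lifts
  have h1 : ∀ s : S, ∃ O : GOp E (T s), Nrm W O ∧ ∀ d, O.lin d ^ orderOf (s : Γ) = 1 := by
    intro s
    obtain ⟨O⟩ := hL s s.2
    refine exists_nrm hn hE hsimp W (T_inj T s) (orderOf_pos (s : Γ)).ne' ?_ (hT s s.2) O
    rw [← map_pow, pow_orderOf_eq_one, map_one]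
  choose O hO hO' using h1
  let X : Set (Pr E Γ) := Set.range fun s : S => mkPr (O s)
  have hfin : ∀ x ∈ X, IsOfFinOrder x := by
    rintro _ ⟨s, rfl⟩
    refine isOfFinOrder_iff_pow_eq_one.2 ⟨orderOf (s : Γ), orderOf_pos _, ?_⟩
    apply Prod.ext
    · exact pow_orderOf_eq_one _
    · apply MulOpposite.unop_injective
      funext d
      apply LinearEquiv.ext
      intro t
      rw [mkPr_pow, hO' s d]
      rfl
  let Δ : Subgroup (Pr E Γ) := Subgroup.closure X
  have hΔ : ∀ x ∈ Δ, Lft T W x := by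
    intro x hx
    have h2 : x ∈ Submonoid.closure X := by
      rw [← Subgroup.closure_toSubmonoid_of_isOfFinOrder hfin]
      exact hx
    clear hx
    induction h2 using Submonoid.closure_induction with
    | mem x hx =>
      obtain ⟨s, rfl⟩ := hx
      exact ⟨O s, fun d t => rfl, (hO s).det⟩
    | one => exact lft_one T W
    | mul x y _ _ ihx ihy => exact lft_mul T W ihx ihy
  -- the group is finite
  let f : Δ →* Γ := (MonoidHom.fst _ _).comp Δ.subtype
  have hker : ∀ x : f.ker, ∃ c : ℂ, c * c = 1 ∧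
      ∀ d (s : S0 E d), (((x : Δ) : Pr E Γ).2.unop d s : S0 E d) = c • s := by
    intro x
    obtain ⟨P, hP, hP'⟩ := hΔ _ (x : Δ).2
    have hx1 : ((x : Δ) : Pr E Γ).1 = 1 := x.2
    have hx2 : T ((x : Δ) : Pr E Γ).1 = LinearMap.id := by rw [hx1, map_one]; rfl
    obtain ⟨c, hc⟩ := hsimp _ hx2 P
    refine ⟨c, ?_, fun d s => ?_⟩
    · obtain ⟨a, b, G, G', hG, hG', hne⟩ := exists_sec_ne W (fun _ => 1)
        (fun h => by simpa using congrFun h 0)
      have h2 := hP' a b G G' hG hG'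
      have h3 : P.D G = fun i => C c * G i := by
        rw [hc a G hG]
        funext i
        rw [Pi.smul_apply, smul_eq_C_mul]
      have h4 : P.D G' = fun i => C c * G' i := by
        rw [hc b G' hG']
        funext i
        rw [Pi.smul_apply, smul_eq_C_mul]
      rw [h3, h4, W.smul _ _ _ hG.ker (ker_mul hG'.ker _), wd_mul_right W hG'.ker hG.ker] at h2
      have h5 := congrArg (eval (fun _ => (1 : ℂ))) h2
      rw [map_mul, map_mul, eval_C, eval_lsub, hx2, LinearMap.id_apply] at h5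
      have h6 : (c * c - 1) * eval (fun _ => (1 : ℂ)) (W.wd G G') = 0 := by
        linear_combination h5
      exact sub_eq_zero.1 ((mul_eq_zero.1 h6).resolve_right hne)
    · rw [hP]
      apply Subtype.ext
      exact hc d s s.2
  choose c hc hc' using hker
  have hfinΔ : Finite Δ := by
    rw [MonoidHom.finite_iff_finite_ker_range f]
    refine ⟨?_, inferInstance⟩
    have h2 : Finite {c : ℂ // c * c = 1} := by
      refine Set.Finite.subset (s := ({1, -1} : Set ℂ)) (Set.toFinite _) ?_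
      intro z hz
      rcases mul_self_eq_one_iff.1 hz with h | h
      · exact Or.inl h
      · exact Or.inr h
    refine Finite.of_injective (fun x : f.ker => (⟨c x, hc x⟩ : {c : ℂ // c * c = 1})) ?_
    intro x y hxy
    have hxy' : c x = c y := congrArg Subtype.val hxy
    apply Subtype.ext
    apply Subtype.ext
    apply Prod.ext
    · have hx1 : ((x : Δ) : Pr E Γ).1 = 1 := x.2
      have hy1 : ((y : Δ) : Pr E Γ).1 = 1 := y.2
      rw [hx1, hy1]
    · apply MulOpposite.unop_injective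
      funext d
      apply LinearEquiv.ext
      intro t
      rw [hc' x, hc' y, hxy']
  have : Fintype Δ := Fintype.ofFinite Δ
  -- the action
  have hΔ' : ∀ x : Δ, ∃ P : GOp E ((T.comp f) x),
      (∀ d (s : S0 E d), (x : Pr E Γ).2.unop d s = P.lin d s) ∧
      ∀ (a b : ℤ) (s t : Vec E.a n), Sec E a s → Sec E b t →
        W.wd (P.D s) (P.D t) = lsub ((T.comp f) x) (W.wd s t) := fun x => hΔ x x.2
  choose P hP hP' using hΔ'
  let A : Act E (T.comp f) := ⟨P, fun g h d s hs => by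
    have h2 := hP (g * h) d ⟨s, hs⟩
    have h3 : ((g * h : Δ) : Pr E Γ).2.unop d ⟨s, hs⟩ =
      (h : Pr E Γ).2.unop d ((g : Pr E Γ).2.unop d ⟨s, hs⟩) := rfl
    rw [h3, hP g, hP h] at h2
    exact (congrArg Subtype.val h2).symm⟩
  have hAD : ∀ (x : Δ) (d : ℤ) (s : Vec E.a n) (hs : Sec E d s),
      A.D x s = ((x : Pr E Γ).2.unop d ⟨s, hs⟩ : S0 E d) := by
    intro x d s hs
    rw [hP]
    rfl
  have hcl : Subgroup.closure (((↑) : Δ → Pr E Γ) ⁻¹' X) = ⊤ :=
    Subgroup.closure_closure_coe_preimage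
  obtain ⟨F, Ψ, hF, hrest⟩ := general (T := T.comp f) (by omega) W A (1 : Δ →* ℂ) hcl (by
    rintro x ⟨s, hs⟩
    have hx : (T.comp f) x = T s := by
      show T ((x : Δ) : Pr E Γ).1 = T s
      rw [← hs]
      rfl
    obtain ⟨φ, hφ, hφ'⟩ := exists_functional (hT s s.2)
    refine ⟨φ, hφ, fun z hz => ?_⟩
    rw [hx]
    exact (hφ' z).2 hz) (by
    rintro x ⟨s, hs⟩ d G hG z hz
    have hx : (T.comp f) x = T s := by
      show T ((x : Δ) : Pr E Γ).1 = T s
      rw [← hs]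
      rfl
    rw [hx] at hz
    rw [hAD x d G hG, ← hs, MonoidHom.one_apply, one_smul]
    exact (hO s).fix d G hG z hz) (by
    rintro x ⟨s, hs⟩ a b G G' hG hG'
    rw [MonoidHom.one_apply, mul_one, C_1, one_mul]
    exact hP' x a b G G' hG hG')
  refine ⟨F, Ψ, fun k i s hs => ?_, hrest⟩
  have h2 : mkPr (O ⟨s, hs⟩) ∈ X := ⟨⟨s, hs⟩, rfl⟩
  have h3 := hF k i ⟨mkPr (O ⟨s, hs⟩), Subgroup.subset_closure h2⟩ h2
  exact h3

end group

end Pool.Agent.L5helper21.RG
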