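import Pool.Agent.L5helper21.DS.Main

/-!
# Lifts of finite order of a linear map with a large fixed space
-/

set_option autoImplicit false
set_option maxHeartbeats 400000

open MvPolynomial H960VB H938TB Pool.Agent.W615 Pool.Agent.W467.FO

namespace Pool.Agent.L5helper21.RG

variable {n : ℕ} {E : Bundle2 n}

theorem coe_lin {T : (Fin (n + 1) → ℂ) →ₗ[ℂ] (Fin (n + 1) → ℂ)} (O : GOp E T) (d : ℤ)
    (s : S0 E d) : ((O.lin d s : S0 E d) : Vec E.a n) = O.D s := rfl

theorem lin_inj {T : (Fin (n + 1) → ℂ) →ₗ[ℂ] (Fin (n + 1) → ℂ)} (O : GOp E T) (d : ℤ) :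
    Function.Injective (O.lin d) := by
  rw [← LinearMap.ker_eq_bot, LinearMap.ker_eq_bot']
  intro s hs
  apply Subtype.ext
  funext i
  exact O.inj d s s.2 (fun i => congrFun (congrArg Subtype.val hs) i) i

theorem evv_smul (c : ℂ) {a : ℕ} (G : Vec a n) (x : Fin (n + 1) → ℂ) :
    evv (c • G) x = c • evv G x := by
  funext i
  show eval x ((c • G) i) = c * eval x (G i)
  rw [Pi.smul_apply, smul_eval]

theorem evv_add {a : ℕ} (G H : Vec a n) (x : Fin (n + 1) → ℂ) :
    evv (G + H) x = evv G x + evv H x := by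
  funext i
  exact map_add (eval x) (G i) (H i)

theorem evv_zero {a : ℕ} (x : Fin (n + 1) → ℂ) : evv (0 : Vec a n) x = 0 := by
  funext i
  exact map_zero (eval x)

/-- a lift of finite order acts by a scalar on the fibres over the fixed points -/
theorem scal (hE : ¬ E.Splits) (W : Wedge (triv E))
    {T : (Fin (n + 1) → ℂ) →ₗ[ℂ] (Fin (n + 1) → ℂ)} (O : GOp E T)
    (h3 : 3 ≤ Module.finrank ℂ (LinearMap.ker (T - (1 : ℂ) • LinearMap.id)))
    {κ : ℂ} (hκ0 : κ ≠ 0) (hκ : ∀ (a b : ℤ) (s t : Vec E.a n), Sec E a s → Sec E b t →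
      W.wd (O.D s) (O.D t) = C κ * lsub T (W.wd s t))
    {N : ℕ} (hN : N ≠ 0) (hpow : ∀ d, (O.lin d) ^ N = 1) :
    ∃ u : ℂ, u * u = κ ∧ ∀ (d : ℤ) (s : Vec E.a n), Sec E d s → ∀ x, T x = x →
      evv (O.D s) x = u • evv s x := by
  obtain ⟨k, S, hk2, hkn, hSi, hTS, hr⟩ := exists_S 1 h3
  have hES : ¬ (E.pull S hSi).Splits := fun h =>
    hE (Bundle2.splits_of_pull (n - k) k n hk2 (by omega) E S hSi h)
  obtain ⟨u, hu, hu'⟩ := O.typeV W hκ0 hκ (by omega) S hSi one_ne_zero hTS hES
  refine ⟨u, by rw [hu, one_zpow, mul_one], fun d s hs x hx => ?_⟩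
  obtain ⟨y, hy⟩ := hr x (by rw [one_smul]; exact hx)
  have hss : Module.End.IsSemisimple (O.lin d : Module.End ℂ (S0 E d)) := by
    refine Module.End.isSemisimple_of_squarefree_aeval_eq_zero
      (p := (Polynomial.X ^ N - 1 : Polynomial ℂ)) ?_ ?_
    · exact (Polynomial.X_pow_sub_one_separable_iff.2 (by exact_mod_cast hN)).squarefree
    · rw [map_sub, map_pow, Polynomial.aeval_X, map_one, hpow d, sub_self]
  have htop := hss.iSup_eigenspace_eq_top
  have key : ∀ t : S0 E d, evv (O.D (t : Vec E.a n)) x = u • evv (t : Vec E.a n) x := by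
    intro t
    have ht : t ∈ ⨆ μ, Module.End.eigenspace (O.lin d) μ := by rw [htop]; trivial
    induction ht using Submodule.iSup_induction' with
    | mem α t ht =>
      rw [Module.End.mem_eigenspace_iff] at ht
      have h1 : O.D (t : Vec E.a n) = α • (t : Vec E.a n) := congrArg Subtype.val ht
      by_cases hα : α = u
      · rw [h1, hα, evv_smul]
      · have h0 : evv (t : Vec E.a n) x = 0 := by
          funext i
          by_contra hne
          apply hα
          have h2 := hu' d α t ⟨1, by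
            rw [pow_one, LinearMap.sub_apply, ht, LinearMap.smul_apply, Module.End.one_apply,
              sub_self]⟩ ⟨i, fun h0 => hne ?_⟩
          · rw [h2, one_zpow, mul_one]
          · have h2 : lsub S ((t : Vec E.a n) i) = 0 := h0
            show eval x ((t : Vec E.a n) i) = 0
            rw [← hy, ← eval_lsub, h2, map_zero]
        rw [h1, evv_smul, h0, smul_zero, smul_zero]
    | zero =>
      have h1 : O.D ((0 : S0 E d) : Vec E.a n) = 0 := by
        rw [← coe_lin, map_zero]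
        rfl
      have h2 : ((0 : S0 E d) : Vec E.a n) = 0 := rfl
      rw [h1, h2, evv_zero, smul_zero]
    | add t t' _ _ h h' =>
      have h1 : O.D ((t + t' : S0 E d) : Vec E.a n) = O.D (t : Vec E.a n) + O.D (t' : Vec E.a n) := by
        rw [← coe_lin, map_add]
        rfl
      have h2 : ((t + t' : S0 E d) : Vec E.a n) = (t : Vec E.a n) + (t' : Vec E.a n) := rfl
      rw [h1, h2, evv_add, evv_add, h, h', smul_add]
  exact key ⟨s, hs⟩

/-- a section and its image vanish at corresponding points -/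
theorem zero_iff (W : Wedge (triv E))
    {T : (Fin (n + 1) → ℂ) →ₗ[ℂ] (Fin (n + 1) → ℂ)} (hT : Function.Injective T) (O : GOp E T)
    {κ : ℂ} (hκ : ∀ (a b : ℤ) (s t : Vec E.a n), Sec E a s → Sec E b t →
      W.wd (O.D s) (O.D t) = C κ * lsub T (W.wd s t)) (hκ0 : κ ≠ 0)
    {d : ℤ} {s : Vec E.a n} (hs : Sec E d s) {x : Fin (n + 1) → ℂ} (hx : x ≠ 0)
    (h : evv s (T x) = 0) : evv (O.D s) x = 0 := by
  have hTx : T x ≠ 0 := fun h => hx (hT (by rw [h, map_zero]))
  obtain ⟨a, b, t, t', ht, ht', hne⟩ := exists_sec_ne W (T x) hTx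
  have hz : ∀ (e : ℤ) (r : Vec E.a n), Sec E e r → eval x (W.wd (O.D s) (O.D r)) = 0 := by
    intro e r hr
    rw [hκ _ _ _ _ hs hr, map_mul, eval_lsub]
    have h1 : eval (T x) (W.wd s r) = 0 := by
      by_contra hc
      have h2 := (W.ind _ hTx _ _ hs.ker hr.ker).1 hc
      have h3 := h2.ne_zero 0
      exact h3 h
    rw [h1, mul_zero]
  have hlin : LinearIndependent ℂ ![evv (O.D t) x, evv (O.D t') x] := by
    rw [← W.ind x hx _ _ (O.sec _ _ ht).ker (O.sec _ _ ht').ker, hκ _ _ _ _ ht ht', map_mul,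
      eval_lsub, eval_C]
    exact mul_ne_zero hκ0 hne
  have h1 := hz a t ht
  have h2 := hz b t' ht'
  funext i
  have h3 := congrArg (eval x) (W.three (O.D s) (O.D t) (O.D t') (O.sec _ _ hs).ker
    (O.sec _ _ ht).ker (O.sec _ _ ht').ker i)
  rw [map_add, map_sub, map_mul, map_mul, map_mul, h1, h2, zero_mul, zero_mul, map_zero, sub_zero,
    add_zero] at h3
  refine (mul_eq_zero.1 h3).resolve_left ?_
  exact (W.ind x hx _ _ (O.sec _ _ ht).ker (O.sec _ _ ht').ker).2 hlin

end Pool.Agent.L5helper21.RG
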